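import Pool.Agent.Helper15.NL.Basis3a

/-!
NL-9b. In dimension three a symmetric convex set which meets every parity class contains a basis.

Proof. By `exists_odd_det` there are three lattice points of `K` with nonzero determinant. Let `V` be a matrix with rows in `K ∩ ℤ³`,
`D = det V ≠ 0`, `|D|` least. For `z ∈ ℤ³` put `a z = z ᵥ* adjugate V`, so `D z = ∑ a_i v_i` and
`det (V.updateRow i z) = a_i`. Hence for `z ∈ K ∩ ℤ³`: `a_i = 0` or `|a_i| ≥ |D|`.
(1) `z` reduced (`2 |a_i| ≤ |D|`), `z ≠ 0`: `∑ |a_i| > |D|` (else `z ∈ K`).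
In particular all `a_i ≠ 0`.
(2) `z'' = 2 z - ∑ sgn (a_i D) v_i` has `|a''_i| = |D| - 2 |a_i|`, sum `< |D|`, so `z'' ∈ K`, so all
`a''_i = 0`: `2 |a_i| = |D|` for all three `i`.
(3) `D` odd: every `z` reduces to `0`: `V` is unimodular. (4) `D` even: there is `c`, not `0` modulo
two, with `c ⬝ v_i` even for all `i`; let `x ∈ K ∩ ℤ³` with `c ⬝ x` odd. `x` does not reduce to `0`, so
`a_i x = ± |D|/2 · odd`, and `|a_i x| ≥ |D|`. Let `A = max |a_i x|`, attained at `i0`; then
`z' = ∑ sgn (a_i x) v_i / 2` (an integer vector, congruent to the reduction of `x`) is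
`(|D|/2)/A · (±x) + ∑_{i ≠ i0} (1/2) (1 - |a_i x| / A) (± v_i)`, total weight
`|D|/(2A) + 1 - (|a_i| + |a_j|)/(2A) ≤ 1`, so `z' ∈ K`, with `|a_i z'| = |D|/2`: contradiction.
-/

namespace Helper15.NL

open Matrix Set Helper31.Ewald

private theorem absconv {n : ℕ} {K : Set (Fin n → ℝ)} (hc : Convex ℝ K) (hs : ∀ x ∈ K, -x ∈ K)
    (h0 : (0 : Fin n → ℝ) ∈ K) {ι : Type} [Fintype ι] (p : ι → (Fin n → ℝ)) (hp : ∀ i, p i ∈ K)
    (t : ι → ℝ) (ht : ∑ i, |t i| ≤ 1) : ∑ i, t i • p i ∈ K := by
  classical
  set S := ∑ i, |t i| with hS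
  have hS0 : 0 ≤ S := Finset.sum_nonneg fun i _ => abs_nonneg _
  rcases hS0.eq_or_lt with h | h
  · have h1 : ∀ i ∈ Finset.univ, |t i| = 0 :=
      (Finset.sum_eq_zero_iff_of_nonneg (fun i _ => abs_nonneg _)).1 h.symm
    have h2 : ∑ i, t i • p i = 0 := by
      refine Finset.sum_eq_zero fun i hi => ?_
      rw [abs_eq_zero.1 (h1 i hi), zero_smul]
    rw [h2]
    exact h0
  · have h1 : ∑ i, (|t i| / S) • (if 0 ≤ t i then p i else -p i) ∈ K := by
      refine hc.sum_mem (fun i _ => div_nonneg (abs_nonneg _) hS0) ?_ (fun i _ => ?_)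
      · rw [← Finset.sum_div, ← hS, div_self h.ne']
      · split_ifs
        · exact hp i
        · exact hs _ (hp i)
    have h2 : ∑ i, t i • p i = S • ∑ i, (|t i| / S) • (if 0 ≤ t i then p i else -p i) := by
      rw [Finset.smul_sum]
      refine Finset.sum_congr rfl fun i _ => ?_
      rw [smul_smul, mul_div_cancel₀ _ h.ne']
      split_ifs with hi
      · rw [abs_of_nonneg hi]
      · rw [abs_of_neg (not_le.1 hi), smul_neg, neg_smul, neg_neg]
    rw [h2]
    exact hc.smul_mem_of_zero_mem h0 h1 ⟨hS0, ht⟩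

private theorem exists_near (a D : ℤ) (hD : D ≠ 0) : ∃ m : ℤ, 2 * |a - m * D| ≤ |D| := by
  refine ⟨round ((a : ℚ) / D), ?_⟩
  have h1 := abs_sub_round ((a : ℚ) / D)
  have hD' : (D : ℚ) ≠ 0 := by exact_mod_cast hD
  have hD'' : 0 < |(D : ℚ)| := abs_pos.2 hD'
  have h2 : |(a : ℚ) - round ((a : ℚ) / D) * D| = |(a : ℚ) / D - round ((a : ℚ) / D)| * |(D : ℚ)| := by
    rw [← abs_mul]
    congr 1
    field_simp
  have h3 : 2 * |(a : ℚ) - round ((a : ℚ) / D) * D| ≤ |(D : ℚ)| := by
    rw [h2]
    nlinarith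
  exact_mod_cast h3

private theorem int_mul_pm {s : ℤ} (hs : s = 1 ∨ s = -1) (D : ℤ) : |s * D| = |D| := by
  rcases hs with rfl | rfl <;> simp

theorem exists_basis3 {K : Set (Fin 3 → ℝ)} (hc : Convex ℝ K) (hs : ∀ x ∈ K, -x ∈ K)
    (hodd : OddPts K) :
    ∃ b : Matrix (Fin 3) (Fin 3) ℤ, IsUnit b.det ∧ ∀ i, toR (b i) ∈ K := by
  classical
  -- a matrix with least nonzero determinant
  obtain ⟨V0, hV0, hV0K⟩ := exists_odd_det hodd
  have hex : ∃ n : ℕ, n ≠ 0 ∧ ∃ V : Matrix (Fin 3) (Fin 3) ℤ, (∀ i, toR (V i) ∈ K) ∧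
      V.det.natAbs = n := by
    refine ⟨V0.det.natAbs, ?_, V0, hV0K, rfl⟩
    intro h
    rw [Int.natAbs_eq_zero] at h
    rw [h] at hV0
    exact absurd hV0 (by decide)
  obtain ⟨hn0, V, hVK, hVn⟩ := Nat.find_spec hex
  set D := V.det with hDdef
  have hD0 : D ≠ 0 := by
    intro h
    apply hn0
    rw [← hVn, h]
    rfl
  have hDpos : 0 < |D| := abs_pos.2 hD0
  have hmin : ∀ W : Matrix (Fin 3) (Fin 3) ℤ, (∀ i, toR (W i) ∈ K) → W.det = 0 ∨ |D| ≤ |W.det| := by
    intro W hW
    by_cases h : W.det = 0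
    · exact Or.inl h
    · right
      have h1 := Nat.find_min' hex ⟨Int.natAbs_ne_zero.2 h, W, hW, rfl⟩
      rw [← hVn] at h1
      rw [Int.abs_eq_natAbs, Int.abs_eq_natAbs]
      exact_mod_cast h1
  have h0K : (0 : Fin 3 → ℝ) ∈ K := by
    have h1 := hc (hVK 0) (hs _ (hVK 0)) (a := 1 / 2) (b := 1 / 2) (by norm_num) (by norm_num)
      (by norm_num)
    rwa [smul_neg, add_neg_cancel] at h1
  -- the coordinates
  set a : (Fin 3 → ℤ) → (Fin 3 → ℤ) := fun z => z ᵥ* V.adjugate with ha
  have ha_det : ∀ z i, (V.updateRow i z).det = a z i := by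
    intro z i
    rw [ha, ← Matrix.cramer_transpose_apply, Matrix.cramer_eq_adjugate_mulVec,
      ← Matrix.adjugate_transpose, Matrix.mulVec_transpose]
  have ha_mul : ∀ z, a z ᵥ* V = D • z := by
    intro z
    rw [ha]
    simp only
    rw [Matrix.vecMul_vecMul, Matrix.adjugate_mul, Matrix.vecMul_smul, Matrix.vecMul_one]
  have ha_comb : ∀ m : Fin 3 → ℤ, a (m ᵥ* V) = D • m := by
    intro m
    rw [ha]
    simp only
    rw [Matrix.vecMul_vecMul, Matrix.mul_adjugate, Matrix.vecMul_smul, Matrix.vecMul_one]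
  have ha_add : ∀ z w, a (z + w) = a z + a w := fun z w => Matrix.add_vecMul _ _ _
  have ha_sub : ∀ z w, a (z - w) = a z - a w := fun z w => Matrix.sub_vecMul _ _ _
  have ha_smul : ∀ (c : ℤ) z, a (c • z) = c • a z := fun c z => Matrix.smul_vecMul _ _ _
  have hdich : ∀ z : Fin 3 → ℤ, toR z ∈ K → ∀ i, a z i = 0 ∨ |D| ≤ |a z i| := by
    intro z hz i
    rw [← ha_det]
    refine hmin _ fun j => ?_
    by_cases hj : j = i
    · subst hj
      rw [Matrix.updateRow_self]
      exact hz
    · rw [Matrix.updateRow_ne hj]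
      exact hVK j
  -- the real form of `D z = ∑ a_i v_i`
  have hreal : ∀ z : Fin 3 → ℤ, (D : ℝ) • toR z = ∑ i, (a z i : ℝ) • toR (V i) := by
    intro z
    funext j
    have h1 := congrFun (ha_mul z) j
    simp only [Matrix.vecMul, dotProduct, Pi.smul_apply, smul_eq_mul] at h1
    simp only [toR, Pi.smul_apply, smul_eq_mul, Finset.sum_apply]
    have h2 : ((∑ i, a z i * V i j : ℤ) : ℝ) = ((D * z j : ℤ) : ℝ) := by rw [h1]
    push_cast at h2
    rw [← h2]
  have hDR : (D : ℝ) ≠ 0 := by exact_mod_cast hD0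
  have hDR' : 0 < |(D : ℝ)| := abs_pos.2 hDR
  have hmemK : ∀ z : Fin 3 → ℤ, ∑ i, |a z i| ≤ |D| → toR z ∈ K := by
    intro z hz
    have h1 : toR z = ∑ i, ((a z i : ℝ) / D) • toR (V i) := by
      have h2 : toR z = (D : ℝ)⁻¹ • ((D : ℝ) • toR z) := by
        rw [smul_smul, inv_mul_cancel₀ hDR, one_smul]
      rw [h2, hreal, Finset.smul_sum]
      refine Finset.sum_congr rfl fun i _ => ?_
      rw [smul_smul, div_eq_inv_mul]
    rw [h1]
    refine absconv hc hs h0K _ (fun i => hVK i) _ ?_
    simp only [abs_div]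
    rw [← Finset.sum_div, div_le_one hDR']
    exact_mod_cast hz
  have ha_zero : ∀ z, (∀ i, a z i = 0) → z = 0 := by
    intro z hz
    have h1 := ha_mul z
    have h2 : a z = 0 := funext hz
    rw [h2, Matrix.zero_vecMul] at h1
    exact (smul_eq_zero.1 h1.symm).resolve_left hD0
  -- (1), (2)
  have hred : ∀ z, z ≠ 0 → (∀ i, 2 * |a z i| ≤ |D|) → ∀ i, 2 * |a z i| = |D| := by
    intro z hz hle
    have hsum : |D| < ∑ i, |a z i| := by
      by_contra hcon
      apply hz
      apply ha_zero
      intro i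
      rcases hdich z (hmemK z (not_lt.1 hcon)) i with h | h
      · exact h
      · have := hle i
        omega
    rw [Fin.sum_univ_three] at hsum
    have hl0 := hle 0
    have hl1 := hle 1
    have hl2 := hle 2
    have hne : ∀ i, 0 < |a z i| := by
      intro i
      fin_cases i
      · show 0 < |a z 0|
        have := abs_nonneg (a z 0)
        omega
      · show 0 < |a z 1|
        have := abs_nonneg (a z 1)
        omega
      · show 0 < |a z 2|
        have := abs_nonneg (a z 2)
        omega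
    set s : Fin 3 → ℤ := fun i => Int.sign (a z i) * Int.sign D with hsdef
    set z2 : Fin 3 → ℤ := (2 : ℤ) • z - s ᵥ* V with hz2
    have haz2 : ∀ i, |a z2 i| = |D| - 2 * |a z i| := by
      intro i
      have h1 : a z2 i = 2 * a z i - D * s i := by
        rw [hz2, ha_sub, ha_smul, ha_comb]
        rfl
      have h2 : D * s i = Int.sign (a z i) * |D| := by
        rw [hsdef, ← Int.sign_mul_self_eq_abs D]
        ring
      rw [h1, h2]
      have h3 := hle i
      have h4 := hne i
      rcases lt_or_gt_of_ne (abs_pos.1 h4) with h5 | h5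
      · rw [Int.sign_eq_neg_one_of_neg h5]
        rw [abs_of_neg h5] at h3 ⊢
        rw [abs_of_nonneg (by linarith)]
        ring
      · rw [Int.sign_eq_one_of_pos h5]
        rw [abs_of_pos h5] at h3 ⊢
        rw [abs_of_nonpos (by linarith)]
        ring
    have hz2K : toR z2 ∈ K := by
      apply hmemK
      rw [Fin.sum_univ_three, haz2, haz2, haz2]
      omega
    intro i
    rcases hdich z2 hz2K i with h | h
    · have h1 := haz2 i
      rw [h, abs_zero] at h1
      omega
    · rw [haz2 i] at h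
      have := hne i
      omega
  -- reduction
  have hreduce : ∀ z : Fin 3 → ℤ, ∃ m : Fin 3 → ℤ, ∀ i, 2 * |a (z - m ᵥ* V) i| ≤ |D| := by
    intro z
    choose m hm using fun i => exists_near (a z i) D hD0
    refine ⟨m, fun i => ?_⟩
    have h1 : a (z - m ᵥ* V) i = a z i - m i * D := by
      rw [ha_sub, ha_comb]
      simp only [Pi.sub_apply, Pi.smul_apply, smul_eq_mul]
      ring
    rw [h1]
    exact hm i
  -- every lattice point is a combination of the rows
  have hall : ∀ z : Fin 3 → ℤ, ∃ m : Fin 3 → ℤ, z = m ᵥ* V := by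
    by_contra hcon
    push_neg at hcon
    obtain ⟨z, hz⟩ := hcon
    obtain ⟨m, hm⟩ := hreduce z
    have hz0 : z - m ᵥ* V ≠ 0 := sub_ne_zero.2 (hz m)
    have hDeven : (2 : ℤ) ∣ D := by
      have h1 := hred _ hz0 hm 0
      rw [← dvd_abs]
      exact ⟨_, h1.symm⟩
    -- the functional `c`
    have hdet2 : (V.map (Int.castRingHom (ZMod 2))).det = 0 := by
      have h1 := RingHom.map_det (Int.castRingHom (ZMod 2)) V
      rw [RingHom.mapMatrix_apply] at h1
      rw [← h1, ← hDdef, eq_intCast]
      exact (ZMod.intCast_zmod_eq_zero_iff_dvd D 2).2 hDeven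
    obtain ⟨w, hw0, hw⟩ := Matrix.exists_mulVec_eq_zero_iff.2 hdet2
    set c : Fin 3 → ℤ := fun i => ((w i).val : ℤ) with hcdef
    have hcw : ∀ i, ((c i : ℤ) : ZMod 2) = w i := by
      intro i
      rw [hcdef]
      simp
    have hcodd : ∃ i, Odd (c i) := by
      obtain ⟨i, hi⟩ := Function.ne_iff.1 hw0
      refine ⟨i, ?_⟩
      rw [← Int.not_even_iff_odd]
      intro he
      apply hi
      rw [← hcw i]
      exact (ZMod.intCast_zmod_eq_zero_iff_dvd (c i) 2).2 he.two_dvd
    have hcV : ∀ i, Even (V i ⬝ᵥ c) := by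
      intro i
      have h1 := congrFun hw i
      simp only [Matrix.mulVec, dotProduct, Matrix.map_apply, Pi.zero_apply, eq_intCast] at h1
      rw [even_iff_two_dvd]
      apply (ZMod.intCast_zmod_eq_zero_iff_dvd (V i ⬝ᵥ c) 2).1
      simp only [dotProduct]
      push_cast
      rw [← h1]
      refine Finset.sum_congr rfl fun j _ => ?_
      rw [hcw]
    obtain ⟨x, hxK, hx⟩ := hodd c hcodd
    have hxne : ∀ m : Fin 3 → ℤ, x ≠ m ᵥ* V := by
      rintro m rfl
      rw [← Int.not_even_iff_odd] at hx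
      apply hx
      rw [dotProduct_comm, ← Matrix.dotProduct_mulVec]
      simp only [dotProduct]
      refine Finset.even_sum _ fun i _ => ?_
      exact (hcV i).mul_left _
    obtain ⟨k, hk⟩ := hreduce x
    set x0 := x - k ᵥ* V with hx0
    have hx00 : x0 ≠ 0 := sub_ne_zero.2 (hxne k)
    have hx0a := hred x0 hx00 hk
    have haxk : ∀ i, a x i = a x0 i + D * k i := by
      intro i
      have h1 : x = x0 + k ᵥ* V := by rw [hx0]; abel
      conv_lhs => rw [h1]
      rw [ha_add, ha_comb]
      rfl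
    -- `2 a (x0) = ε D`
    have hε : ∀ i, ∃ ε : ℤ, (ε = 1 ∨ ε = -1) ∧ 2 * a x0 i = ε * D := by
      intro i
      have h1 := hx0a i
      have h2 : |2 * a x0 i| = |D| := by rw [abs_mul, abs_two]; exact h1
      rcases abs_eq_abs.1 h2 with h3 | h3
      · exact ⟨1, Or.inl rfl, by rw [h3, one_mul]⟩
      · exact ⟨-1, Or.inr rfl, by rw [h3]; ring⟩
    choose ε hε1 hε2 using hε
    have hax0 : ∀ i, a x i ≠ 0 := by
      intro i h
      have h1 := haxk i
      rw [h] at h1
      have h2 : D * (ε i + 2 * k i) = 0 := by linear_combination (-2) * h1 - hε2 i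
      rcases mul_eq_zero.1 h2 with h3 | h3
      · exact hD0 h3
      · rcases hε1 i with h4 | h4 <;> omega
    have hax : ∀ i, |D| ≤ |a x i| := fun i => (hdich x hxK i).resolve_left (hax0 i)
    set s : Fin 3 → ℤ := fun i => Int.sign (a x i) * Int.sign D with hsdef
    have hs1 : ∀ i, s i = 1 ∨ s i = -1 := by
      intro i
      rcases lt_or_gt_of_ne (hax0 i) with h1 | h1 <;> rcases lt_or_gt_of_ne hD0 with h2 | h2
      · left; simp [hsdef, Int.sign_eq_neg_one_of_neg h1, Int.sign_eq_neg_one_of_neg h2]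
      · right; simp [hsdef, Int.sign_eq_neg_one_of_neg h1, Int.sign_eq_one_of_pos h2]
      · right; simp [hsdef, Int.sign_eq_one_of_pos h1, Int.sign_eq_neg_one_of_neg h2]
      · left; simp [hsdef, Int.sign_eq_one_of_pos h1, Int.sign_eq_one_of_pos h2]
    have hl : ∀ i, ∃ l : ℤ, s i - ε i = 2 * l := by
      intro i
      rcases hs1 i with h1 | h1 <;> rcases hε1 i with h2 | h2 <;> rw [h1, h2]
      · exact ⟨0, by norm_num⟩
      · exact ⟨1, by norm_num⟩
      · exact ⟨-1, by norm_num⟩
      · exact ⟨0, by norm_num⟩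
    choose l hl using hl
    set z' := x0 + l ᵥ* V with hz'
    have haz' : ∀ i, 2 * a z' i = s i * D := by
      intro i
      have h1 : a z' i = a x0 i + D * l i := by
        rw [hz', ha_add, ha_comb]
        rfl
      rw [h1]
      linear_combination hε2 i - D * hl i
    -- the maximum
    obtain ⟨i0, hi0⟩ := Finite.exists_max (fun i => |a x i|)
    set A := |a x i0| with hA
    have hApos : 0 < A := lt_of_lt_of_le hDpos (hax i0)
    have hAR : (0 : ℝ) < (A : ℝ) := by exact_mod_cast hApos
    have hz'K : toR z' ∈ K := by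
      let p : Option (Fin 3) → (Fin 3 → ℝ) := fun o => o.elim (toR x) (fun i => toR (V i))
      let t : Option (Fin 3) → ℝ := fun o => o.elim (|(D : ℝ)| / (2 * A))
        (fun i => (1 / 2) * (1 - |(a x i : ℝ)| / A) * s i)
      have hp : ∀ o, p o ∈ K := by
        rintro (_ | i)
        · exact hxK
        · exact hVK i
      have hsR : ∀ i, |(s i : ℝ)| = 1 := by
        intro i
        rcases hs1 i with h | h <;> simp [h]
      have haA : ∀ i, |(a x i : ℝ)| ≤ A := by
        intro i
        have := hi0 i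
        exact_mod_cast this
      have ht : ∑ o, |t o| ≤ 1 := by
        rw [Fintype.sum_option]
        have h1 : |t none| = |(D : ℝ)| / (2 * A) := by
          show |(|(D : ℝ)| / (2 * A))| = _
          rw [abs_of_nonneg]
          positivity
        have h2 : ∀ i : Fin 3, |t (some i)| = (1 / 2) * (1 - |(a x i : ℝ)| / A) := by
          intro i
          show |(1 / 2) * (1 - |(a x i : ℝ)| / A) * s i| = _
          rw [abs_mul, hsR, mul_one, abs_of_nonneg]
          have h3 : |(a x i : ℝ)| / A ≤ 1 := (div_le_one hAR).2 (haA i)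
          linarith
        rw [h1]
        simp only [h2]
        rw [Fin.sum_univ_three]
        have h4 : ∀ i, |(D : ℝ)| ≤ |(a x i : ℝ)| := by
          intro i
          have := hax i
          exact_mod_cast this
        have h5 : |(D : ℝ)| + A ≤ |(a x 0 : ℝ)| + |(a x 1 : ℝ)| + |(a x 2 : ℝ)| := by
          have hA' : (A : ℝ) = |(a x i0 : ℝ)| := by rw [hA]; push_cast; rfl
          have g0 := h4 0
          have g1 := h4 1
          have g2 := h4 2
          rw [hA']
          have hnn := abs_nonneg (D : ℝ)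
          fin_cases i0 <;> simp only [Fin.zero_eta, Fin.mk_one, Fin.reduceFinMk] <;> linarith
        have h6 : |(D : ℝ)| / (2 * A) + (1 / 2 * (1 - |(a x 0 : ℝ)| / A) +
            1 / 2 * (1 - |(a x 1 : ℝ)| / A) + 1 / 2 * (1 - |(a x 2 : ℝ)| / A)) =
            (|(D : ℝ)| + 3 * A - (|(a x 0 : ℝ)| + |(a x 1 : ℝ)| + |(a x 2 : ℝ)|)) / (2 * A) := by
          field_simp
          ring
        rw [h6, div_le_one (by positivity)]
        linarith
      have hsum : toR z' = ∑ o, t o • p o := by
        have h1 : (D : ℝ) • toR z' = (D : ℝ) • ∑ o, t o • p o := by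
          rw [hreal, Fintype.sum_option]
          show _ = (D : ℝ) • ((|(D : ℝ)| / (2 * A)) • toR x +
            ∑ i, ((1 / 2) * (1 - |(a x i : ℝ)| / A) * s i) • toR (V i))
          rw [smul_add, smul_comm, hreal x, Finset.smul_sum, Finset.smul_sum,
            ← Finset.sum_add_distrib]
          refine Finset.sum_congr rfl fun i _ => ?_
          rw [smul_smul, smul_smul, ← add_smul]
          congr 1
          have h2 : (2 : ℝ) * (a z' i : ℝ) = s i * D := by
            have := haz' i
            exact_mod_cast this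
          have h3 : |(D : ℝ)| * (a x i : ℝ) = D * (|(a x i : ℝ)| * s i) := by
            have h4 : |D| * a x i = D * (|a x i| * s i) := by
              rw [hsdef]
              have e1 := Int.sign_mul_self_eq_abs D
              have e2 : |a x i| * Int.sign (a x i) = a x i := by
                rw [mul_comm]
                exact Int.sign_mul_abs _
              simp only
              rw [← e1]
              linear_combination (-(D.sign * D)) * e2
            have h5 : ((|D| * a x i : ℤ) : ℝ) = ((D * (|a x i| * s i) : ℤ) : ℝ) := by rw [h4]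
            push_cast at h5
            exact h5
          field_simp
          linear_combination (A : ℝ) * h2 - h3
        exact smul_right_injective _ hDR h1
      rw [hsum]
      exact absconv hc hs h0K p hp t ht
    have h1 : |2 * a z' 0| = |D| := by
      rw [haz' 0]
      exact int_mul_pm (hs1 0) D
    rw [abs_mul, abs_two] at h1
    rcases hdich z' hz'K 0 with h | h
    · rw [h, abs_zero] at h1
      omega
    · omega
  -- the inverse matrix
  choose M hM using fun i : Fin 3 => hall (Pi.single i 1)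
  have hMV : (Matrix.of M) * V = 1 := by
    ext i j
    have h1 := congrFun (hM i) j
    rw [Matrix.one_apply]
    have h2 : ((Matrix.of M) * V) i j = (M i ᵥ* V) j := rfl
    rw [h2, ← h1, Pi.single_apply]
    simp only [eq_comm]
  refine ⟨V, ?_, hVK⟩
  have h1 := congrArg Matrix.det hMV
  rw [Matrix.det_mul, Matrix.det_one] at h1
  exact IsUnit.of_mul_eq_one _ (by rw [mul_comm]; exact h1)

end Helper15.NL
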