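import Pool.Agent.Helper15.NL.Defs

/-!
NL-9a. Three lattice points of `K` with odd determinant.

Proof. Modulo two the lattice points of `K` span `𝔽₂³`: otherwise they lie in the kernel of a nonzero
functional `c`, which lifts to an integer functional with an odd entry, against `OddPts`. A spanning
set contains a basis. (Or by hand: choose `v₁` with `v₁ 0` odd [`c = (1,0,0)`], then `c₂` orthogonal
to `v₁` modulo two and `v₂` with `c₂ ⬝ v₂` odd, then `c₃ = v₁ × v₂` (odd entry because `v₁, v₂` are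
independent modulo two) and `v₃` with `c₃ ⬝ v₃ = det` odd.)
-/

namespace Helper15.NL

open Matrix Set Helper31.Ewald

theorem exists_odd_det {K : Set (Fin 3 → ℝ)} (hodd : OddPts K) :
    ∃ v : Matrix (Fin 3) (Fin 3) ℤ, Odd v.det ∧ ∀ i, toR (v i) ∈ K := by
  obtain ⟨x, hxK, hx⟩ := hodd ![1, 0, 0] ⟨0, by simp⟩
  have hx0 : Odd (x 0) := by
    simpa [dotProduct, Fin.sum_univ_three] using hx
  obtain ⟨y, hyK, hy⟩ := hodd ![-x 1, x 0, 0] ⟨1, by simpa using hx0⟩
  have hy0 : Odd (x 0 * y 1 - x 1 * y 0) := by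
    have : ![-x 1, x 0, 0] ⬝ᵥ y = x 0 * y 1 - x 1 * y 0 := by
      simp [dotProduct, Fin.sum_univ_three]
      ring
    rwa [this] at hy
  obtain ⟨z, hzK, hz⟩ := hodd ![x 1 * y 2 - x 2 * y 1, x 2 * y 0 - x 0 * y 2,
    x 0 * y 1 - x 1 * y 0] ⟨2, by simpa using hy0⟩
  refine ⟨Matrix.of ![x, y, z], ?_, ?_⟩
  · have : (Matrix.of ![x, y, z]).det = ![x 1 * y 2 - x 2 * y 1, x 2 * y 0 - x 0 * y 2,
        x 0 * y 1 - x 1 * y 0] ⬝ᵥ z := by
      rw [Matrix.det_fin_three]
      simp [dotProduct, Fin.sum_univ_three]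
      ring
    rw [this]
    exact hz
  · intro i
    fin_cases i
    · exact hxK
    · exact hyK
    · exact hzK

end Helper15.NL
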