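import Pool.Agent.Helper15.NL.SliceW

/-!
NL-16. From the planar data of a lattice-free slice to the algebraic statement on three thetas and
three mus (type 3 triangles).
-/

namespace Helper15.NL

open Matrix Set Helper31.Ewald
open scoped Nat

/-- the constraints on the coordinates of a point of the slice -/
def C3 (x y z m1 m2 m3 s1 s2 s3 : ℝ) : Prop :=
  0 < x * s2 + s3 ∧ x * s2 + s3 < 2 * m1 ∧ 0 < y * s3 + s1 ∧ y * s3 + s1 < 2 * m2 ∧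
    0 < z * s1 + s2 ∧ z * s1 + s2 < 2 * m3

/-- the algebraic statement -/
def TAlg : Prop :=
  ∀ x y z m1 m2 m3 : ℝ, 0 < x → x ≤ 1 → 0 < y → y ≤ 1 → 0 < z → z ≤ 1 → 0 < m1 → 0 < m2 → 0 < m3 →
    (∃ s1 s2 s3 t1 t2 t3 : ℝ, s1 + s2 + s3 = 1 ∧ t1 + t2 + t3 = 1 ∧
      C3 x y z m1 m2 m3 s1 s2 s3 ∧ C3 x y z m1 m2 m3 t1 t2 t3 ∧ 2 ≤ s1 - t1) →
    (∃ s1 s2 s3 t1 t2 t3 : ℝ, s1 + s2 + s3 = 1 ∧ t1 + t2 + t3 = 1 ∧
      C3 x y z m1 m2 m3 s1 s2 s3 ∧ C3 x y z m1 m2 m3 t1 t2 t3 ∧ 2 ≤ s2 - t2) →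
    (∃ s1 s2 s3 t1 t2 t3 : ℝ, s1 + s2 + s3 = 1 ∧ t1 + t2 + t3 = 1 ∧
      C3 x y z m1 m2 m3 s1 s2 s3 ∧ C3 x y z m1 m2 m3 t1 t2 t3 ∧ 2 ≤ s3 - t3) →
    (∃ p1 p2 p3 : ℝ, p1 + p2 + p3 = 2 ∧ m1 < x * p2 + p3 ∧ m2 < y * p3 + p1 ∧ m3 < z * p1 + p2) →
    4 / 3 * |(!![1, 1 - x / m1, 1 - 1 / m1; 1 - 1 / m2, 1, 1 - y / m2;
      1 - z / m3, 1 - 1 / m3, 1] : Matrix (Fin 3) (Fin 3) ℝ).det| < 1 → False

variable {K : Set (Fin 3 → ℝ)} {W : (Fin 3 → ℝ) → ℝ}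

/-- expansion in the basis `x` with dual basis `E` -/
private theorem expand {x E : Fin 3 → Fin 3 → ℤ}
    (hE : ∀ i j, E i ⬝ᵥ x j = if i = j then 1 else 0) (s : Fin 3 → ℝ) :
    s = ∑ j, (toR (E j) ⬝ᵥ s) • toR (x j) := by
  have h1 : (Matrix.of fun i => toR (E i) : Matrix (Fin 3) (Fin 3) ℝ) *
      (Matrix.of fun i => toR (x i) : Matrix (Fin 3) (Fin 3) ℝ)ᵀ = 1 := by
    ext i j
    rw [Matrix.mul_apply, Matrix.one_apply]
    have h2 := toR_dot (E i) (x j)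
    rw [hE i j] at h2
    simp only [Matrix.of_apply, Matrix.transpose_apply]
    unfold dotProduct at h2
    rw [h2]
    split_ifs <;> simp
  have h3 := mul_eq_one_comm.1 h1
  have h4 : (((Matrix.of fun i => toR (x i) : Matrix (Fin 3) (Fin 3) ℝ)ᵀ *
      (Matrix.of fun i => toR (E i) : Matrix (Fin 3) (Fin 3) ℝ)) *ᵥ s) = s := by
    rw [h3, Matrix.one_mulVec]
  rw [← Matrix.mulVec_mulVec] at h4
  funext k
  have h5 := congrFun h4 k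
  rw [← h5]
  simp only [Matrix.mulVec, dotProduct, Matrix.transpose_apply, Matrix.of_apply,
    Finset.sum_apply, Pi.smul_apply, smul_eq_mul]
  exact Finset.sum_congr rfl fun j _ => mul_comm _ _

/-- value of an integer functional -/
private theorem dot_expand {x E : Fin 3 → Fin 3 → ℤ}
    (hE : ∀ i j, E i ⬝ᵥ x j = if i = j then 1 else 0) (p : Fin 3 → ℤ) (s : Fin 3 → ℝ) :
    toR p ⬝ᵥ s = (toR (E 0) ⬝ᵥ s) * ((p ⬝ᵥ x 0 : ℤ) : ℝ) + (toR (E 1) ⬝ᵥ s) * ((p ⬝ᵥ x 1 : ℤ) : ℝ)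
      + (toR (E 2) ⬝ᵥ s) * ((p ⬝ᵥ x 2 : ℤ) : ℝ) := by
  conv_lhs => rw [expand hE s]
  rw [dotProduct_sum, Fin.sum_univ_three]
  simp only [dotProduct_smul, smul_eq_mul, toR_dot]

/-- height -/
private theorem height_expand {x E : Fin 3 → Fin 3 → ℤ} (hx : ∀ j, x j 2 = 1)
    (hE : ∀ i j, E i ⬝ᵥ x j = if i = j then 1 else 0) (s : Fin 3 → ℝ) :
    s 2 = toR (E 0) ⬝ᵥ s + toR (E 1) ⬝ᵥ s + toR (E 2) ⬝ᵥ s := by
  conv_lhs => rw [expand hE s]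
  rw [Finset.sum_apply, Fin.sum_univ_three]
  simp [toR, hx]

theorem no_data (hT : TAlg) (hK : SBody K) (hW : Supp K W)
    (hz : ∀ z : Fin 3 → ℤ, z ≠ 0 → 2 ≤ W (toR z))
    (hwid : ∀ v : Fin 2 → ℤ, v ≠ 0 →
      ∃ x y : Fin 2 → ℝ, ![x 0, x 1, 1] ∈ K ∧ ![y 0, y 1, 1] ∈ K ∧ 2 ≤ toR v ⬝ᵥ (x - y))
    (x E P : Fin 3 → Fin 3 → ℤ) (Q : Fin 3 → ℤ)
    (hx : ∀ j, x j 2 = 1)
    (hE : ∀ i j, E i ⬝ᵥ x j = if i = j then 1 else 0)
    (hP : ∀ i, W (toR (P i)) < Q i) (hPii : ∀ i, P i ⬝ᵥ x i = Q i)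
    (hPij : ∀ i j, i ≠ j → P i ⬝ᵥ x j < Q i)
    (pin0 : P 0 ⬝ᵥ x 2 ≤ P 0 ⬝ᵥ x 1) (pin1 : P 1 ⬝ᵥ x 0 ≤ P 1 ⬝ᵥ x 2)
    (pin2 : P 2 ⬝ᵥ x 1 ≤ P 2 ⬝ᵥ x 0) : False := by
  have hN := hW.normD hK
  have hQ : ∀ i, (0 : ℝ) < Q i := fun i => lt_of_le_of_lt (hN.nonneg _) (hP i)
  -- real data
  obtain ⟨p, hp⟩ : ∃ p : Fin 3 → Fin 3 → ℝ, ∀ i j, p i j = ((P i ⬝ᵥ x j : ℤ) : ℝ) :=
    ⟨fun i j => ((P i ⬝ᵥ x j : ℤ) : ℝ), fun _ _ => rfl⟩
  have pii : ∀ i, p i i = Q i := fun i => by rw [hp, hPii]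
  have pij : ∀ i j, i ≠ j → p i j < Q i := fun i j h => by
    rw [hp]; exact_mod_cast hPij i j h
  have q0 : p 0 2 ≤ p 0 1 := by rw [hp, hp]; exact_mod_cast pin0
  have q1 : p 1 0 ≤ p 1 2 := by rw [hp, hp]; exact_mod_cast pin1
  have q2 : p 2 1 ≤ p 2 0 := by rw [hp, hp]; exact_mod_cast pin2
  have p01 := pij 0 1 (by decide)
  have p02 := pij 0 2 (by decide)
  have p10 := pij 1 0 (by decide)
  have p12 := pij 1 2 (by decide)
  have p20 := pij 2 0 (by decide)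
  have p21 := pij 2 1 (by decide)
  have hQ0 := hQ 0
  have hQ1 := hQ 1
  have hQ2 := hQ 2
  obtain ⟨c1, hc1⟩ : ∃ c : ℝ, c = Q 0 - p 0 2 := ⟨_, rfl⟩
  obtain ⟨c2, hc2⟩ : ∃ c : ℝ, c = Q 1 - p 1 0 := ⟨_, rfl⟩
  obtain ⟨c3, hc3⟩ : ∃ c : ℝ, c = Q 2 - p 2 1 := ⟨_, rfl⟩
  have c1p : 0 < c1 := by rw [hc1]; linarith
  have c2p : 0 < c2 := by rw [hc2]; linarith
  have c3p : 0 < c3 := by rw [hc3]; linarith
  obtain ⟨X, hX⟩ : ∃ X : ℝ, X * c1 = Q 0 - p 0 1 := ⟨(Q 0 - p 0 1) / c1, by field_simp⟩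
  obtain ⟨Y, hY⟩ : ∃ Y : ℝ, Y * c2 = Q 1 - p 1 2 := ⟨(Q 1 - p 1 2) / c2, by field_simp⟩
  obtain ⟨Z, hZ⟩ : ∃ Z : ℝ, Z * c3 = Q 2 - p 2 0 := ⟨(Q 2 - p 2 0) / c3, by field_simp⟩
  obtain ⟨m1, hm1⟩ : ∃ m : ℝ, m * c1 = Q 0 := ⟨Q 0 / c1, by field_simp⟩
  obtain ⟨m2, hm2⟩ : ∃ m : ℝ, m * c2 = Q 1 := ⟨Q 1 / c2, by field_simp⟩
  obtain ⟨m3, hm3⟩ : ∃ m : ℝ, m * c3 = Q 2 := ⟨Q 2 / c3, by field_simp⟩
  have pos_of : ∀ a c : ℝ, 0 < c → 0 < a * c → 0 < a := fun a c hc h =>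
    (mul_pos_iff_of_pos_right hc).1 h
  have X0 : 0 < X := pos_of X c1 c1p (by rw [hX]; linarith)
  have Y0 : 0 < Y := pos_of Y c2 c2p (by rw [hY]; linarith)
  have Z0 : 0 < Z := pos_of Z c3 c3p (by rw [hZ]; linarith)
  have m10 : 0 < m1 := pos_of m1 c1 c1p (by rw [hm1]; exact hQ0)
  have m20 : 0 < m2 := pos_of m2 c2 c2p (by rw [hm2]; exact hQ1)
  have m30 : 0 < m3 := pos_of m3 c3 c3p (by rw [hm3]; exact hQ2)
  have le_of : ∀ a c : ℝ, 0 < c → a * c ≤ c → a ≤ 1 := fun a c hc h => by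
    by_contra hcon
    push Not at hcon
    nlinarith
  have X1 : X ≤ 1 := le_of X c1 c1p (by rw [hX, hc1]; linarith)
  have Y1 : Y ≤ 1 := le_of Y c2 c2p (by rw [hY, hc2]; linarith)
  have Z1 : Z ≤ 1 := le_of Z c3 c3p (by rw [hZ, hc3]; linarith)
  -- the bounds for points of `K`
  have hdot : ∀ i, ∀ s : Fin 3 → ℝ, toR (P i) ⬝ᵥ s =
      (toR (E 0) ⬝ᵥ s) * p i 0 + (toR (E 1) ⬝ᵥ s) * p i 1 + (toR (E 2) ⬝ᵥ s) * p i 2 := by
    intro i s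
    rw [hp, hp, hp]
    exact dot_expand hE (P i) s
  have hb : ∀ i, ∀ s ∈ K, -(Q i : ℝ) < toR (P i) ⬝ᵥ s ∧ toR (P i) ⬝ᵥ s < Q i := by
    intro i s hs
    have h1 := hW.abs_dot_le hK (toR (P i)) hs
    exact abs_lt.1 (lt_of_le_of_lt h1 (hP i))
  have key : ∀ s ∈ K,
      (s 2 - 1) * m1 < X * (toR (E 1) ⬝ᵥ s) + toR (E 2) ⬝ᵥ s ∧
      X * (toR (E 1) ⬝ᵥ s) + toR (E 2) ⬝ᵥ s < (s 2 + 1) * m1 ∧
      (s 2 - 1) * m2 < Y * (toR (E 2) ⬝ᵥ s) + toR (E 0) ⬝ᵥ s ∧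
      Y * (toR (E 2) ⬝ᵥ s) + toR (E 0) ⬝ᵥ s < (s 2 + 1) * m2 ∧
      (s 2 - 1) * m3 < Z * (toR (E 0) ⬝ᵥ s) + toR (E 1) ⬝ᵥ s ∧
      Z * (toR (E 0) ⬝ᵥ s) + toR (E 1) ⬝ᵥ s < (s 2 + 1) * m3 := by
    intro s hs
    have hh := height_expand hx hE s
    have b0 := hb 0 s hs
    have b1 := hb 1 s hs
    have b2 := hb 2 s hs
    rw [hdot 0 s, pii 0] at b0
    rw [hdot 1 s, pii 1] at b1
    rw [hdot 2 s, pii 2] at b2
    obtain ⟨a0, ha0⟩ : ∃ a : ℝ, a = toR (E 0) ⬝ᵥ s := ⟨_, rfl⟩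
    obtain ⟨a1, ha1⟩ : ∃ a : ℝ, a = toR (E 1) ⬝ᵥ s := ⟨_, rfl⟩
    obtain ⟨a2, ha2⟩ : ∃ a : ℝ, a = toR (E 2) ⬝ᵥ s := ⟨_, rfl⟩
    rw [← ha0, ← ha1, ← ha2] at hh b0 b1 b2 ⊢
    have lt_of : ∀ a b c : ℝ, 0 < c → a * c < b * c → a < b := fun a b c hc h =>
      lt_of_mul_lt_mul_right h hc.le
    have e1 : (X * a1 + a2) * c1 = (Q 0 : ℝ) * s 2 - (a0 * Q 0 + a1 * p 0 1 + a2 * p 0 2) := by
      rw [hh]
      linear_combination a1 * hX + a2 * hc1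
    have e2 : (Y * a2 + a0) * c2 = (Q 1 : ℝ) * s 2 - (a0 * p 1 0 + a1 * Q 1 + a2 * p 1 2) := by
      rw [hh]
      linear_combination a2 * hY + a0 * hc2
    have e3 : (Z * a0 + a1) * c3 = (Q 2 : ℝ) * s 2 - (a0 * p 2 0 + a1 * p 2 1 + a2 * Q 2) := by
      rw [hh]
      linear_combination a0 * hZ + a1 * hc3
    refine ⟨lt_of _ _ c1 c1p ?_, lt_of _ _ c1 c1p ?_, lt_of _ _ c2 c2p ?_, lt_of _ _ c2 c2p ?_,
      lt_of _ _ c3 c3p ?_, lt_of _ _ c3 c3p ?_⟩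
    · rw [e1, mul_assoc, hm1]; linarith [b0.2]
    · rw [e1, mul_assoc, hm1]; linarith [b0.1]
    · rw [e2, mul_assoc, hm2]; linarith [b1.2]
    · rw [e2, mul_assoc, hm2]; linarith [b1.1]
    · rw [e3, mul_assoc, hm3]; linarith [b2.2]
    · rw [e3, mul_assoc, hm3]; linarith [b2.1]
  have hC : ∀ s ∈ K, s 2 = 1 →
      C3 X Y Z m1 m2 m3 (toR (E 0) ⬝ᵥ s) (toR (E 1) ⬝ᵥ s) (toR (E 2) ⬝ᵥ s) := by
    intro s hs h1
    have h2 := key s hs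
    rw [h1] at h2
    obtain ⟨k1, k2, k3, k4, k5, k6⟩ := h2
    refine ⟨?_, ?_, ?_, ?_, ?_, ?_⟩ <;> linarith
  -- the widths
  have hwi : ∀ i, ∃ s ∈ K, ∃ t ∈ K, s 2 = 1 ∧ t 2 = 1 ∧ 2 ≤ toR (E i) ⬝ᵥ s - toR (E i) ⬝ᵥ t := by
    intro i
    have hv : (![E i 0, E i 1] : Fin 2 → ℤ) ≠ 0 := by
      intro h
      have h0 : E i 0 = 0 := congrFun h 0
      have h1 : E i 1 = 0 := congrFun h 1
      have h2 : ∀ j, E i ⬝ᵥ x j = E i 2 := by
        intro j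
        simp [dotProduct, Fin.sum_univ_three, h0, h1, hx]
      obtain ⟨j, hj⟩ : ∃ j : Fin 3, i ≠ j := by
        fin_cases i
        · exact ⟨1, by decide⟩
        · exact ⟨0, by decide⟩
        · exact ⟨0, by decide⟩
      have h3 := hE i i
      have h4 := hE i j
      rw [h2, if_pos rfl] at h3
      rw [h2, if_neg hj] at h4
      omega
    obtain ⟨a, b, ha, hb', hab⟩ := hwid _ hv
    refine ⟨_, ha, _, hb', rfl, rfl, ?_⟩
    simp only [dotProduct, Fin.sum_univ_two, Fin.sum_univ_three, toR, Pi.sub_apply,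
      Matrix.cons_val_zero, Matrix.cons_val_one] at hab ⊢
    have h5 : (![a 0, a 1, (1 : ℝ)] : Fin 3 → ℝ) 2 = 1 := rfl
    have h6 : (![b 0, b 1, (1 : ℝ)] : Fin 3 → ℝ) 2 = 1 := rfl
    rw [h5, h6]
    linarith
  -- the top point
  have hY2 : ∃ p1 p2 p3 : ℝ, p1 + p2 + p3 = 2 ∧ m1 < X * p2 + p3 ∧ m2 < Y * p3 + p1 ∧
      m3 < Z * p1 + p2 := by
    obtain ⟨t, ht, hte⟩ := hW.att (toR ![0, 0, 1])
    have h1 : 2 ≤ W (toR ![0, 0, 1]) := hz _ (by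
      intro h
      have := congrFun h 2
      simp at this)
    have h2 : toR ![0, 0, 1] ⬝ᵥ t = t 2 := by
      simp [dotProduct, Fin.sum_univ_three, toR]
    rw [← hte, h2] at h1
    have h3 : (0 : ℝ) < t 2 := by linarith
    have h4 : (2 / t 2) • t ∈ K := by
      have h5 := hK.convex (mem_of_mem_nhds hK.nhds0) ht
        (by rw [sub_nonneg, div_le_one h3]; exact h1 : 0 ≤ 1 - 2 / t 2)
        (by positivity : 0 ≤ 2 / t 2) (by ring)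
      simpa using h5
    have h5 : ((2 / t 2) • t) 2 = 2 := by
      rw [Pi.smul_apply, smul_eq_mul]
      field_simp
    have h6 := key _ h4
    have h7 := height_expand hx hE ((2 / t 2) • t)
    rw [h5] at h6 h7
    obtain ⟨k1, _, k3, _, k5, _⟩ := h6
    exact ⟨_, _, _, h7.symm, by linarith, by linarith, by linarith⟩
  -- Minkowski
  have hdet : 4 / 3 * |(!![1, 1 - X / m1, 1 - 1 / m1; 1 - 1 / m2, 1, 1 - Y / m2;
      1 - Z / m3, 1 - 1 / m3, 1] : Matrix (Fin 3) (Fin 3) ℝ).det| < 1 := by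
    by_contra hcon
    push Not at hcon
    obtain ⟨G, hG⟩ : ∃ G : Matrix (Fin 3) (Fin 3) ℝ, G = Matrix.of fun i j => (P i j : ℝ) / Q i :=
      ⟨_, rfl⟩
    have hGX : G * (Matrix.of fun i => toR (x i) : Matrix (Fin 3) (Fin 3) ℝ)ᵀ =
        !![1, 1 - X / m1, 1 - 1 / m1; 1 - 1 / m2, 1, 1 - Y / m2; 1 - Z / m3, 1 - 1 / m3, 1] := by
      have h1 : ∀ i j, (G * (Matrix.of fun i => toR (x i) : Matrix (Fin 3) (Fin 3) ℝ)ᵀ) i j =
          p i j / Q i := by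
        intro i j
        rw [Matrix.mul_apply, hp, hG]
        simp only [Matrix.of_apply, Matrix.transpose_apply, toR, dotProduct, Int.cast_sum,
          Int.cast_mul, Finset.sum_div]
        exact Finset.sum_congr rfl fun k _ => by ring
      have d1 : X / m1 = (Q 0 - p 0 1) / Q 0 := by
        rw [← hX, ← hm1]; field_simp
      have d2 : 1 / m1 = (Q 0 - p 0 2) / Q 0 := by
        rw [← hc1, ← hm1]; field_simp
      have d3 : Y / m2 = (Q 1 - p 1 2) / Q 1 := by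
        rw [← hY, ← hm2]; field_simp
      have d4 : 1 / m2 = (Q 1 - p 1 0) / Q 1 := by
        rw [← hc2, ← hm2]; field_simp
      have d5 : Z / m3 = (Q 2 - p 2 0) / Q 2 := by
        rw [← hZ, ← hm3]; field_simp
      have d6 : 1 / m3 = (Q 2 - p 2 1) / Q 2 := by
        rw [← hc3, ← hm3]; field_simp
      rw [d1, d2, d3, d4, d5, d6]
      ext i j
      rw [h1]
      have n0 := hQ0.ne'
      have n1 := hQ1.ne'
      have n2 := hQ2.ne'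
      have r0 : (Q 0 : ℝ) / Q 0 = 1 := div_self n0
      have r1 : (Q 1 : ℝ) / Q 1 = 1 := div_self n1
      have r2 : (Q 2 : ℝ) / Q 2 = 1 := div_self n2
      have g : ∀ a b : ℝ, b ≠ 0 → a / b = 1 - (b - a) / b := by
        intro a b hb
        rw [sub_div, div_self hb]
        ring
      fin_cases i <;> fin_cases j
      · simpa [pii] using r0
      · simpa using g (p 0 1) _ n0
      · simpa using g (p 0 2) _ n0
      · simpa using g (p 1 0) _ n1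
      · simpa [pii] using r1
      · simpa using g (p 1 2) _ n1
      · simpa using g (p 2 0) _ n2
      · simpa using g (p 2 1) _ n2
      · simpa [pii] using r2
    have hXdet : |(Matrix.of fun i => toR (x i) : Matrix (Fin 3) (Fin 3) ℝ).det| = 1 := by
      have h1 : (Matrix.of E : Matrix (Fin 3) (Fin 3) ℤ) *
          (Matrix.of x : Matrix (Fin 3) (Fin 3) ℤ)ᵀ = 1 := by
        ext i j
        rw [Matrix.mul_apply, Matrix.one_apply]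
        have h2 := hE i j
        unfold dotProduct at h2
        exact h2
      have h2 := congrArg Matrix.det h1
      rw [Matrix.det_mul, Matrix.det_transpose, Matrix.det_one] at h2
      have h3 : IsUnit (Matrix.of x : Matrix (Fin 3) (Fin 3) ℤ).det :=
        IsUnit.of_mul_eq_one _ (by rw [mul_comm]; exact h2)
      have h4 : (Matrix.of fun i => toR (x i) : Matrix (Fin 3) (Fin 3) ℝ).det =
          (((Matrix.of x : Matrix (Fin 3) (Fin 3) ℤ).det : ℤ) : ℝ) := by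
        rw [Int.cast_det]
        rfl
      rw [h4]
      rcases Int.isUnit_iff.1 h3 with h5 | h5 <;> rw [h5] <;> simp
    have hGdet : 3 / 4 ≤ |G.det| := by
      have h1 := congrArg Matrix.det hGX
      rw [Matrix.det_mul, Matrix.det_transpose] at h1
      rw [← h1, abs_mul, hXdet, mul_one] at hcon
      linarith
    have hG0 : G.det ≠ 0 := by
      intro h
      rw [h] at hGdet
      norm_num at hGdet
    have hGt : IsUnit (Gᵀ).det := by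
      rw [Matrix.det_transpose]
      exact isUnit_iff_ne_zero.2 hG0
    have hBdet : ((Gᵀ)⁻¹).det = (G.det)⁻¹ := by
      rw [Matrix.det_nonsing_inv, Matrix.det_transpose, Ring.inverse_eq_inv']
    obtain ⟨y, hy0, hy⟩ := mink_le ((Gᵀ)⁻¹) (by rw [hBdet]; exact inv_ne_zero hG0)
      (s := 2) (by norm_num) (by
        rw [hBdet, abs_inv]
        have h1 : |G.det|⁻¹ ≤ (3 / 4 : ℝ)⁻¹ := inv_anti₀ (by norm_num) hGdet
        have h2 : ((3 ! : ℕ) : ℝ) = 6 := by norm_num [Nat.factorial]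
        rw [h2]
        calc |G.det|⁻¹ * 6 ≤ (3 / 4 : ℝ)⁻¹ * 6 := mul_le_mul_of_nonneg_right h1 (by norm_num)
          _ = 2 ^ 3 := by norm_num)
    obtain ⟨α, hα⟩ : ∃ α : Fin 3 → ℝ, α = (Gᵀ)⁻¹ *ᵥ toR y := ⟨_, rfl⟩
    rw [← hα] at hy
    have hGα : Gᵀ *ᵥ α = toR y := by
      rw [hα, Matrix.mulVec_mulVec, Matrix.mul_nonsing_inv _ hGt, Matrix.one_mulVec]
    have hyG : toR y = ∑ i, α i • G i := by
      rw [← hGα]
      funext k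
      simp only [Matrix.mulVec, dotProduct, Matrix.transpose_apply, Finset.sum_apply,
        Pi.smul_apply, smul_eq_mul]
      exact Finset.sum_congr rfl fun i _ => mul_comm _ _
    have hWG : ∀ i, W (G i) < 1 := by
      intro i
      have h1 : G i = (Q i : ℝ)⁻¹ • toR (P i) := by
        rw [hG]
        funext j
        simp only [Matrix.of_apply, Pi.smul_apply, smul_eq_mul, toR]
        rw [div_eq_inv_mul]
      rw [h1, hN.smul, abs_of_pos (inv_pos.2 (hQ i))]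
      calc (Q i : ℝ)⁻¹ * W (toR (P i)) < (Q i : ℝ)⁻¹ * Q i :=
            mul_lt_mul_of_pos_left (hP i) (inv_pos.2 (hQ i))
        _ = 1 := inv_mul_cancel₀ (hQ i).ne'
    have hWy : W (toR y) ≤ ∑ i, |α i| * W (G i) := by
      rw [hyG, Fin.sum_univ_three, Fin.sum_univ_three]
      have h1 := hN.add (α 0 • G 0 + α 1 • G 1) (α 2 • G 2)
      have h2 := hN.add (α 0 • G 0) (α 1 • G 1)
      rw [hN.smul, hN.smul] at h2
      rw [hN.smul] at h1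
      linarith
    have hαne : ∃ i, α i ≠ 0 := by
      by_contra hall
      push Not at hall
      have h1 : α = 0 := funext hall
      rw [h1, Matrix.mulVec_zero] at hGα
      apply hy0
      apply toR_injective
      rw [← hGα, toR_zero]
    obtain ⟨i, hi⟩ := hαne
    have h1 : ∑ i, |α i| * W (G i) < ∑ i, |α i| := by
      apply Finset.sum_lt_sum
      · intro j _
        calc |α j| * W (G j) ≤ |α j| * 1 :=
              mul_le_mul_of_nonneg_left (hWG j).le (abs_nonneg _)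
          _ = |α j| := mul_one _
      · refine ⟨i, Finset.mem_univ i, ?_⟩
        calc |α i| * W (G i) < |α i| * 1 :=
              mul_lt_mul_of_pos_left (hWG i) (abs_pos.2 hi)
          _ = |α i| := mul_one _
    have h2 := hz y hy0
    linarith
  -- conclusion
  obtain ⟨s0, hs0, t0, ht0, es0, et0, w0⟩ := hwi 0
  obtain ⟨s1, hs1, t1, ht1, es1, et1, w1⟩ := hwi 1
  obtain ⟨s2, hs2, t2, ht2, es2, et2, w2⟩ := hwi 2
  have hsum : ∀ s : Fin 3 → ℝ, s 2 = 1 →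
      toR (E 0) ⬝ᵥ s + toR (E 1) ⬝ᵥ s + toR (E 2) ⬝ᵥ s = 1 := fun s h => by
    rw [← height_expand hx hE s, h]
  exact hT X Y Z m1 m2 m3 X0 X1 Y0 Y1 Z0 Z1 m10 m20 m30
    ⟨_, _, _, _, _, _, hsum s0 es0, hsum t0 et0, hC s0 hs0 es0, hC t0 ht0 et0, w0⟩
    ⟨_, _, _, _, _, _, hsum s1 es1, hsum t1 et1, hC s1 hs1 es1, hC t1 ht1 et1, w1⟩
    ⟨_, _, _, _, _, _, hsum s2 es2, hsum t2 et2, hC s2 hs2 es2, hC t2 ht2 et2, w2⟩
    hY2 hdet

end Helper15.NL
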