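import Pool.Agent.Helper31.Ewald.Dilated

/-!
Nill's conjecture in dimension three, `0` deep: definitions shared by the modules of this folder.
All names of `Helper31.Ewald` (`toR`, `IsSmoothPolytope`, `MinVert`, `Body`, ...) are used.
-/

namespace Helper15.NL

open Matrix Set Helper31.Ewald

/-- `h` is (at least) a norm: subadditive, absolutely homogeneous, bounded below by a multiple of
the `ℓ¹` norm. -/
structure NormD {n : ℕ} (h : (Fin n → ℝ) → ℝ) : Prop where
  add : ∀ a b, h (a + b) ≤ h a + h b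
  smul : ∀ (c : ℝ) (a : Fin n → ℝ), h (c • a) = |c| * h a
  pos : ∃ r : ℝ, 0 < r ∧ ∀ a, r * ∑ i, |a i| ≤ h a

/-- `W` is the support function of `K`. -/
structure Supp {n : ℕ} (K : Set (Fin n → ℝ)) (W : (Fin n → ℝ) → ℝ) : Prop where
  le : ∀ y, ∀ x ∈ K, y ⬝ᵥ x ≤ W y
  att : ∀ y, ∃ x ∈ K, y ⬝ᵥ x = W y

/-- symmetric convex bodies -/
structure SBody {n : ℕ} (K : Set (Fin n → ℝ)) : Prop where
  compact : IsCompact K
  nhds0 : K ∈ nhds (0 : Fin n → ℝ)
  convex : Convex ℝ K
  symm : ∀ x ∈ K, -x ∈ K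

/-- every parity class is met: for every integer functional `c` which is not divisible by two there
is a lattice point of `K` on which `c` is odd -/
def OddPts {n : ℕ} (K : Set (Fin n → ℝ)) : Prop :=
  ∀ c : Fin n → ℤ, (∃ i, Odd (c i)) → ∃ x : Fin n → ℤ, toR x ∈ K ∧ Odd (c ⬝ᵥ x)

/-- The slice property with constant `ρ`: if the support function `W` of a symmetric convex body
`K ⊂ ℝ³` is at least `ρ` on all nonzero integer vectors and `e₃` is `W`-minimal in its class modulo
two, then `K` contains a lattice point of height one. -/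
def SliceProp (ρ : ℝ) : Prop :=
  ∀ (K : Set (Fin 3 → ℝ)) (W : (Fin 3 → ℝ) → ℝ), SBody K → Supp K W →
    (∀ z : Fin 3 → ℤ, z ≠ 0 → ρ ≤ W (toR z)) →
    (∀ z : Fin 3 → ℤ, W ![0, 0, 1] ≤ W (![0, 0, 1] + (2 : ℝ) • toR z)) →
    ∃ x : Fin 3 → ℤ, toR x ∈ K ∧ x 2 = 1

end Helper15.NL
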