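import Pool.Agent.Helper15.NL.Defs

/-!
NL-13. A convex integer sequence whose linear pieces of small slope are short, second version.

`g` convex, nonnegative; every piece `[a, b]` of constant slope `s`, `|s| ≤ 1`, has
`2 (b - a) ≤ g a` and `2 (b - a) ≤ g b`. Then `2 (b - a) ≤ g a + g b`.
Proof (`a = 0`, `b = k` for the notation): induction on `b - a` removes the ends with slopes `≥ 2` or
`≤ -2`. Otherwise all slopes on `[0, k)` are in `{-1, 0, 1}`; `L_s` = number of steps of slope `s`;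
`μ` = value at the bottom. `g 0 = μ + L_{-1}`, `g k = μ + L_1`, `μ ≥ 2 L_0, 2 L_1, 2 L_{-1}`;
`g 0 + g k - 2 k = (μ - 2 L_0) + (1/2) (μ - 2 L_1) + (1/2) (μ - 2 L_{-1})`.
(Compare `convex_seq` in `Helper31/Ewald/Deep.lean` for the way to cut the sequence.)
-/

namespace Helper15.NL

theorem seq2_mono (g : ℕ → ℤ) (hmono : ∀ i, g (i + 1) - g i ≤ g (i + 2) - g (i + 1)) {i j : ℕ}
    (hij : i ≤ j) : g (i + 1) - g i ≤ g (j + 1) - g j := by
  induction hij with
  | refl => exact le_refl _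
  | step h ih => exact ih.trans (hmono _)

theorem seq2_cut (g : ℕ → ℤ) (hmono : ∀ i, g (i + 1) - g i ≤ g (i + 2) - g (i + 1)) (c : ℤ)
    {a b : ℕ} (hab : a ≤ b) : ∃ p, a ≤ p ∧ p ≤ b ∧ (∀ i, a ≤ i → i < p → g (i + 1) - g i < c) ∧
      ∀ i, p ≤ i → i < b → c ≤ g (i + 1) - g i := by
  induction hab with
  | refl => exact ⟨a, le_refl _, le_refl _, fun i h1 h2 => absurd h2 (by omega),
      fun i h1 h2 => absurd h2 (by omega)⟩
  | @step b h ih =>
    obtain ⟨p, h1, h2, h3, h4⟩ := ih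
    by_cases hc : c ≤ g (b + 1) - g b
    · refine ⟨p, h1, by omega, h3, fun i hi1 hi2 => ?_⟩
      rcases Nat.lt_succ_iff_lt_or_eq.1 hi2 with hi3 | hi3
      · exact h4 i hi1 hi3
      · rw [hi3]; exact hc
    · refine ⟨b + 1, Nat.le_succ_of_le h, le_refl _, fun i hi1 hi2 => ?_,
        fun i hi1 hi2 => absurd hi2 (by omega)⟩
      have := seq2_mono g hmono (Nat.lt_succ_iff.1 hi2)
      exact lt_of_le_of_lt this (not_le.1 hc)

theorem seq2_lin (g : ℕ → ℤ) (s : ℤ) {a b : ℕ} (hab : a ≤ b)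
    (h : ∀ i, a ≤ i → i < b → g (i + 1) - g i = s) : g b = g a + s * ((b : ℤ) - a) := by
  induction hab with
  | refl => ring
  | @step b hb ih =>
    have h1 := ih (fun i h1 h2 => h i h1 (by omega))
    have h2 := h b hb (by omega)
    have h3 : g (b + 1) = g b + s := by linarith
    rw [Nat.succ_eq_add_one, h3, h1]
    push_cast
    ring

theorem seq_lemma2 (g : ℕ → ℤ) (hg : ∀ i, 0 ≤ g i)
    (hmono : ∀ i, g (i + 1) - g i ≤ g (i + 2) - g (i + 1))
    (hlin : ∀ a b (s : ℤ), a ≤ b → |s| ≤ 1 → (∀ i, a ≤ i → i < b → g (i + 1) - g i = s) →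
      2 * ((b : ℤ) - a) ≤ g a ∧ 2 * ((b : ℤ) - a) ≤ g b) (a b : ℕ) (hab : a ≤ b) :
    2 * ((b : ℤ) - a) ≤ g a + g b := by
  obtain ⟨n, hn⟩ : ∃ n, b - a = n := ⟨_, rfl⟩
  induction n generalizing a b with
  | zero =>
    have hab' : a = b := by omega
    subst hab'
    have := hg a
    have h2 : 2 * ((a : ℤ) - a) = 0 := by ring
    rw [h2]; linarith
  | succ n ih =>
    have hlt : a < b := by omega
    by_cases hl : g (a + 1) - g a ≤ -2
    · have h1 := ih (a + 1) b (by omega) (by omega)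
      push_cast at h1
      linarith
    by_cases hr : 2 ≤ g b - g (b - 1)
    · have h1 := ih a (b - 1) (by omega) (by omega)
      have h2 : ((b - 1 : ℕ) : ℤ) = (b : ℤ) - 1 := by push_cast [Nat.cast_sub (show 1 ≤ b by omega)]; ring
      rw [h2] at h1
      linarith
    have hl' : ∀ i, a ≤ i → -1 ≤ g (i + 1) - g i := fun i hi => by
      have := seq2_mono g hmono hi
      linarith [not_le.1 hl]
    have hr' : ∀ i, i < b → g (i + 1) - g i ≤ 1 := fun i hi => by
      have h1 := seq2_mono g hmono (show i ≤ b - 1 by omega)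
      rw [show b - 1 + 1 = b by omega] at h1
      have h2 := not_le.1 hr
      omega
    obtain ⟨p, p1, p2, p3, p4⟩ := seq2_cut g hmono 0 hab
    obtain ⟨q, q1, q2, q3, q4⟩ := seq2_cut g hmono 1 p2
    have e1 : ∀ i, a ≤ i → i < p → g (i + 1) - g i = -1 := fun i h1 h2 => by
      have := p3 i h1 h2
      have := hl' i h1
      omega
    have e2 : ∀ i, p ≤ i → i < q → g (i + 1) - g i = 0 := fun i h1 h2 => by
      have := q3 i h1 h2
      have := p4 i h1 (by omega)
      omega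
    have e3 : ∀ i, q ≤ i → i < b → g (i + 1) - g i = 1 := fun i h1 h2 => by
      have := q4 i h1 h2
      have := hr' i h2
      omega
    have f1 := seq2_lin g (-1) p1 e1
    have f2 := seq2_lin g 0 q1 e2
    have f3 := seq2_lin g 1 q2 e3
    obtain ⟨_, k1⟩ := hlin a p (-1) p1 (by norm_num) e1
    obtain ⟨k2, _⟩ := hlin p q 0 q1 (by norm_num) e2
    obtain ⟨k3, _⟩ := hlin q b 1 q2 (by norm_num) e3
    linarith

end Helper15.NL
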