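import Pool.Agent.Helper15.NL.Key3

/-!
NL-11. Width `2 ω` of `P ∩ -P` from the key inequality, for real `ω` (the proof of `width2` in
`Helper31/Ewald/Deep.lean` word for word, with `ω` real and `key2` replaced by the hypothesis).
-/

namespace Helper15.NL

open Matrix Set Helper31.Ewald

variable {n : ℕ} {P : Set (Fin n → ℝ)}

theorem width_of_key (hP : IsSmoothPolytope P) (h0 : (0 : Fin n → ℝ) ∈ interior P) {ω : ℝ}
    (hω : 0 < ω) {w : (Fin n → ℤ) → (Fin n → ℤ)} (hw : MinVert P w) {u : Fin n → ℤ}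
    (hkey : ∀ (k : ℕ) (p : Fin n → ℤ),
      ((p ⬝ᵥ w p + (p + (k : ℤ) • u) ⬝ᵥ w (p + (k : ℤ) • u) : ℤ) : ℝ) ≤ -(ω * k)) :
    ∃ x ∈ P, -x ∈ P ∧ toR u ⬝ᵥ x = ω := by
  by_contra hcon
  push Not at hcon
  have h0P : (0 : Fin n → ℝ) ∈ P := interior_subset h0
  have hωR : (0 : ℝ) < ω := hω
  -- the compact convex set of pairs
  let g : (Fin n → ℝ) × (Fin n → ℝ) → (Fin n → ℝ) × ℝ := fun z => (z.1 + z.2, toR u ⬝ᵥ z.1)
  have hg : IsLinearMap ℝ g :=
    { map_add := by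
        intro a b
        simp only [g, Prod.fst_add, Prod.snd_add, dotProduct_add, Prod.mk_add_mk, Prod.mk.injEq,
          and_true]
        abel
      map_smul := by
        intro c a
        simp [g, dotProduct_smul] }
  have hgc : Continuous g := by
    have h1 : Continuous fun z : (Fin n → ℝ) × (Fin n → ℝ) => toR u ⬝ᵥ z.1 :=
      (continuous_dot (toR u)).comp continuous_fst
    exact (continuous_fst.add continuous_snd).prodMk h1
  have hKc : IsCompact (g '' (P ×ˢ P)) := (hP.isCompact.prod hP.isCompact).image hgc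
  have hKconv : Convex ℝ (g '' (P ×ˢ P)) := (hP.convex.prod hP.convex).is_linear_image hg
  have hnot : ((0, ω) : (Fin n → ℝ) × ℝ) ∉ g '' (P ×ˢ P) := by
    rintro ⟨⟨x, y⟩, ⟨hx, hy⟩, hxy⟩
    simp only [g, Prod.mk.injEq] at hxy
    obtain ⟨h1, h2⟩ := hxy
    have h3 : y = -x := (neg_eq_of_add_eq_zero_right h1).symm
    exact hcon x hx (h3 ▸ hy) h2
  obtain ⟨F, s, hs1, hs2⟩ := geometric_hahn_banach_point_closed hKconv hKc.isClosed hnot
  set μ : ℝ := F (0, 1) with hμ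
  let A : Fin n → ℝ := fun i => F (Pi.single i 1, 0)
  have hF : ∀ (x : Fin n → ℝ) (t : ℝ), F (x, t) = A ⬝ᵥ x + μ * t := by
    intro x t
    have h1 : ((x, t) : (Fin n → ℝ) × ℝ)
        = ∑ i, x i • ((Pi.single i (1 : ℝ), 0) : (Fin n → ℝ) × ℝ) + t • ((0, 1) : (Fin n → ℝ) × ℝ) := by
      ext i
      · simp [Prod.fst_sum, Finset.sum_apply, Pi.single_apply]
      · simp [Prod.snd_sum]
    rw [h1, map_add, map_sum, map_smul]
    simp only [map_smul, smul_eq_mul, dotProduct, A]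
    rw [← hμ, mul_comm t μ]
    congr 1
    exact Finset.sum_congr rfl fun i _ => mul_comm _ _
  have hsep : ∀ x ∈ P, ∀ y ∈ P, s < A ⬝ᵥ x + A ⬝ᵥ y + μ * (toR u ⬝ᵥ x) := by
    intro x hx y hy
    have h1 := hs2 (g (x, y)) ⟨(x, y), ⟨hx, hy⟩, rfl⟩
    simp only [g] at h1
    rw [hF, dotProduct_add] at h1
    exact h1
  have hs0 : s < 0 := by
    have h1 := hsep 0 h0P 0 h0P
    simpa using h1
  have hFω : F (0, ω) = μ * ω := by
    rw [hF]
    simp
  rw [hFω] at hs1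
  have hμ0 : μ < 0 := by
    by_contra hcon
    have : 0 ≤ μ * ω := mul_nonneg (not_lt.1 hcon) hωR.le
    linarith
  set ν : ℝ := -μ with hν
  have hν0 : 0 < ν := by linarith
  have hμν : μ = -ν := by rw [hν, neg_neg]
  have hνne : ν ≠ 0 := hν0.ne'
  set δ : ℝ := (s - μ * ω) / ν with hδ
  have hδ0 : 0 < δ := div_pos (by linarith) hν0
  set B : Fin n → ℝ := fun i => A i / ν with hB
  have hBdot : ∀ x, B ⬝ᵥ x = (A ⬝ᵥ x) / ν := by
    intro x
    simp only [dotProduct, hB, Finset.sum_div]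
    exact Finset.sum_congr rfl fun i _ => by ring
  have hsep2 : ∀ x ∈ P, ∀ y ∈ P, -ω + δ ≤ B ⬝ᵥ x - toR u ⬝ᵥ x + B ⬝ᵥ y := by
    intro x hx y hy
    have h1 := (hsep x hx y hy).le
    rw [hBdot, hBdot]
    have h2 : -ω + δ = s / ν := by
      rw [hδ, hμν]; field_simp; ring
    rw [h2, div_le_iff₀ hν0]
    have h3 : (A ⬝ᵥ x / ν - toR u ⬝ᵥ x + A ⬝ᵥ y / ν) * ν
        = A ⬝ᵥ x + A ⬝ᵥ y + μ * (toR u ⬝ᵥ x) := by
      rw [hμν]
      field_simp
      ring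
    rw [h3]
    exact h1
  -- a bound for the points of `P`
  obtain ⟨R, hR⟩ : ∃ R : ℝ, ∀ x ∈ P, ∑ i, |x i| ≤ R := by
    have hc : Continuous fun x : Fin n → ℝ => ∑ i, |x i| := by fun_prop
    obtain ⟨R, hR⟩ := (hP.isCompact.image hc).bddAbove
    exact ⟨R, fun x hx => hR ⟨x, hx, rfl⟩⟩
  obtain ⟨k, hk⟩ := exists_nat_gt (2 * R / δ)
  let r : Fin n → ℤ := fun i => round ((k : ℝ) * B i)
  have hr : ∀ i, |(k : ℝ) * B i - (r i : ℝ)| ≤ 1 := fun i =>
    (abs_sub_round _).trans (by norm_num)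
  have hkey' := hkey k (r - (k : ℤ) • u)
  rw [sub_add_cancel] at hkey'
  have hx := hw.mem (r - (k : ℤ) • u)
  have hy := hw.mem r
  set x := toR (w (r - (k : ℤ) • u)) with hxdef
  set y := toR (w r) with hydef
  have hdotx : toR (r - (k : ℤ) • u) ⬝ᵥ x + toR r ⬝ᵥ y ≤ -(ω * k) := by
    rw [hxdef, hydef, toR_dot, toR_dot]
    exact_mod_cast hkey'
  have hclose : ∀ z ∈ P, (k : ℝ) * (B ⬝ᵥ z) - R ≤ toR r ⬝ᵥ z := by
    intro z hz
    have h1 : (k : ℝ) * (B ⬝ᵥ z) - toR r ⬝ᵥ z = ∑ i, ((k : ℝ) * B i - (r i : ℝ)) * z i := by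
      simp only [dotProduct, toR, Finset.mul_sum]
      rw [← Finset.sum_sub_distrib]
      exact Finset.sum_congr rfl fun i _ => by ring
    have h2 : ∑ i, ((k : ℝ) * B i - (r i : ℝ)) * z i ≤ ∑ i, |z i| := by
      refine Finset.sum_le_sum fun i _ => ?_
      calc ((k : ℝ) * B i - (r i : ℝ)) * z i ≤ |((k : ℝ) * B i - (r i : ℝ)) * z i| := le_abs_self _
        _ = |(k : ℝ) * B i - (r i : ℝ)| * |z i| := abs_mul _ _
        _ ≤ 1 * |z i| := mul_le_mul_of_nonneg_right (hr i) (abs_nonneg _)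
        _ = |z i| := one_mul _
    have h3 := hR z hz
    linarith
  have h1 := hclose x hx
  have h2 := hclose y hy
  have h3 := hsep2 x hx y hy
  rw [toR_sub, toR_smul, sub_dotProduct, smul_dotProduct, smul_eq_mul] at hdotx
  push_cast at hdotx
  have hk0 : (0 : ℝ) ≤ k := Nat.cast_nonneg k
  have h4 : (k : ℝ) * (-ω + δ) ≤ (k : ℝ) * (B ⬝ᵥ x - toR u ⬝ᵥ x + B ⬝ᵥ y) :=
    mul_le_mul_of_nonneg_left h3 hk0
  have h5 : 2 * R < k * δ := by
    rwa [div_lt_iff₀ hδ0] at hk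
  nlinarith

end Helper15.NL
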