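import Pool.Agent.Helper15.NL.Bridge
import Pool.Agent.Helper15.NL.Main2

/-!
NL-17. The slice property with constant two, from the planar step `Type3` and the algebraic statement
`TAlg`; the assembly of Nill's conjecture in dimension three.
-/

namespace Helper15.NL

open Matrix Set Helper31.Ewald

/-- The planar (Doignon, Averkov) step: if the slice of height one contains no lattice point then there
are three lattice points of height one, forming a unimodular basis, and three separating integer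
functionals in pinwheel position. -/
def Type3 : Prop :=
  ∀ (K : Set (Fin 3 → ℝ)) (W : (Fin 3 → ℝ) → ℝ), SBody K → Supp K W →
    (∀ z : Fin 3 → ℤ, z ≠ 0 → 2 ≤ W (toR z)) →
    (∀ v : Fin 2 → ℤ, v ≠ 0 →
      ∃ x y : Fin 2 → ℝ, ![x 0, x 1, 1] ∈ K ∧ ![y 0, y 1, 1] ∈ K ∧ 2 ≤ toR v ⬝ᵥ (x - y)) →
    (∀ x : Fin 3 → ℤ, x 2 = 1 → toR x ∉ K) →
    ∃ (x E P : Fin 3 → Fin 3 → ℤ) (Q : Fin 3 → ℤ),
      (∀ j, x j 2 = 1) ∧ (∀ i j, E i ⬝ᵥ x j = if i = j then 1 else 0) ∧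
      (∀ i, W (toR (P i)) < Q i) ∧ (∀ i, P i ⬝ᵥ x i = Q i) ∧
      (∀ i j, i ≠ j → P i ⬝ᵥ x j < Q i) ∧
      P 0 ⬝ᵥ x 2 ≤ P 0 ⬝ᵥ x 1 ∧ P 1 ⬝ᵥ x 0 ≤ P 1 ⬝ᵥ x 2 ∧ P 2 ⬝ᵥ x 1 ≤ P 2 ⬝ᵥ x 0

theorem sliceProp2 (h3 : Type3) (hT : TAlg) : SliceProp 2 := by
  intro K W hK hW hz hmin
  by_contra hcon
  push Not at hcon
  have hwid := fun v hv => slice_width (le_refl 2) hK hW hz hmin v hv
  obtain ⟨x, E, P, Q, hx, hE, hP, hPii, hPij, pin0, pin1, pin2⟩ :=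
    h3 K W hK hW hz hwid (fun x hx hxK => hcon x hxK hx)
  exact no_data hT hK hW hz hwid x E P Q hx hE hP hPii hPij pin0 pin1 pin2

/-- the case of distance one -/
def Level1 : Prop :=
  ∀ (P : Set (Fin 3 → ℝ)), IsSmoothPolytope P → (0 : Fin 3 → ℝ) ∈ interior P →
    ∀ u : Fin 3 → ℤ, u ≠ 0 → (∀ x ∈ P, -2 < toR u ⬝ᵥ x) →
    ∃ b : Matrix (Fin 3) (Fin 3) ℤ, IsUnit b.det ∧ ∀ i, toR (b i) ∈ P ∧ -toR (b i) ∈ P

theorem nill3 (h3 : Type3) (hT : TAlg) (hL : Level1) {P : Set (Fin 3 → ℝ)}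
    (hP : IsSmoothPolytope P) (h0 : (0 : Fin 3 → ℝ) ∈ interior P) :
    ∃ b : Matrix (Fin 3) (Fin 3) ℤ, IsUnit b.det ∧ ∀ i, toR (b i) ∈ P ∧ -toR (b i) ∈ P := by
  by_cases h : ∀ u : Fin 3 → ℤ, u ≠ 0 → ∃ x ∈ P, toR u ⬝ᵥ x ≤ -2
  · exact main2 (sliceProp2 h3 hT) hP h0 h
  · push Not at h
    obtain ⟨u, hu, hb⟩ := h
    exact hL P hP h0 u hu hb

end Helper15.NL
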