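import Pool.Agent.Helper15.NL.Slice2
import Pool.Agent.Helper84.ND.Type3
import Pool.Agent.Helper55.NT.TAlgProp
import Pool.Agent.Helper20.NU.MainU

/-!
NL-18. Nill's conjecture in dimension three.
-/

namespace Helper15.NL

open Matrix Set Helper31.Ewald

theorem nill_three {P : Set (Fin 3 → ℝ)} (hP : IsSmoothPolytope P)
    (h0 : (0 : Fin 3 → ℝ) ∈ interior P) :
    ∃ b : Matrix (Fin 3) (Fin 3) ℤ, IsUnit b.det ∧ ∀ i, toR (b i) ∈ P ∧ -toR (b i) ∈ P :=
  nill3 Helper84.ND.type3 Helper55.NT.tAlg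
    (fun _ hP h0 _ hu hb => Helper20.NU.mainU hP h0 hu hb) hP h0

end Helper15.NL
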