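import Pool.Agent.Helper15.NL.Plane

/-!
NL-4. Planar flatness with constant `7/3`.

Proof. Let `h y = (4/7) (max_S y - min_S y)`, a `NormD` (`S` has interior points) with `4/3 ≤ h` on
nonzero integer vectors. By `plane` there is `w ≠ 0` integral with `w ⬝ y ≤ h y` for all `y`; divide
`w` by its content (`exists_completion`): `w` primitive. So `w ∈ (4/7) (S - S)` (separation, the set
is compact and convex): `w = (4/7) (s - s')`. Let `v = (-w 1, w 0)`, nonzero. The values of `v` on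
`(3/7) S` contain an interval of length `≥ 1`, so there is `p ∈ S` with
`v ⬝ ((3/7) p + (4/7) s') = k` an integer. All points `r + θ w`, `0 ≤ θ ≤ 1`,
`r = (3/7) p + (4/7) s'`, are in `S` (`r + w = (3/7) p + (4/7) s`). Since `w` is primitive there is an
integer point `y0` with `v ⬝ y0 = k`, `r - y0 = μ w`, and `θ = ⌈μ⌉ - μ` gives the point
`y0 + ⌈μ⌉ w ∈ S`.
-/

namespace Helper15.NL

open Matrix Set Helper31.Ewald

private theorem flat_body (S : Set (Fin 2 → ℝ)) (hc : Convex ℝ S) (hk : IsCompact S)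
    (hi : (interior S).Nonempty) :
    SBody ((fun q : (Fin 2 → ℝ) × (Fin 2 → ℝ) => (4 / 7 : ℝ) • (q.1 - q.2)) '' (S ×ˢ S)) := by
  refine ⟨(hk.prod hk).image (by fun_prop), ?_, ?_, ?_⟩
  · obtain ⟨c, hcS⟩ := hi
    have h1 : S ∈ nhds c := mem_interior_iff_mem_nhds.1 hcS
    have h2 : Continuous fun x : Fin 2 → ℝ => c + (7 / 4 : ℝ) • x := by fun_prop
    have h3 := h2.tendsto (0 : Fin 2 → ℝ)
    rw [smul_zero, add_zero] at h3
    have h4 := h3 h1
    refine Filter.mem_of_superset h4 ?_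
    intro x hx
    refine ⟨(c + (7 / 4 : ℝ) • x, c), ⟨hx, mem_of_mem_nhds h1⟩, ?_⟩
    funext i
    simp only [Pi.smul_apply, Pi.sub_apply, Pi.add_apply, smul_eq_mul]
    ring
  · rintro _ ⟨⟨a, b⟩, ⟨ha, hb⟩, rfl⟩ _ ⟨⟨a', b'⟩, ⟨ha', hb'⟩, rfl⟩ t u ht hu htu
    refine ⟨(t • a + u • a', t • b + u • b'), ⟨hc ha ha' ht hu htu, hc hb hb' ht hu htu⟩, ?_⟩
    funext i
    simp only [Pi.smul_apply, Pi.sub_apply, Pi.add_apply, smul_eq_mul]
    ring
  · rintro _ ⟨⟨a, b⟩, ⟨ha, hb⟩, rfl⟩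
    refine ⟨(b, a), ⟨hb, ha⟩, ?_⟩
    funext i
    simp only [Pi.smul_apply, Pi.sub_apply, Pi.neg_apply, smul_eq_mul]
    ring

/-- a primitive integer vector in `(4/7) (S - S)` -/
private theorem flat_vec (S : Set (Fin 2 → ℝ)) (hc : Convex ℝ S) (hk : IsCompact S)
    (hi : (interior S).Nonempty)
    (hw : ∀ v : Fin 2 → ℤ, v ≠ 0 → ∃ x ∈ S, ∃ y ∈ S, 7 / 3 ≤ toR v ⬝ᵥ (x - y)) :
    ∃ (w u : Fin 2 → ℤ) (δ : ℤ), δ * δ = 1 ∧ w 0 * u 1 - w 1 * u 0 = δ ∧
      ∃ s ∈ S, ∃ s' ∈ S, ∀ i, (w i : ℝ) = 4 / 7 * (s i - s' i) := by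
  have hK := flat_body S hc hk hi
  obtain ⟨W, hW⟩ := hK.exists_supp
  obtain ⟨w, hw0, hwy⟩ := plane W (hW.normD hK) (by
    intro z hz
    obtain ⟨x, hx, y, hy, hxy⟩ := hw z hz
    have h1 := hW.le (toR z) ((4 / 7 : ℝ) • (x - y)) ⟨(x, y), ⟨hx, hy⟩, rfl⟩
    rw [dotProduct_smul, smul_eq_mul] at h1
    linarith)
  have hwK := hW.mem hK (x := toR w) (fun y => by rw [dotProduct_comm]; exact hwy y)
  obtain ⟨U, m, hU, hm, hwm⟩ := exists_completion w hw0
  obtain ⟨⟨a, b⟩, ⟨ha, hb⟩, hab⟩ := hwK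
  have hdet : U.det = U 0 0 * U 1 1 - U 0 1 * U 1 0 := by rw [Matrix.det_fin_two]
  refine ⟨U 0, U 1, U.det, ?_, hdet.symm, ?_⟩
  · rcases Int.isUnit_iff.1 hU with h | h <;> rw [h] <;> norm_num
  · -- `toR (U 0) = m⁻¹ toR w`
    have hmR : (m : ℝ) ≠ 0 := by exact_mod_cast hm
    have h1 : ∀ i, (m : ℝ) * (U 0 i : ℝ) = 4 / 7 * (a i - b i) := by
      intro i
      have h2 := congrFun hab i
      simp only [Pi.smul_apply, Pi.sub_apply, smul_eq_mul] at h2
      rw [h2, hwm]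
      simp [toR]
    have habs : 1 ≤ |(m : ℝ)| := by
      have : (1 : ℤ) ≤ |m| := Int.one_le_abs hm
      exact_mod_cast this
    rcases lt_or_gt_of_ne hmR with hneg | hpos
    · -- m < 0
      have hm1 : (m : ℝ) ≤ -1 := by
        rw [abs_of_neg hneg] at habs; linarith
      set t : ℝ := -(m : ℝ)⁻¹ with ht
      have ht0 : 0 ≤ t := by
        rw [ht]; have := inv_lt_zero.2 hneg; linarith
      have htm : t * (m : ℝ) = -1 := by
        rw [ht]; field_simp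
      have ht1 : t ≤ 1 := by nlinarith
      refine ⟨t • b + (1 - t) • a, hc hb ha ht0 (by linarith) (by ring), a, ha, fun i => ?_⟩
      have h3 := h1 i
      simp only [Pi.add_apply, Pi.smul_apply, smul_eq_mul]
      have h4 : t * ((m : ℝ) * (U 0 i : ℝ)) = t * (4 / 7 * (a i - b i)) := by rw [h3]
      have h5 : t * ((m : ℝ) * (U 0 i : ℝ)) = -(U 0 i : ℝ) := by
        rw [← mul_assoc, htm]; ring
      rw [h5] at h4
      linarith
    · have hm1 : (1 : ℝ) ≤ m := by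
        rw [abs_of_pos hpos] at habs; linarith
      set t : ℝ := (m : ℝ)⁻¹ with ht
      have ht0 : 0 ≤ t := by rw [ht]; positivity
      have htm : t * (m : ℝ) = 1 := by
        rw [ht]; field_simp
      have ht1 : t ≤ 1 := by nlinarith
      refine ⟨t • a + (1 - t) • b, hc ha hb ht0 (by linarith) (by ring), b, hb, fun i => ?_⟩
      have h3 := h1 i
      simp only [Pi.add_apply, Pi.smul_apply, smul_eq_mul]
      have h4 : t * ((m : ℝ) * (U 0 i : ℝ)) = t * (4 / 7 * (a i - b i)) := by rw [h3]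
      have h5 : t * ((m : ℝ) * (U 0 i : ℝ)) = (U 0 i : ℝ) := by
        rw [← mul_assoc, htm]; ring
      rw [h5] at h4
      linarith

theorem flat (S : Set (Fin 2 → ℝ)) (hc : Convex ℝ S) (hk : IsCompact S)
    (hi : (interior S).Nonempty)
    (hw : ∀ v : Fin 2 → ℤ, v ≠ 0 → ∃ x ∈ S, ∃ y ∈ S, 7 / 3 ≤ toR v ⬝ᵥ (x - y)) :
    ∃ z : Fin 2 → ℤ, toR z ∈ S := by
  obtain ⟨w, u, δ, hδ, hdet, s, hs, s', hs', hws⟩ := flat_vec S hc hk hi hw
  have hδR : (δ : ℝ) * δ = 1 := by exact_mod_cast hδ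
  have hdetR : (w 0 : ℝ) * u 1 - w 1 * u 0 = δ := by exact_mod_cast hdet
  have hv0 : (![-w 1, w 0] : Fin 2 → ℤ) ≠ 0 := by
    intro h0
    have h1 := congrFun h0 0
    have h2 := congrFun h0 1
    simp at h1 h2
    rw [h1, h2] at hdet
    have : δ = 0 := by linarith
    rw [this] at hδ
    norm_num at hδ
  obtain ⟨x, hx, y, hy, hxy⟩ := hw _ hv0
  have hxy' : 7 / 3 ≤ -(w 1 : ℝ) * (x 0 - y 0) + w 0 * (x 1 - y 1) := by
    have h1 := hxy
    simp only [toR, dotProduct, Fin.sum_univ_two, Pi.sub_apply, Matrix.cons_val_zero,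
      Matrix.cons_val_one, Int.cast_neg] at h1
    exact h1
  set f : (Fin 2 → ℝ) → ℝ := fun p =>
    -(w 1 : ℝ) * (3 / 7 * p 0 + 4 / 7 * s' 0) + w 0 * (3 / 7 * p 1 + 4 / 7 * s' 1) with hf
  have hfxy : f y + 1 ≤ f x := by
    simp only [hf]
    linarith
  have hk1 := Int.le_ceil (f y)
  have hk2 := Int.ceil_lt_add_one (f y)
  set k : ℤ := ⌈f y⌉ with hkdef
  have hpos : 0 < f x - f y := by linarith
  set t : ℝ := (k - f y) / (f x - f y) with ht
  have ht0 : 0 ≤ t := div_nonneg (by linarith) hpos.le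
  have ht1 : t ≤ 1 := by
    rw [ht, div_le_one hpos]; linarith
  have htk : t * (f x - f y) = k - f y := by
    rw [ht]; field_simp
  set p : Fin 2 → ℝ := t • x + (1 - t) • y with hp
  have hpS : p ∈ S := hc hx hy ht0 (by linarith) (by ring)
  have hfp : f p = k := by
    have h1 : f p = t * (f x - f y) + f y := by
      simp only [hf, hp, Pi.add_apply, Pi.smul_apply, smul_eq_mul]
      ring
    rw [h1, htk]; ring
  set r : Fin 2 → ℝ := (3 / 7 : ℝ) • p + (4 / 7 : ℝ) • s' with hr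
  have hrS : r ∈ S := hc hpS hs' (by norm_num) (by norm_num) (by norm_num)
  have hrw : r + toR w ∈ S := by
    have h1 : r + toR w = (3 / 7 : ℝ) • p + (4 / 7 : ℝ) • s := by
      funext i
      simp only [hr, toR, Pi.add_apply, Pi.smul_apply, smul_eq_mul, hws i]
      ring
    rw [h1]
    exact hc hpS hs (by norm_num) (by norm_num) (by norm_num)
  set d0 : ℝ := r 0 - (δ * k * u 0 : ℝ) with hd0
  set d1 : ℝ := r 1 - (δ * k * u 1 : ℝ) with hd1
  have hd : -(w 1 : ℝ) * d0 + w 0 * d1 = 0 := by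
    have h1 : -(w 1 : ℝ) * r 0 + w 0 * r 1 = k := by
      rw [← hfp]
      simp only [hf, hr, Pi.add_apply, Pi.smul_apply, smul_eq_mul]
    have h2 : -(w 1 : ℝ) * d0 + w 0 * d1
        = (-(w 1 : ℝ) * r 0 + w 0 * r 1) - (w 0 * u 1 - w 1 * u 0) * δ * k := by
      rw [hd0, hd1]; ring
    rw [h2, h1, hdetR, hδR]; ring
  set μ : ℝ := δ * (d0 * u 1 - d1 * u 0) with hμ
  have hμ0 : μ * w 0 = d0 := by
    have h1 : μ * w 0 = (w 0 * u 1 - w 1 * u 0) * δ * d0 - δ * u 0 * (-(w 1 : ℝ) * d0 + w 0 * d1) := by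
      rw [hμ]; ring
    rw [h1, hd, hdetR, hδR]; ring
  have hμ1 : μ * w 1 = d1 := by
    have h1 : μ * w 1 = (w 0 * u 1 - w 1 * u 0) * δ * d1 - δ * u 1 * (-(w 1 : ℝ) * d0 + w 0 * d1) := by
      rw [hμ]; ring
    rw [h1, hd, hdetR, hδR]; ring
  have hc1 := Int.le_ceil μ
  have hc2 := Int.ceil_lt_add_one μ
  refine ⟨fun i => δ * k * u i + ⌈μ⌉ * w i, ?_⟩
  have hfin : toR (fun i => δ * k * u i + ⌈μ⌉ * w i)
      = (1 - ((⌈μ⌉ : ℝ) - μ)) • r + ((⌈μ⌉ : ℝ) - μ) • (r + toR w) := by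
    funext i
    simp only [toR, Pi.add_apply, Pi.smul_apply, smul_eq_mul, Int.cast_add, Int.cast_mul]
    fin_cases i
    · simp only [Fin.zero_eta, Fin.isValue]
      have : r 0 = δ * k * u 0 + d0 := by rw [hd0]; ring
      rw [this, ← hμ0]; ring
    · simp only [Fin.mk_one, Fin.isValue]
      have : r 1 = δ * k * u 1 + d1 := by rw [hd1]; ring
      rw [this, ← hμ1]; ring
  rw [hfin]
  exact hc hrS hrw (by linarith) (by linarith) (by ring)

end Helper15.NL
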