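import Pool.Agent.Helper15.NL.Defs

/-!
NL-10a. A convex integer sequence whose linear pieces of small slope are short.

`g` convex, nonnegative; every piece `[a, b]` of constant slope
`s`, `|s| ≤ 2`, has `3 (b - a) ≤ g a` and `3 (b - a) ≤ g b`. Then `40 (b - a) ≤ 17 (g a + g b)`.
Proof (`a = 0`, `b = k` for the notation): induction on `b - a` removes the ends with slopes `≥ 3` or
`≤ -3`. Otherwise all slopes on `[0, k)` are in `{-2, ..., 2}`; `L_s` = number of steps of slope `s`; `μ` = value at the bottom.
`g 0 = μ + L_{-1} + 2 L_{-2}`, `g k = μ + L_1 + 2 L_2`, and `μ ≥ 3 L_0, 3 L_1, 3 L_{-1}`,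
`μ + L_1 ≥ 3 L_2`, `μ + L_{-1} ≥ 3 L_{-2}`; `17 (g 0 + g k) - 40 k =
(40/3) (μ - 3 L_0) + (25/3) (μ - 3 L_1) + (25/3) (μ - 3 L_{-1}) + 2 (μ + L_1 - 3 L_2) +
2 (μ + L_{-1} - 3 L_{-2})`.
-/

namespace Helper15.NL

private theorem seq_thr (s : ℕ → ℤ) (hs : ∀ i, s i ≤ s (i + 1)) (t : ℤ) (a b : ℕ) (hab : a ≤ b) :
    ∃ c, a ≤ c ∧ c ≤ b ∧ (∀ i, a ≤ i → i < c → s i < t) ∧ (∀ i, c ≤ i → i < b → t ≤ s i) := by
  have hmono : Monotone s := monotone_nat_of_le_succ hs
  induction b, hab using Nat.le_induction with
  | base =>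
    refine ⟨a, le_refl a, le_refl a, ?_, ?_⟩
    · intro i h1 h2
      omega
    · intro i h1 h2
      omega
  | succ b hab ih =>
    obtain ⟨c, h1, h2, h3, h4⟩ := ih
    by_cases hb : t ≤ s b
    · refine ⟨c, h1, by omega, h3, ?_⟩
      intro i hi1 hi2
      by_cases hib : i < b
      · exact h4 i hi1 hib
      · have : i = b := by omega
        rw [this]
        exact hb
    · refine ⟨b + 1, by omega, le_refl _, ?_, ?_⟩
      · intro i hi1 hi2
        have hib : i ≤ b := by omega
        have := hmono hib
        omega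
      · intro i hi1 hi2
        omega

private theorem seq_lin (g : ℕ → ℤ) (s : ℤ) (a b : ℕ) (hab : a ≤ b)
    (h : ∀ i, a ≤ i → i < b → g (i + 1) - g i = s) : g b - g a = s * ((b : ℤ) - a) := by
  induction b, hab using Nat.le_induction with
  | base => simp
  | succ b hab ih =>
    have h1 := ih (fun i hi1 hi2 => h i hi1 (by omega))
    have h2 := h b hab (by omega)
    push_cast
    linarith

theorem seq_lemma (g : ℕ → ℤ) (hg : ∀ i, 0 ≤ g i)
    (hmono : ∀ i, g (i + 1) - g i ≤ g (i + 2) - g (i + 1))
    (hlin : ∀ a b (s : ℤ), a ≤ b → |s| ≤ 2 → (∀ i, a ≤ i → i < b → g (i + 1) - g i = s) →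
      3 * ((b : ℤ) - a) ≤ g a ∧ 3 * ((b : ℤ) - a) ≤ g b) (a b : ℕ) (hab : a ≤ b) :
    40 * ((b : ℤ) - a) ≤ 17 * (g a + g b) := by
  have hs : ∀ i, (fun i => g (i + 1) - g i) i ≤ (fun i => g (i + 1) - g i) (i + 1) := hmono
  have hM : Monotone (fun i => g (i + 1) - g i) := monotone_nat_of_le_succ hs
  have key : ∀ n a b : ℕ, a ≤ b → b - a = n → 40 * ((b : ℤ) - a) ≤ 17 * (g a + g b) := by
    intro n
    induction n with
    | zero =>
      intro a b hab hn
      have : a = b := by omega
      subst this
      have := hg a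
      linarith
    | succ n ih =>
      intro a b hab hn
      obtain ⟨b', rfl⟩ : ∃ b', b = b' + 1 := ⟨b - 1, by omega⟩
      by_cases h1 : 3 ≤ g (b' + 1) - g b'
      · have h2 := ih a b' (by omega) (by omega)
        push_cast
        linarith
      · by_cases h2 : g (a + 1) - g a ≤ -3
        · have h3 := ih (a + 1) (b' + 1) (by omega) (by omega)
          push_cast at h3 ⊢
          linarith
        · have hlow : ∀ i, a ≤ i → -2 ≤ g (i + 1) - g i := by
            intro i hi
            have : g (a + 1) - g a ≤ g (i + 1) - g i := hM hi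
            omega
          have hup : ∀ i, i < b' + 1 → g (i + 1) - g i ≤ 2 := by
            intro i hi
            have hi' : i ≤ b' := by omega
            have : g (i + 1) - g i ≤ g (b' + 1) - g b' := hM hi'
            omega
          obtain ⟨c1, p1, q1, r1, t1⟩ := seq_thr _ hs (-1) a (b' + 1) hab
          obtain ⟨c2, p2, q2, r2, t2⟩ := seq_thr _ hs 0 c1 (b' + 1) q1
          obtain ⟨c3, p3, q3, r3, t3⟩ := seq_thr _ hs 1 c2 (b' + 1) q2
          obtain ⟨c4, p4, q4, r4, t4⟩ := seq_thr _ hs 2 c3 (b' + 1) q3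
          have e1 : ∀ i, a ≤ i → i < c1 → g (i + 1) - g i = -2 := by
            intro i h3 h4
            have := r1 i h3 h4
            have := hlow i h3
            omega
          have e2 : ∀ i, c1 ≤ i → i < c2 → g (i + 1) - g i = -1 := by
            intro i h3 h4
            have := r2 i h3 h4
            have := t1 i h3 (by omega)
            omega
          have e3 : ∀ i, c2 ≤ i → i < c3 → g (i + 1) - g i = 0 := by
            intro i h3 h4
            have := r3 i h3 h4
            have := t2 i h3 (by omega)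
            omega
          have e4 : ∀ i, c3 ≤ i → i < c4 → g (i + 1) - g i = 1 := by
            intro i h3 h4
            have := r4 i h3 h4
            have := t3 i h3 (by omega)
            omega
          have e5 : ∀ i, c4 ≤ i → i < b' + 1 → g (i + 1) - g i = 2 := by
            intro i h3 h4
            have := t4 i h3 h4
            have := hup i h4
            omega
          have f1 := seq_lin g (-2) a c1 p1 e1
          have f2 := seq_lin g (-1) c1 c2 p2 e2
          have f3 := seq_lin g 0 c2 c3 p3 e3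
          have f4 := seq_lin g 1 c3 c4 p4 e4
          have f5 := seq_lin g 2 c4 (b' + 1) q4 e5
          have g1 := (hlin a c1 (-2) p1 (by norm_num) e1).2
          have g2 := (hlin c1 c2 (-1) p2 (by norm_num) e2).2
          have g3 := (hlin c2 c3 0 p3 (by norm_num) e3).1
          have g4 := (hlin c3 c4 1 p4 (by norm_num) e4).1
          have g5 := (hlin c4 (b' + 1) 2 q4 (by norm_num) e5).1
          linarith
  exact key (b - a) a b hab rfl

end Helper15.NL
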