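import Pool.Agent.Helper31.Ewald.Deep
import Pool.Agent.Helper15.NL.Seq3

/-!
NL-10b. The key inequality for `0` at lattice distance at least three from all facets.

`key3`: as `key2` in `Helper31/Ewald/Deep.lean` (`g i = - (p + i u) ⬝ w (p + i u)`); the
pieces: for `b - a = m ≥ 2` the vertex `v` in the middle is a common one; `q = p + a u`,
`q' = p + b u`; `f_j ⬝ v ≤ -3`; `g a = ∑ (-(f_j ⬝ v)) (q ⬝ e_j)` etc. If all `u ⬝ e_j ≥ 0` then
`s = ∑ (-(f_j ⬝ v)) (u ⬝ e_j) ≥ 3`; so some `u ⬝ e_j ≤ -1` and `q ⬝ e_j ≥ m`, `g a ≥ 3 m`; same for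
`b` with some `u ⬝ e_j ≥ 1`. For `m = 1` both vectors are nonzero (a zero one forces `|s| ≥ 3`).
-/

namespace Helper15.NL

open Matrix Set Helper31.Ewald

variable {n : ℕ} {P : Set (Fin n → ℝ)} {w : (Fin n → ℤ) → (Fin n → ℤ)}

/-- A vertex minimising both `p` and `p + k u`. -/
private theorem vertex_parts (hP : IsSmoothPolytope P) (hw : MinVert P w)
    (hN : ∀ p, p ≠ 0 → p ⬝ᵥ w p ≤ -3) {v : Fin n → ℤ} (hv : toR v ∈ P.extremePoints ℝ)
    {u : Fin n → ℤ} (hu : u ≠ 0) (p : Fin n → ℤ) (k : ℕ)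
    (hp : ∀ x ∈ P, ((p ⬝ᵥ v : ℤ) : ℝ) ≤ toR p ⬝ᵥ x)
    (hq : ∀ x ∈ P, (((p + (k : ℤ) • u) ⬝ᵥ v : ℤ) : ℝ) ≤ toR (p + (k : ℤ) • u) ⬝ᵥ x)
    (hs : |u ⬝ᵥ v| ≤ 2) :
    p ⬝ᵥ v ≤ -(3 * (k : ℤ)) ∧ (p + (k : ℤ) • u) ⬝ᵥ v ≤ -(3 * (k : ℤ)) := by
  obtain ⟨e, hdet, hedge, hcone⟩ := hP.smooth _ hv
  obtain ⟨f, hfe, hR, hZ⟩ := exists_dual e hdet
  have hpos : ∀ q : Fin n → ℤ, (∀ x ∈ P, ((q ⬝ᵥ v : ℤ) : ℝ) ≤ toR q ⬝ᵥ x) →
      ∀ j, 0 ≤ q ⬝ᵥ e j := by
    intro q hq j
    obtain ⟨t, ht, htP⟩ := hedge j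
    have h := hq _ htP
    rw [dotProduct_add, dotProduct_smul, toR_dot, toR_dot, smul_eq_mul] at h
    have h1 : 0 ≤ t * ((q ⬝ᵥ e j : ℤ) : ℝ) := by linarith
    have h2 : 0 ≤ ((q ⬝ᵥ e j : ℤ) : ℝ) := nonneg_of_mul_nonneg_right h1 ht
    exact_mod_cast h2
  have hc : ∀ j, f j ⬝ᵥ v ≤ -3 := by
    intro j
    have hfj : f j ≠ 0 := by
      intro h
      have := hfe j j
      rw [h, zero_dotProduct] at this
      simp at this
    have h1 := hN _ hfj
    obtain ⟨c, hc0, hc⟩ := hcone _ (hw.mem (f j))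
    have h2 : toR (f j) ⬝ᵥ toR (w (f j)) = toR (f j) ⬝ᵥ toR v + c j := by
      rw [hc, dotProduct_add, dotProduct_sum]
      congr 1
      have : ∀ i, toR (f j) ⬝ᵥ (c i • toR (e i)) = if j = i then c i else 0 := by
        intro i
        rw [dotProduct_smul, toR_dot, hfe]
        split_ifs <;> simp
      simp only [this]
      simp
    rw [toR_dot, toR_dot] at h2
    have h3 : ((f j ⬝ᵥ v : ℤ) : ℝ) ≤ ((f j ⬝ᵥ w (f j) : ℤ) : ℝ) := by
      rw [h2]; linarith [hc0 j]
    have h4 : f j ⬝ᵥ v ≤ f j ⬝ᵥ w (f j) := by exact_mod_cast h3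
    omega
  have hexp : ∀ q : Fin n → ℤ, q ⬝ᵥ v = ∑ j, (f j ⬝ᵥ v) * (q ⬝ᵥ e j) := by
    intro q
    conv_lhs => rw [hZ q]
    rw [sum_dotProduct]
    exact Finset.sum_congr rfl fun j _ => by rw [smul_dotProduct, smul_eq_mul, mul_comm]
  -- a nonnegative vector with an entry at least `m`
  have hbound : ∀ (q : Fin n → ℤ) (m : ℤ) (i : Fin n), (∀ j, 0 ≤ q ⬝ᵥ e j) → m ≤ q ⬝ᵥ e i →
      q ⬝ᵥ v ≤ -(3 * m) := by
    intro q m i hq0 hqi
    rw [hexp q]
    have h5 : ∀ j, (f j ⬝ᵥ v) * (q ⬝ᵥ e j) ≤ -(3 * (q ⬝ᵥ e j)) := fun j => by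
      have h6 : (f j ⬝ᵥ v) * (q ⬝ᵥ e j) ≤ (-3) * (q ⬝ᵥ e j) :=
        mul_le_mul_of_nonneg_right (hc j) (hq0 j)
      linarith
    calc ∑ j, (f j ⬝ᵥ v) * (q ⬝ᵥ e j) ≤ ∑ j, -(3 * (q ⬝ᵥ e j)) :=
          Finset.sum_le_sum fun j _ => h5 j
      _ ≤ -(3 * (q ⬝ᵥ e i)) := by
          rw [← Finset.add_sum_erase _ _ (Finset.mem_univ i)]
          have : ∑ j ∈ Finset.univ.erase i, -(3 * (q ⬝ᵥ e j)) ≤ 0 :=
            Finset.sum_nonpos fun j _ => by
              have := hq0 j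
              linarith
          linarith
      _ ≤ -(3 * m) := by linarith
  obtain ⟨i₀, hi₀⟩ : ∃ i, u ⬝ᵥ e i ≠ 0 := by
    by_contra hcon
    push Not at hcon
    apply hu
    rw [hZ u]
    simp [hcon]
  have hpi := hpos p hp
  have hqi := hpos _ hq
  have hqe : ∀ j, (p + (k : ℤ) • u) ⬝ᵥ e j = p ⬝ᵥ e j + k * (u ⬝ᵥ e j) := by
    intro j
    rw [add_dotProduct, smul_dotProduct, smul_eq_mul]
  have hk0 : (0 : ℤ) ≤ k := Int.natCast_nonneg k
  rw [abs_le] at hs
  constructor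
  · -- some entry of `u` is negative
    obtain ⟨i, hi⟩ : ∃ i, u ⬝ᵥ e i ≤ -1 := by
      by_contra hcon
      push Not at hcon
      have h1 := hbound u 1 i₀ (fun j => by have := hcon j; omega)
        (by have := hcon i₀; omega)
      omega
    refine hbound p k i hpi ?_
    have h1 := hqi i
    rw [hqe] at h1
    have h3 : (k : ℤ) * (u ⬝ᵥ e i) ≤ k * (-1) := mul_le_mul_of_nonneg_left hi hk0
    linarith
  · -- some entry of `u` is positive
    obtain ⟨i, hi⟩ : ∃ i, 1 ≤ u ⬝ᵥ e i := by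
      by_contra hcon
      push Not at hcon
      have h1 := hbound (-u) 1 i₀ (fun j => by
        have := hcon j
        rw [neg_dotProduct]
        omega) (by
        have := hcon i₀
        rw [neg_dotProduct]
        omega)
      rw [neg_dotProduct] at h1
      omega
    refine hbound _ k i hqi ?_
    have h1 := hpi i
    rw [hqe]
    have h3 : (k : ℤ) * 1 ≤ k * (u ⬝ᵥ e i) := mul_le_mul_of_nonneg_left hi hk0
    linarith

theorem key3 (hP : IsSmoothPolytope P) (h0 : (0 : Fin n → ℝ) ∈ interior P)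
    (hw : MinVert P w) (hN : ∀ p, p ≠ 0 → p ⬝ᵥ w p ≤ -3) {u : Fin n → ℤ} (hu : u ≠ 0)
    (k : ℕ) (p : Fin n → ℤ) :
    17 * (p ⬝ᵥ w p + (p + (k : ℤ) • u) ⬝ᵥ w (p + (k : ℤ) • u)) ≤ -(40 * (k : ℤ)) := by
  let g : ℕ → ℤ := fun i => -((p + (i : ℤ) • u) ⬝ᵥ w (p + (i : ℤ) • u))
  have hgdef : ∀ i, g i = -((p + (i : ℤ) • u) ⬝ᵥ w (p + (i : ℤ) • u)) := fun i => rfl
  have hg0 : g 0 = -(p ⬝ᵥ w p) := by rw [hgdef]; simp
  have hgn : ∀ i, 0 ≤ g i := fun i => by
    have := hw.le_zero h0 (p + (i : ℤ) • u)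
    rw [hgdef]; linarith
  -- the subgradient inequality
  have hsub : ∀ i j : ℕ, g i + ((j : ℤ) - i) * (-(u ⬝ᵥ w (p + (i : ℤ) • u))) ≤ g j := by
    intro i j
    have h1 := hw.le_int (p + (j : ℤ) • u) (p + (i : ℤ) • u)
    have h2 : (p + (j : ℤ) • u) ⬝ᵥ w (p + (i : ℤ) • u) =
        (p + (i : ℤ) • u) ⬝ᵥ w (p + (i : ℤ) • u) +
          ((j : ℤ) - i) * (u ⬝ᵥ w (p + (i : ℤ) • u)) := by
      simp only [add_dotProduct, smul_dotProduct, smul_eq_mul]
      ring
    rw [h2] at h1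
    rw [hgdef, hgdef]
    linarith
  have hmono : ∀ i, g (i + 1) - g i ≤ g (i + 2) - g (i + 1) := by
    intro i
    have h1 := hsub (i + 1) i
    have h2 := hsub (i + 1) (i + 2)
    push_cast at h1 h2
    linarith
  have hlin : ∀ a b (s : ℤ), a ≤ b → |s| ≤ 2 →
      (∀ i, a ≤ i → i < b → g (i + 1) - g i = s) →
      3 * ((b : ℤ) - a) ≤ g a ∧ 3 * ((b : ℤ) - a) ≤ g b := by
    intro a b s hab hs1 hs
    rw [abs_le] at hs1
    obtain ⟨m, rfl⟩ := Nat.exists_eq_add_of_le hab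
    rcases Nat.lt_or_ge m 2 with hm | hm
    · -- short piece
      have h1 := hgn a
      have h2 := hgn (a + m)
      interval_cases m
      · push_cast
        constructor <;> linarith
      · have hs' := hs a le_rfl (by omega)
        have hstep : p + ((a + 1 : ℕ) : ℤ) • u = (p + (a : ℤ) • u) + u := by
          push_cast; rw [add_smul, one_smul]; abel
        have hne1 : p + (a : ℤ) • u ≠ 0 := by
          intro h
          have h3 : g a = 0 := by rw [hgdef, h, zero_dotProduct, neg_zero]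
          have h4 : 3 ≤ g (a + 1) := by
            have h5 := hN (p + ((a + 1 : ℕ) : ℤ) • u) (by rw [hstep, h, zero_add]; exact hu)
            rw [hgdef]
            linarith
          linarith
        have hne2 : p + ((a + 1 : ℕ) : ℤ) • u ≠ 0 := by
          intro h
          have h3 : g (a + 1) = 0 := by rw [hgdef, h, zero_dotProduct, neg_zero]
          have h4 : 3 ≤ g a := by
            have h5 := hN _ hne1
            rw [hgdef]
            linarith
          linarith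
        have h3 := hN _ hne1
        have h4 := hN _ hne2
        push_cast
        constructor
        · rw [hgdef]; linarith
        · rw [hgdef]; linarith
    · -- long piece: a common vertex
      obtain ⟨q, hq⟩ : ∃ q, q = p + ((a + 1 : ℕ) : ℤ) • u := ⟨_, rfl⟩
      have hval : ∀ i, i ≤ m → g (a + i) = g a + i * s := by
        intro i
        induction i with
        | zero => intro _; simp
        | succ i ihi =>
          intro hi
          have h1 := ihi (by omega)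
          have h2 := hs (a + i) (by omega) (by omega)
          rw [show a + (i + 1) = a + i + 1 by ring]
          push_cast
          linarith
      have hσ : -(u ⬝ᵥ w q) = s := by
        have h1 := hsub (a + 1) a
        have h2 := hsub (a + 1) (a + 2)
        have h3 := hval 1 (by omega)
        have h4 := hval 2 hm
        push_cast at h1 h2 h3 h4
        have hq' : w (p + ((a : ℤ) + 1) • u) = w q := by rw [hq]; push_cast; rfl
        rw [hq'] at h1 h2
        linarith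
      have hqa : (p + (a : ℤ) • u) ⬝ᵥ w q = -(g a) := by
        have h1 : q ⬝ᵥ w q = -g (a + 1) := by rw [hgdef, neg_neg, hq]
        have h2 : q = (p + (a : ℤ) • u) + u := by
          rw [hq]; push_cast; rw [add_smul, one_smul]; abel
        have h3 : q ⬝ᵥ w q = (p + (a : ℤ) • u) ⬝ᵥ w q + u ⬝ᵥ w q :=
          (congrArg (fun z => z ⬝ᵥ w q) h2).trans (add_dotProduct _ _ _)
        have h4 := hval 1 (by omega)
        push_cast at h4
        linarith
      have hqb : (p + ((a + m : ℕ) : ℤ) • u) ⬝ᵥ w q = -(g (a + m)) := by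
        have h1 : (p + ((a + m : ℕ) : ℤ) • u) = (p + (a : ℤ) • u) + (m : ℤ) • u := by
          push_cast; rw [add_smul]; abel
        rw [h1, add_dotProduct, hqa, smul_dotProduct, smul_eq_mul, hval m le_rfl]
        have : u ⬝ᵥ w q = -s := by linarith
        rw [this]
        ring
      have h5 : (p + (a : ℤ) • u) + (m : ℤ) • u = p + ((a + m : ℕ) : ℤ) • u := by
        push_cast; rw [add_smul]; abel
      have hfin := vertex_parts hP hw hN (hw.ext q) hu (p + (a : ℤ) • u) m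
        (by
          rw [hqa, hgdef, neg_neg]
          exact hw.le _)
        (by
          rw [h5, hqb, hgdef, neg_neg]
          exact hw.le _)
        (by
          have h6 : u ⬝ᵥ w q = -s := by linarith
          rw [h6, abs_neg, abs_le]
          exact hs1)
      rw [h5, hqa, hqb] at hfin
      push_cast
      constructor <;> linarith [hfin.1, hfin.2]
  have hfin := seq_lemma g hgn hmono hlin 0 k (Nat.zero_le _)
  rw [hg0, hgdef] at hfin
  push_cast at hfin
  linarith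

end Helper15.NL
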