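import Pool.Agent.Helper15.NL.Defs

/-!
NL-5. The one-dimensional lemma behind the slice lemma.

Proof. `φ` is `Y`-Lipschitz. Write `F a b = φ a + φ b - (b - a)`, `a ≤ b` (symmetry).
If `b - a ≥ 2` use `htri` (`(Y - 1) 2 ≥ Y ≥ ρ`).
(A) `a ≤ b` in `[k, k+1/2]`: `φ a ≥ φ k - Y (a-k) ≥ ρ - Y (a-k)`,
`φ b ≥ Y/2 - Y (k+1/2-b) = Y (b-k)`: `F ≥ ρ + (Y-1)(b-a)`. In `[k+1/2, k+1]`: symmetric.
(B) `a ∈ [k,k+1/2]`, `b ∈ [k+1/2,k+1]`: let `κ` be a subgradient at `k+1/2`. If `κ ≥ 1` then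
`F a b ≥ F a (k+1/2)`, if `κ ≤ -1` then `F a b ≥ F (k+1/2) b`: case (A). Else put `α = a-k`,
`β = k+1-b`: `φ a ≥ max (ρ - Y α) (Y/2 - κ (1/2-α))`, `φ b ≥ max (ρ - Y β) (Y/2 + κ (1/2-β))`,
`F = (φ a + α) + (φ b + β) - 1`. Combine with the weights `(1+κ)/(Y+κ)`, `(Y-1)/(Y+κ)` (this kills
`α`): `φ a + α ≥ ((1+κ) ρ + (Y-1)(Y-κ)/2)/(Y+κ)`; in the same way
`φ b + β ≥ ((1-κ) ρ + (Y-1)(Y+κ)/2)/(Y-κ)`; the sum minus `1 + ρ` is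
`(Y-ρ)(Y(Y-2)+κ²)/(Y²-κ²) ≥ 0`.
(C) `a ≤ k ≤ b` for an integer `k`, `b - a < 2`: let `κ_k` be subgradients at the integers of
`[a,b]` (at most two). `κ ≥ 1`: `F a b ≥ F a k` (so `b = k`); `κ ≤ -1`: `F a b ≥ F k b`. If `|κ| ≤ 1`
and `b-k, k-a ≤ 1`: `F ≥ 2ρ - (1-κ)(b-k) - (1+κ)(k-a) ≥ 2ρ-2 ≥ ρ`. If both `k, k+1` are in
`[a,b]`: `κ_k ≥ 0` or `κ_{k+1} ≤ 0` or (`κ_k < 0 < κ_{k+1}`) each give `F ≥ 2ρ - (b-a) ≥ 2ρ-2`.
-/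

namespace Helper15.NL

section aux

variable {φ : ℝ → ℝ} {Y ρ : ℝ}

private lemma lip (hsub : ∀ t, ∃ κ : ℝ, |κ| ≤ Y ∧ ∀ t', φ t + κ * (t' - t) ≤ φ t') (s t : ℝ) :
    φ s - Y * |t - s| ≤ φ t := by
  obtain ⟨κ, hκ, h⟩ := hsub s
  have h1 := h t
  have h2 : -(Y * |t - s|) ≤ κ * (t - s) := by
    have h3 : |κ * (t - s)| ≤ Y * |t - s| := by
      rw [abs_mul]
      exact mul_le_mul_of_nonneg_right hκ (abs_nonneg _)
    exact (abs_le.mp h3).1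
  linarith

private lemma cellA (hY2 : 2 ≤ Y)
    (hsub : ∀ t, ∃ κ : ℝ, |κ| ≤ Y ∧ ∀ t', φ t + κ * (t' - t) ≤ φ t')
    (hint : ∀ k : ℤ, ρ ≤ φ k) (hhalf : ∀ k : ℤ, Y / 2 ≤ φ (k + 1 / 2)) (k : ℤ) {a b : ℝ}
    (ha : (k : ℝ) ≤ a) (hab : a ≤ b) (hb : b ≤ k + 1 / 2) : ρ ≤ φ a + φ b - (b - a) := by
  have h1 := lip hsub (k : ℝ) a
  have h2 := lip hsub ((k : ℝ) + 1 / 2) b
  rw [abs_of_nonneg (by linarith)] at h1
  rw [abs_of_nonpos (by linarith)] at h2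
  have h3 := hint k
  have h4 := hhalf k
  nlinarith [mul_nonneg (sub_nonneg.2 hab) (by linarith : (0 : ℝ) ≤ Y - 1)]

private lemma cellA' (hY2 : 2 ≤ Y)
    (hsub : ∀ t, ∃ κ : ℝ, |κ| ≤ Y ∧ ∀ t', φ t + κ * (t' - t) ≤ φ t')
    (hint : ∀ k : ℤ, ρ ≤ φ k) (hhalf : ∀ k : ℤ, Y / 2 ≤ φ (k + 1 / 2)) (k : ℤ) {a b : ℝ}
    (ha : (k : ℝ) + 1 / 2 ≤ a) (hab : a ≤ b) (hb : b ≤ k + 1) : ρ ≤ φ a + φ b - (b - a) := by
  have h1 := lip hsub ((k : ℝ) + 1 / 2) a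
  have h2 := lip hsub ((k + 1 : ℤ) : ℝ) b
  have h3 := hint (k + 1)
  have h4 := hhalf k
  push_cast at h2 h3
  rw [abs_of_nonneg (by linarith)] at h1
  rw [abs_of_nonpos (by linarith)] at h2
  nlinarith [mul_nonneg (sub_nonneg.2 hab) (by linarith : (0 : ℝ) ≤ Y - 1)]

private lemma cellB (hρ : 2 ≤ ρ) (hY : ρ ≤ Y)
    (hsub : ∀ t, ∃ κ : ℝ, |κ| ≤ Y ∧ ∀ t', φ t + κ * (t' - t) ≤ φ t')
    (hint : ∀ k : ℤ, ρ ≤ φ k) (hhalf : ∀ k : ℤ, Y / 2 ≤ φ (k + 1 / 2)) (k : ℤ) {a b : ℝ}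
    (ha : (k : ℝ) ≤ a) (ha' : a ≤ k + 1 / 2) (hb : (k : ℝ) + 1 / 2 ≤ b) (hb' : b ≤ k + 1) :
    ρ ≤ φ a + φ b - (b - a) := by
  have hY2 : 2 ≤ Y := hρ.trans hY
  obtain ⟨κ, -, h⟩ := hsub ((k : ℝ) + 1 / 2)
  have hka := h a
  have hkb := h b
  have h4 := hhalf k
  rcases le_or_gt 1 κ with hκ | hκ
  · have h5 := cellA hY2 hsub hint hhalf k ha ha' le_rfl
    nlinarith [mul_nonneg (sub_nonneg.2 hκ) (sub_nonneg.2 hb)]
  rcases le_or_gt κ (-1) with hκ' | hκ'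
  · have h5 := cellA' hY2 hsub hint hhalf k le_rfl hb hb'
    nlinarith [mul_nonneg (by linarith : (0 : ℝ) ≤ -1 - κ) (sub_nonneg.2 ha')]
  have h1 := lip hsub (k : ℝ) a
  have h2 := lip hsub ((k + 1 : ℤ) : ℝ) b
  have h3 := hint k
  have h3' := hint (k + 1)
  push_cast at h2 h3'
  rw [abs_of_nonneg (by linarith)] at h1
  rw [abs_of_nonpos (by linarith)] at h2
  -- `p = φ a + (a - k)`, `q = φ b + (k + 1 - b)`
  have hA : (1 + κ) * ρ + (Y - 1) * (Y - κ) / 2 ≤ (Y + κ) * (φ a + (a - k)) := by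
    have e1 : (1 + κ) * (ρ - Y * (a - k)) ≤ (1 + κ) * φ a :=
      mul_le_mul_of_nonneg_left (by linarith) (by linarith)
    have e2 : (Y - 1) * (Y / 2 + κ * (a - (k + 1 / 2))) ≤ (Y - 1) * φ a :=
      mul_le_mul_of_nonneg_left (by linarith) (by linarith)
    nlinarith [e1, e2]
  have hB : (1 - κ) * ρ + (Y - 1) * (Y + κ) / 2 ≤ (Y - κ) * (φ b + (k + 1 - b)) := by
    have e1 : (1 - κ) * (ρ - Y * (k + 1 - b)) ≤ (1 - κ) * φ b :=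
      mul_le_mul_of_nonneg_left (by linarith) (by linarith)
    have e2 : (Y - 1) * (Y / 2 + κ * (b - (k + 1 / 2))) ≤ (Y - 1) * φ b :=
      mul_le_mul_of_nonneg_left (by linarith) (by linarith)
    nlinarith [e1, e2]
  have hp : 0 < Y + κ := by linarith
  have hm : 0 < Y - κ := by linarith
  have hpm : 0 < (Y - κ) * (Y + κ) := mul_pos hm hp
  have hA2 := mul_le_mul_of_nonneg_left hA hm.le
  have hB2 := mul_le_mul_of_nonneg_left hB hp.le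
  have hfin : 0 ≤ (Y - ρ) * (Y * (Y - 2) + κ ^ 2) := by
    apply mul_nonneg (by linarith)
    have : 0 ≤ Y * (Y - 2) := mul_nonneg (by linarith) (by linarith)
    positivity
  have hkey : (Y - κ) * (Y + κ) * (1 + ρ) ≤
      (Y - κ) * (Y + κ) * (φ a + (a - k) + (φ b + (k + 1 - b))) := by
    nlinarith [hA2, hB2, hfin]
  have := le_of_mul_le_mul_left hkey hpm
  linarith

private lemma cell (hρ : 2 ≤ ρ) (hY : ρ ≤ Y)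
    (hsub : ∀ t, ∃ κ : ℝ, |κ| ≤ Y ∧ ∀ t', φ t + κ * (t' - t) ≤ φ t')
    (hint : ∀ k : ℤ, ρ ≤ φ k) (hhalf : ∀ k : ℤ, Y / 2 ≤ φ (k + 1 / 2)) (k : ℤ) {a b : ℝ}
    (ha : (k : ℝ) ≤ a) (hab : a ≤ b) (hb : b ≤ k + 1) : ρ ≤ φ a + φ b - (b - a) := by
  have hY2 : 2 ≤ Y := hρ.trans hY
  rcases le_total b (k + 1 / 2) with h | h
  · exact cellA hY2 hsub hint hhalf k ha hab h
  rcases le_total a (k + 1 / 2) with h' | h'
  · exact cellB hρ hY hsub hint hhalf k ha h' h hb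
  · exact cellA' hY2 hsub hint hhalf k h' hab hb

private lemma main (hρ : 2 ≤ ρ) (hY : ρ ≤ Y)
    (hsub : ∀ t, ∃ κ : ℝ, |κ| ≤ Y ∧ ∀ t', φ t + κ * (t' - t) ≤ φ t')
    (hint : ∀ k : ℤ, ρ ≤ φ k) (hhalf : ∀ k : ℤ, Y / 2 ≤ φ (k + 1 / 2))
    (htri : ∀ a b, Y * |a - b| ≤ φ a + φ b) {a b : ℝ} (hab : a ≤ b) :
    ρ ≤ φ a + φ b - (b - a) := by
  have hY2 : 2 ≤ Y := hρ.trans hY
  rcases le_or_gt 2 (b - a) with h2 | h2
  · have h1 := htri a b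
    rw [abs_sub_comm, abs_of_nonneg (by linarith)] at h1
    nlinarith [mul_nonneg (by linarith : (0 : ℝ) ≤ Y - 1) (by linarith : (0 : ℝ) ≤ b - a - 2)]
  obtain ⟨k, hk⟩ : ∃ k : ℤ, k = ⌈a⌉ := ⟨_, rfl⟩
  have hk1 : a ≤ k := by rw [hk]; exact Int.le_ceil a
  have hk2 : (k : ℝ) - 1 < a := by
    have := Int.ceil_lt_add_one a
    rw [hk]; linarith
  rcases le_total b k with hbk | hbk
  · have h := cell hρ hY hsub hint hhalf (k - 1) (a := a) (b := b)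
      (by push_cast; linarith) hab (by push_cast; linarith)
    exact h
  obtain ⟨κ, -, h⟩ := hsub (k : ℝ)
  have hka := h a
  have hkb := h b
  have hik := hint k
  rcases le_or_gt b (k + 1) with hbk1 | hbk1
  · rcases le_or_gt 1 κ with hκ | hκ
    · have h5 := cell hρ hY hsub hint hhalf (k - 1) (a := a) (b := (k : ℝ))
        (by push_cast; linarith) hk1 (by push_cast; linarith)
      nlinarith [mul_nonneg (sub_nonneg.2 hκ) (sub_nonneg.2 hbk)]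
    rcases le_or_gt κ (-1) with hκ' | hκ'
    · have h5 := cell hρ hY hsub hint hhalf k (a := (k : ℝ)) (b := b) le_rfl hbk hbk1
      nlinarith [mul_nonneg (by linarith : (0 : ℝ) ≤ -1 - κ) (sub_nonneg.2 hk1)]
    · nlinarith [mul_nonneg (by linarith : (0 : ℝ) ≤ 1 - κ) (by linarith : (0 : ℝ) ≤ k + 1 - b),
        mul_nonneg (by linarith : (0 : ℝ) ≤ 1 + κ) (by linarith : (0 : ℝ) ≤ a - (k - 1))]
  obtain ⟨κ', -, h'⟩ := hsub ((k + 1 : ℤ) : ℝ)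
  have hka' := h' a
  have hkb' := h' b
  have hik' := hint (k + 1)
  push_cast at hka' hkb' hik'
  rcases le_or_gt 0 κ with hκ | hκ
  · nlinarith [mul_nonneg hκ (by linarith : (0 : ℝ) ≤ (b - k) - (k - a))]
  rcases le_or_gt κ' 0 with hκ' | hκ'
  · nlinarith [mul_nonneg (by linarith : (0 : ℝ) ≤ -κ')
      (by linarith : (0 : ℝ) ≤ (k + 1 - a) - (b - k - 1))]
  · nlinarith [mul_nonneg (by linarith : (0 : ℝ) ≤ -κ) (sub_nonneg.2 hk1),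
      mul_nonneg hκ'.le (by linarith : (0 : ℝ) ≤ b - k - 1)]

end aux

theorem line_lemma (φ : ℝ → ℝ) (Y ρ : ℝ) (hρ : 2 ≤ ρ) (hY : ρ ≤ Y)
    (hsub : ∀ t, ∃ κ : ℝ, |κ| ≤ Y ∧ ∀ t', φ t + κ * (t' - t) ≤ φ t')
    (hint : ∀ k : ℤ, ρ ≤ φ k) (hhalf : ∀ k : ℤ, Y / 2 ≤ φ (k + 1 / 2))
    (htri : ∀ a b, Y * |a - b| ≤ φ a + φ b) (a b : ℝ) :
    ρ ≤ φ a + φ b - |a - b| := by
  rcases le_total a b with hab | hab
  · rw [abs_sub_comm, abs_of_nonneg (sub_nonneg.2 hab)]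
    exact main hρ hY hsub hint hhalf htri hab
  · rw [abs_of_nonneg (sub_nonneg.2 hab), add_comm (φ a)]
    exact main hρ hY hsub hint hhalf htri hab

end Helper15.NL
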