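import Pool.Agent.Helper15.NL.SuppFn

/-!
NL-8. Every parity class is met, from the slice property.

Proof. Given `c` (not `0` modulo two) choose `u ∈ c + 2 ℤ³` with `W u` least (`NormD.finite`). `u` is
primitive: `u = m u'` with `|m| ≥ 2` has `m` odd, `u' ≡ u` modulo two and `W u' < W u`. By
`exists_completion` there is `U ∈ GL₃(ℤ)` whose first row is `u`; permute: last row `u`. Apply the
slice property to `K' = U K` (so that `u ⬝ x` is the last coordinate of `U x`), with support function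
`y ↦ W (y ᵥ* U)`. A lattice point `x ∈ K` with `u ⬝ x = 1` has `c ⬝ x` odd.
-/

namespace Helper15.NL

open Matrix Set Helper31.Ewald

/-- Transport of a symmetric convex body by an integer matrix with integer inverse. -/
theorem SBody.image {n : ℕ} {K : Set (Fin n → ℝ)} (hK : SBody K) {V Vi : Matrix (Fin n) (Fin n) ℝ}
    (h1 : Vi * V = 1) (h2 : V * Vi = 1) : SBody ((fun x => V *ᵥ x) '' K) := by
  have hset : (fun x => V *ᵥ x) '' K = (fun y => Vi *ᵥ y) ⁻¹' K := by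
    ext y
    constructor
    · rintro ⟨x, hx, rfl⟩
      change Vi *ᵥ (V *ᵥ x) ∈ K
      rw [mulVec_mulVec, h1, one_mulVec]
      exact hx
    · intro hy
      refine ⟨Vi *ᵥ y, hy, ?_⟩
      change V *ᵥ (Vi *ᵥ y) = y
      rw [mulVec_mulVec, h2, one_mulVec]
  have hc : ∀ M : Matrix (Fin n) (Fin n) ℝ, Continuous fun x : Fin n → ℝ => M *ᵥ x := fun M =>
    continuous_const.matrix_mulVec continuous_id
  refine ⟨hK.compact.image (hc V), ?_, ?_, ?_⟩
  · rw [hset]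
    have h3 := (hc Vi).tendsto 0
    rw [mulVec_zero] at h3
    exact h3 hK.nhds0
  · rw [hset]
    intro x hx y hy a b ha hb hab
    change Vi *ᵥ (a • x + b • y) ∈ K
    rw [mulVec_add, mulVec_smul, mulVec_smul]
    exact hK.convex hx hy ha hb hab
  · rw [hset]
    intro x hx
    change Vi *ᵥ (-x) ∈ K
    rw [mulVec_neg]
    exact hK.symm _ hx

theorem oddPts {ρ : ℝ} (hρ : 0 < ρ) (hS : SliceProp ρ) {K : Set (Fin 3 → ℝ)} (hK : SBody K)
    (hz : ∀ z : Fin 3 → ℤ, z ≠ 0 → ∃ x ∈ K, ρ ≤ toR z ⬝ᵥ x) : OddPts K := by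
  classical
  intro c hc
  obtain ⟨i₀, hi₀⟩ := hc
  obtain ⟨W, hW⟩ := hK.exists_supp
  have hN := hW.normD hK
  have hWz : ∀ z : Fin 3 → ℤ, z ≠ 0 → ρ ≤ W (toR z) := by
    intro z hz0
    obtain ⟨x, hx, hxz⟩ := hz z hz0
    exact hxz.trans (hW.le _ x hx)
  -- the minimal representative of the class of `c`
  have hfin : ({u : Fin 3 → ℤ | (∃ z : Fin 3 → ℤ, u = c + (2 : ℤ) • z) ∧
      W (toR u) ≤ W (toR c)}).Finite :=
    (hN.finite (W (toR c))).subset fun u hu => hu.2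
  obtain ⟨u, ⟨⟨z₀, hz₀⟩, huc⟩, humin⟩ := Set.exists_min_image _ (fun u => W (toR u)) hfin
    ⟨c, ⟨0, by simp⟩, le_refl _⟩
  have hmin : ∀ z : Fin 3 → ℤ, W (toR u) ≤ W (toR (c + (2 : ℤ) • z)) := by
    intro z
    rcases le_total (W (toR (c + (2 : ℤ) • z))) (W (toR c)) with h | h
    · exact humin _ ⟨⟨z, rfl⟩, h⟩
    · exact huc.trans h
  have hui : Odd (u i₀) := by
    rw [hz₀]
    change Odd (c i₀ + (2 : ℤ) • z₀ i₀)
    rw [smul_eq_mul]
    exact hi₀.add_even (even_two_mul _)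
  have hu0 : u ≠ 0 := by
    rintro rfl
    simp at hui
  obtain ⟨U, m, hU, hm, hum⟩ := exists_completion u hu0
  have humi : ∀ i, u i = m * U 0 i := fun i => by
    rw [hum]; simp
  have hmodd : Odd m := by
    have h1 := hui
    rw [humi i₀] at h1
    exact (Int.odd_mul.1 h1).1
  obtain ⟨k, hk⟩ := hmodd
  have hU0 : U 0 ≠ 0 := by
    intro h
    apply hu0
    rw [hum, h, smul_zero]
  have hm1 : m = 1 ∨ m = -1 := by
    have h1 : U 0 = c + (2 : ℤ) • (z₀ - k • U 0) := by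
      have h2 : u = c + (2 : ℤ) • z₀ := hz₀
      funext i
      have h3 := congrFun h2 i
      rw [humi i, hk] at h3
      simp only [Pi.add_apply, Pi.smul_apply, Pi.sub_apply, smul_eq_mul] at h3 ⊢
      linarith
    have h2 : W (toR u) ≤ W (toR (U 0)) := by
      have h3 := hmin (z₀ - k • U 0)
      rwa [← h1] at h3
    have h4 : W (toR u) = |(m : ℝ)| * W (toR (U 0)) := by
      rw [hum, toR_smul, hN.smul]
    have h5 := hWz _ hU0
    have h6 : |(m : ℝ)| ≤ 1 := by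
      by_contra hcon
      push Not at hcon
      rw [h4] at h2
      nlinarith
    have h7 : |m| ≤ 1 := by exact_mod_cast h6
    have h8 := abs_le.1 h7
    have h9 : m ≠ 0 := hm
    omega
  -- the matrix with last row `u`
  let V : Matrix (Fin 3) (Fin 3) ℤ := Matrix.of ![U 1, U 2, u]
  have hV2 : V 2 = u := rfl
  have hVdet : IsUnit V.det := by
    have h1 : V.det = m * U.det := by
      rw [Matrix.det_fin_three, Matrix.det_fin_three]
      have e0 : ∀ j, V 0 j = U 1 j := fun j => rfl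
      have e1 : ∀ j, V 1 j = U 2 j := fun j => rfl
      have e2 : ∀ j, V 2 j = m * U 0 j := fun j => humi j
      simp only [e0, e1, e2]
      ring
    rw [h1]
    refine IsUnit.mul ?_ hU
    rcases hm1 with h | h
    · rw [h]; exact isUnit_one
    · rw [h]; exact isUnit_one.neg
  have hVi1 : V⁻¹ * V = 1 := Matrix.nonsing_inv_mul V hVdet
  have hVi2 : V * V⁻¹ = 1 := Matrix.mul_nonsing_inv V hVdet
  let Vr : Matrix (Fin 3) (Fin 3) ℝ := V.map (Int.cast : ℤ → ℝ)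
  let Vir : Matrix (Fin 3) (Fin 3) ℝ := (V⁻¹).map (Int.cast : ℤ → ℝ)
  have hmap : ∀ A B : Matrix (Fin 3) (Fin 3) ℤ,
      (A * B).map (Int.cast : ℤ → ℝ) = A.map (Int.cast : ℤ → ℝ) * B.map (Int.cast : ℤ → ℝ) := by
    intro A B
    exact Matrix.map_mul (f := Int.castRingHom ℝ)
  have hone : (1 : Matrix (Fin 3) (Fin 3) ℤ).map (Int.cast : ℤ → ℝ) = 1 :=
    Matrix.map_one _ Int.cast_zero Int.cast_one
  have hr1 : Vir * Vr = 1 := by
    rw [← hmap, hVi1, hone]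
  have hr2 : Vr * Vir = 1 := by
    rw [← hmap, hVi2, hone]
  have hK' := hK.image hr1 hr2
  have hS' : Supp ((fun x => Vr *ᵥ x) '' K) (fun y => W (y ᵥ* Vr)) := by
    constructor
    · rintro y _ ⟨x, hx, rfl⟩
      change y ⬝ᵥ (Vr *ᵥ x) ≤ W (y ᵥ* Vr)
      rw [dotProduct_mulVec]
      exact hW.le _ x hx
    · intro y
      obtain ⟨x, hx, hxy⟩ := hW.att (y ᵥ* Vr)
      refine ⟨Vr *ᵥ x, ⟨x, hx, rfl⟩, ?_⟩
      rw [dotProduct_mulVec]
      exact hxy
  have hvm : ∀ z : Fin 3 → ℤ, toR z ᵥ* Vr = toR (z ᵥ* V) := fun z => (toR_vecMul z V).symm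
  have he3 : (![0, 0, 1] : Fin 3 → ℝ) = toR (![0, 0, 1] : Fin 3 → ℤ) := by
    funext i
    fin_cases i <;> simp [toR]
  have he3V : (![0, 0, 1] : Fin 3 → ℤ) ᵥ* V = u := by
    funext j
    simp [vecMul, dotProduct, Fin.sum_univ_three, V]
  obtain ⟨x', hx', hx'1⟩ := hS _ _ hK' hS' (by
    intro z hz0
    rw [hvm]
    refine hWz _ fun h => hz0 ?_
    have h1 : z ᵥ* V ᵥ* V⁻¹ = 0 := by rw [h, zero_vecMul]
    rwa [vecMul_vecMul, hVi2, vecMul_one] at h1) (by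
    intro z
    change W (![0, 0, 1] ᵥ* Vr) ≤ W ((![0, 0, 1] + (2 : ℝ) • toR z) ᵥ* Vr)
    have h1 : (![0, 0, 1] : Fin 3 → ℝ) ᵥ* Vr = toR u := by
      rw [he3, hvm, he3V]
    have h2 : ((![0, 0, 1] : Fin 3 → ℝ) + (2 : ℝ) • toR z) ᵥ* Vr =
        toR (c + (2 : ℤ) • (z₀ + z ᵥ* V)) := by
      rw [add_vecMul, h1, smul_vecMul, hvm, smul_add, ← add_assoc, ← hz₀, toR_add, toR_smul]
      norm_num
    rw [h1, h2]
    exact hmin _)
  obtain ⟨y, hy, hyx⟩ := hx'
  -- the integer point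
  let x : Fin 3 → ℤ := V⁻¹ *ᵥ x'
  have hVx : V *ᵥ x = x' := by
    change V *ᵥ (V⁻¹ *ᵥ x') = x'
    rw [mulVec_mulVec, hVi2, one_mulVec]
  have hxy : toR x = y := by
    have h1 : toR (V⁻¹ *ᵥ x') = Vir *ᵥ toR x' := toR_mulVec x' V⁻¹
    change toR (V⁻¹ *ᵥ x') = y
    rw [h1, ← hyx]
    change Vir *ᵥ (Vr *ᵥ y) = y
    rw [mulVec_mulVec, hr1, one_mulVec]
  refine ⟨x, by rw [hxy]; exact hy, ?_⟩
  have h1 : u ⬝ᵥ x = 1 := by
    have h2 := congrFun hVx 2
    rw [hx'1] at h2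
    exact h2
  have h2 : c ⬝ᵥ x = 1 - 2 * (z₀ ⬝ᵥ x) := by
    have h3 : u ⬝ᵥ x = c ⬝ᵥ x + 2 * (z₀ ⬝ᵥ x) := by
      rw [hz₀, add_dotProduct, smul_dotProduct, smul_eq_mul]
    linarith
  rw [h2]
  exact odd_one.sub_even (even_two_mul _)

end Helper15.NL
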