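import Pool.Agent.Helper15.NL.Slice
import Pool.Agent.Helper15.NL.Parity
import Pool.Agent.Helper15.NL.Basis3
import Pool.Agent.Helper15.NL.Width3

/-!
NL-12. Nill's conjecture in dimension three when `0` has lattice distance at least three from all
facets.
-/

namespace Helper15.NL

open Matrix Set Helper31.Ewald

theorem main3 {P : Set (Fin 3 → ℝ)} (hP : IsSmoothPolytope P)
    (h0 : (0 : Fin 3 → ℝ) ∈ interior P)
    (hdeep : ∀ u : Fin 3 → ℤ, u ≠ 0 → ∃ x ∈ P, toR u ⬝ᵥ x ≤ -3) :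
    ∃ b : Matrix (Fin 3) (Fin 3) ℤ, IsUnit b.det ∧ ∀ i, toR (b i) ∈ P ∧ -toR (b i) ∈ P := by
  have hB := body_of_smooth hP h0
  have hK : SBody {x : Fin 3 → ℝ | x ∈ P ∧ -x ∈ P} :=
    ⟨hB.compact, hB.nhds0, hB.convex, hB.symm⟩
  obtain ⟨w, hw⟩ := hP.exists_minVert ⟨0, interior_subset h0⟩
  have hN : ∀ p, p ≠ 0 → p ⬝ᵥ w p ≤ -3 := fun p hp => by
    obtain ⟨x, hx, hx'⟩ := hdeep p hp
    have h1 := (hw.le p x hx).trans hx'
    exact_mod_cast h1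
  have hz : ∀ z : Fin 3 → ℤ, z ≠ 0 →
      ∃ x ∈ {x : Fin 3 → ℝ | x ∈ P ∧ -x ∈ P}, (7 / 3 : ℝ) ≤ toR z ⬝ᵥ x := by
    intro z hz
    obtain ⟨x, hx, hx', hzx⟩ := width_of_key hP h0 (ω := 7 / 3) (by norm_num) hw (u := z)
      (fun k p => by
        have h1 := key3 hP h0 hw hN hz k p
        have h2 : (17 : ℝ) * ((p ⬝ᵥ w p + (p + (k : ℤ) • z) ⬝ᵥ w (p + (k : ℤ) • z) : ℤ) : ℝ)
            ≤ -(40 * (k : ℝ)) := by exact_mod_cast h1
        have h3 : (0 : ℝ) ≤ (k : ℝ) := Nat.cast_nonneg k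
        linarith)
    exact ⟨x, ⟨hx, hx'⟩, hzx.ge⟩
  have hodd := oddPts (by norm_num : (0 : ℝ) < 7 / 3) slice_point hK hz
  obtain ⟨b, hb, hbx⟩ := exists_basis3 hK.convex hK.symm hodd
  exact ⟨b, hb, fun i => hbx i⟩

end Helper15.NL
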