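import Pool.Agent.Helper15.NL.Defs

/-!
NL-2. The planar transference inequality with constant `4/3`, for a reduced basis.

Proof. Suppose not; let `w` be one of the four functionals. There is `y` with `h y < w ⬝ y`; since
`h y ≥ 0` we may scale: `q` with `w ⬝ q = 1`, `h q < 1`. For `w = (0,1)`: `q1 = (s, 1)`; for
`w = (1,0)`: `q2 = (1, s')`. `|s| < 1`: if `s ≥ 1` then `(1,1) = (1 - 1/s) (0,1) + (1/s) q1` gives
`h (1,1) < h (0,1)` (as `h q1 < 1 < 4/3 ≤ h (0,1)`), against `r1`; same for `s ≤ -1`, and for `s'`.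
(A) `s s' ≤ 0`: `(1 - s s') (0,1) = q1 - s q2`, `(1 - s s') (1,0) = q2 - s' q1`, so
`(1 + |s s'|) 4/3 < 1 + |s|` and `< 1 + |s'|`; with `m = min |s| |s'|`: `4 m² - 3 m + 1 < 0`, false.
(B) `s, s' > 0`: use `w = (1,-1)`: `q3 = (x, x - 1)`. `(1 - s s') (1,1) = (1-s') q1 + (1-s) q2`,
so `4/3 (1 - s s') < 2 - s - s'`, i.e. `1 < (3-4s)(3-4s')`, and both factors are positive (they are
`> -1`). If `0 ≤ x ≤ 1`: `(1 - x + s' x) (1,0) = (1-x) q2 + s' q3`,
`(x + s - s x) (0,1) = x q1 - s q3`: so `1 - x < s' (3 - 4x)` and `x < s (4x - 1)`; with `t = 4x - 1`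
(so `0 < t < 2`): `t (3-4s) < 2t - 1`, `(2-t) (3-4s') < 3 - 2t`, product
`t (2-t) (3-4s)(3-4s') < (2t-1)(3-2t) = 4 t (2-t) - 3 ≤ t (2-t)`: contradiction.
If `x > 1`: `(x - s (x-1)) (1,0) = q3 - (x-1) q1`,
`(x - s (x-1)) (1,1) = (1-s) q3 + q1`; so `4/3 (x - s(x-1)) < x` and `< 2 - s`, giving
`12 s² - 15 s + 6 < 0`, false. If `x < 0` the same with the coordinates exchanged.
(C) `s, s' < 0`: reflect (replace `h (a, b)` by `h (-a, b)`), use `w = (1,1)`.
-/

namespace Helper15.NL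

open Matrix Set Helper31.Ewald

private theorem pc_comb (N : ℝ → ℝ → ℝ) (add : ∀ a b c d, N (a + c) (b + d) ≤ N a b + N c d)
    (smul : ∀ c a b, N (c * a) (c * b) = |c| * N a b) {α β γ u₁ u₂ v₁ v₂ w₁ w₂ : ℝ}
    (h1 : α * u₁ = β * v₁ + γ * w₁) (h2 : α * u₂ = β * v₂ + γ * w₂) :
    |α| * N u₁ u₂ ≤ |β| * N v₁ v₂ + |γ| * N w₁ w₂ := by
  rw [← smul α, h1, h2, ← smul β, ← smul γ]
  exact add _ _ _ _

private theorem pc_gt (N : ℝ → ℝ → ℝ) (add : ∀ a b c d, N (a + c) (b + d) ≤ N a b + N c d)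
    (smul : ∀ c a b, N (c * a) (c * b) = |c| * N a b)
    (h10 : 4 / 3 ≤ N 1 0) (h11 : 4 / 3 ≤ N 1 1)
    {s x : ℝ} (hs : 0 < s) (hs1 : s < 1) (n1 : N s 1 < 1) (n3 : N x (x - 1) < 1) (hx : 1 < x) :
    False := by
  have hD : 0 < x - s * (x - 1) := by nlinarith
  have c1 := pc_comb N add smul (α := x - s * (x - 1)) (β := 1) (γ := -(x - 1))
    (u₁ := 1) (u₂ := 0) (v₁ := x) (v₂ := x - 1) (w₁ := s) (w₂ := 1) (by ring) (by ring)
  have c2 := pc_comb N add smul (α := x - s * (x - 1)) (β := 1 - s) (γ := 1)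
    (u₁ := 1) (u₂ := 1) (v₁ := x) (v₂ := x - 1) (w₁ := s) (w₂ := 1) (by ring) (by ring)
  rw [abs_of_pos hD, abs_neg, abs_of_pos (by linarith : 0 < x - 1), abs_one] at c1
  rw [abs_of_pos hD, abs_of_pos (by linarith : 0 < 1 - s), abs_one] at c2
  have d1 : 4 * (x - s * (x - 1)) < 3 * x := by nlinarith
  have d2 : 4 * (x - s * (x - 1)) < 6 - 3 * s := by nlinarith
  have h4 : 0 < 4 * s - 1 := by nlinarith
  have h5 : 4 * s < x * (4 * s - 1) := by nlinarith
  have h6 : 4 * x * (1 - s) < 6 - 7 * s := by nlinarith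
  have h7 : 16 * s * (1 - s) < (6 - 7 * s) * (4 * s - 1) := by
    have := mul_lt_mul_of_pos_left h5 (by linarith : (0 : ℝ) < 4 * (1 - s))
    have := mul_lt_mul_of_pos_right h6 h4
    nlinarith
  nlinarith [sq_nonneg (s - 5 / 8)]

private theorem pc_caseB (N : ℝ → ℝ → ℝ) (add : ∀ a b c d, N (a + c) (b + d) ≤ N a b + N c d)
    (smul : ∀ c a b, N (c * a) (c * b) = |c| * N a b)
    (h10 : 4 / 3 ≤ N 1 0) (h01 : 4 / 3 ≤ N 0 1) (h11 : 4 / 3 ≤ N 1 1)
    {s s' x : ℝ} (hs : 0 < s) (hs1 : s < 1) (hs' : 0 < s') (hs1' : s' < 1)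
    (n1 : N s 1 < 1) (n2 : N 1 s' < 1) (n3 : N x (x - 1) < 1) : False := by
  rcases lt_or_ge 1 x with hx | hx
  · exact pc_gt N add smul h10 h11 hs hs1 n1 n3 hx
  rcases lt_or_ge x 0 with hx0 | hx0
  · -- exchange the coordinates
    refine pc_gt (fun a b => N b a) (fun a b c d => add b a d c) (fun c a b => smul c b a)
      h01 h11 hs' hs1' n2 (x := 1 - x) ?_ (by linarith)
    have := smul (-1) x (x - 1)
    rw [abs_neg, abs_one, one_mul] at this
    have e : N (1 - x - 1) (1 - x) = N (-1 * x) (-1 * (x - 1)) := by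
      congr 1 <;> ring
    change N (1 - x - 1) (1 - x) < 1
    rw [e, this]
    exact n3
  -- `0 ≤ x ≤ 1`
  have hD : 0 < 1 - s * s' := by nlinarith
  have c0 := pc_comb N add smul (α := 1 - s * s') (β := 1 - s') (γ := 1 - s)
    (u₁ := 1) (u₂ := 1) (v₁ := s) (v₂ := 1) (w₁ := 1) (w₂ := s') (by ring) (by ring)
  rw [abs_of_pos hD, abs_of_pos (by linarith : 0 < 1 - s'), abs_of_pos (by linarith : 0 < 1 - s)]
    at c0
  have d0 : 3 * s + 3 * s' - 4 * (s * s') < 2 := by nlinarith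
  have hp : 1 < (3 - 4 * s) * (3 - 4 * s') := by nlinarith
  have hA : 0 < 3 - 4 * s := by
    by_contra hA
    rw [not_lt] at hA
    rcases le_or_gt (3 - 4 * s') 0 with h2 | h2
    · nlinarith
    · nlinarith
  have hB : 0 < 3 - 4 * s' := by
    by_contra hB
    rw [not_lt] at hB
    nlinarith
  have hE1 : 0 ≤ 1 - x + s' * x := by nlinarith
  have hE2 : 0 < x + s - s * x := by nlinarith
  have c1 := pc_comb N add smul (α := 1 - x + s' * x) (β := 1 - x) (γ := s')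
    (u₁ := 1) (u₂ := 0) (v₁ := 1) (v₂ := s') (w₁ := x) (w₂ := x - 1) (by ring) (by ring)
  have c2 := pc_comb N add smul (α := x + s - s * x) (β := x) (γ := -s)
    (u₁ := 0) (u₂ := 1) (v₁ := s) (v₂ := 1) (w₁ := x) (w₂ := x - 1) (by ring) (by ring)
  rw [abs_of_nonneg hE1, abs_of_nonneg (by linarith : 0 ≤ 1 - x), abs_of_pos hs'] at c1
  rw [abs_of_pos hE2, abs_neg, abs_of_nonneg hx0, abs_of_pos hs] at c2
  have d1 : 1 - x < s' * (3 - 4 * x) := by nlinarith
  have d2 : x < s * (4 * x - 1) := by nlinarith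
  have t0 : 0 < 4 * x - 1 := by
    by_contra hc
    rw [not_lt] at hc
    nlinarith
  have t2 : 0 < 3 - 4 * x := by
    by_contra hc
    rw [not_lt] at hc
    nlinarith
  have g1 : (4 * x - 1) * (3 - 4 * s) < 2 * (4 * x - 1) - 1 := by nlinarith
  have g2 : (3 - 4 * x) * (3 - 4 * s') < 3 - 2 * (4 * x - 1) := by nlinarith
  have p1 : 0 < (4 * x - 1) * (3 - 4 * s) := mul_pos t0 hA
  have p2 : 0 < (3 - 4 * x) * (3 - 4 * s') := mul_pos t2 hB
  have g3 := mul_lt_mul'' g1 g2 p1.le p2.le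
  have g4 : (4 * x - 1) * (3 - 4 * x) < (4 * x - 1) * (3 - 4 * s) * ((3 - 4 * x) * (3 - 4 * s')) := by
    have h1 : 0 < (4 * x - 1) * (3 - 4 * x) := mul_pos t0 t2
    have h2 := mul_lt_mul_of_pos_left hp h1
    nlinarith
  nlinarith [sq_nonneg (4 * x - 2)]

private theorem pc_main (N : ℝ → ℝ → ℝ) (add : ∀ a b c d, N (a + c) (b + d) ≤ N a b + N c d)
    (smul : ∀ c a b, N (c * a) (c * b) = |c| * N a b)
    (h10 : 4 / 3 ≤ N 1 0) (h01 : 4 / 3 ≤ N 0 1) (h11 : 4 / 3 ≤ N 1 1) (h1m : 4 / 3 ≤ N 1 (-1))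
    (r1 : N 0 1 ≤ N 1 1) (r2 : N 0 1 ≤ N 1 (-1)) (r3 : N 1 0 ≤ N 1 1) (r4 : N 1 0 ≤ N 1 (-1))
    (s s' x x' : ℝ) (n1 : N s 1 < 1) (n2 : N 1 s' < 1) (n3 : N x (x - 1) < 1)
    (n4 : N x' (1 - x') < 1) : False := by
  have neg : ∀ a b, N (-a) (-b) = N a b := by
    intro a b
    have := smul (-1) a b
    rw [abs_neg, abs_one, one_mul] at this
    rw [← this]
    congr 1 <;> ring
  have hs1 : s < 1 := by
    by_contra hc
    rw [not_lt] at hc
    have c := pc_comb N add smul (α := s) (β := s - 1) (γ := 1)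
      (u₁ := 1) (u₂ := 1) (v₁ := 0) (v₂ := 1) (w₁ := s) (w₂ := 1) (by ring) (by ring)
    rw [abs_of_pos (by linarith : 0 < s), abs_of_nonneg (by linarith : 0 ≤ s - 1), abs_one] at c
    nlinarith
  have hs2 : -1 < s := by
    by_contra hc
    rw [not_lt] at hc
    have c := pc_comb N add smul (α := s) (β := s + 1) (γ := -1)
      (u₁ := 1) (u₂ := -1) (v₁ := 0) (v₂ := -1) (w₁ := -s) (w₂ := -1) (by ring) (by ring)
    rw [abs_of_neg (by linarith : s < 0), abs_of_nonpos (by linarith : s + 1 ≤ 0), abs_neg,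
      abs_one, neg s 1] at c
    have e := neg 0 1
    rw [neg_zero] at e
    rw [e] at c
    nlinarith
  have hs1' : s' < 1 := by
    by_contra hc
    rw [not_lt] at hc
    have c := pc_comb N add smul (α := s') (β := s' - 1) (γ := 1)
      (u₁ := 1) (u₂ := 1) (v₁ := 1) (v₂ := 0) (w₁ := 1) (w₂ := s') (by ring) (by ring)
    rw [abs_of_pos (by linarith : 0 < s'), abs_of_nonneg (by linarith : 0 ≤ s' - 1), abs_one] at c
    nlinarith
  have hs2' : -1 < s' := by
    by_contra hc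
    rw [not_lt] at hc
    have c := pc_comb N add smul (α := -s') (β := -s' - 1) (γ := 1)
      (u₁ := 1) (u₂ := -1) (v₁ := 1) (v₂ := 0) (w₁ := 1) (w₂ := s') (by ring) (by ring)
    rw [abs_of_pos (by linarith : 0 < -s'), abs_of_nonneg (by linarith : 0 ≤ -s' - 1),
      abs_one] at c
    nlinarith
  rcases le_or_gt (s * s') 0 with hss | hss
  · -- opposite signs
    have c1 := pc_comb N add smul (α := 1 - s * s') (β := 1) (γ := -s)
      (u₁ := 0) (u₂ := 1) (v₁ := s) (v₂ := 1) (w₁ := 1) (w₂ := s') (by ring) (by ring)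
    have c2 := pc_comb N add smul (α := 1 - s * s') (β := 1) (γ := -s')
      (u₁ := 1) (u₂ := 0) (v₁ := 1) (v₂ := s') (w₁ := s) (w₂ := 1) (by ring) (by ring)
    rw [abs_of_pos (by linarith : 0 < 1 - s * s'), abs_one, abs_neg] at c1 c2
    have e : s * s' = -(|s| * |s'|) := by
      rw [← abs_mul, abs_of_nonpos hss]; ring
    rw [e] at c1 c2
    have a0 := abs_nonneg s
    have b0 := abs_nonneg s'
    have q0 : 0 ≤ |s| * |s'| := mul_nonneg a0 b0
    have d1 : 1 + 4 * (|s| * |s'|) < 3 * |s| := by nlinarith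
    have d2 : 1 + 4 * (|s| * |s'|) < 3 * |s'| := by nlinarith
    rcases le_total |s| |s'| with hle | hle
    · nlinarith [sq_nonneg (|s| - 3 / 8), mul_le_mul_of_nonneg_left hle a0]
    · nlinarith [sq_nonneg (|s'| - 3 / 8), mul_le_mul_of_nonneg_left hle b0]
  · rcases lt_or_ge 0 s with hs | hs
    · have hs' : 0 < s' := by
        by_contra hc
        rw [not_lt] at hc
        nlinarith
      exact pc_caseB N add smul h10 h01 h11 hs hs1 hs' hs1' n1 n2 n3
    · have hs0 : s < 0 := lt_of_le_of_ne hs (by rintro rfl; simp at hss)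
      have hs' : s' < 0 := by
        by_contra hc
        rw [not_lt] at hc
        nlinarith
      -- reflect
      refine pc_caseB (fun a b => N (-a) b) (s := -s) (s' := -s') (x := x')
        (fun a b c d => ?_) (fun c a b => ?_) ?_ ?_ ?_ (by linarith) (by linarith)
        (by linarith) (by linarith) ?_ ?_ ?_
      · have := add (-a) b (-c) d
        rwa [← neg_add] at this
      · have := smul c (-a) b
        rwa [mul_neg] at this
      · have := neg 1 0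
        rw [neg_zero] at this
        change 4 / 3 ≤ N (-1) 0
        rw [this]; exact h10
      · change 4 / 3 ≤ N (-0) 1
        rw [neg_zero]; exact h01
      · have := neg 1 (-1)
        rw [neg_neg] at this
        change 4 / 3 ≤ N (-1) 1
        rw [this]; exact h1m
      · change N (- -s) 1 < 1
        rw [neg_neg]; exact n1
      · change N (-1) (-s') < 1
        rw [neg 1 s']; exact n2
      · change N (-x') (x' - 1) < 1
        have := neg x' (1 - x')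
        rw [neg_sub] at this
        rw [this]; exact n4

theorem plane_core (h : (Fin 2 → ℝ) → ℝ) (hh : NormD h)
    (h10 : 4 / 3 ≤ h ![1, 0]) (h01 : 4 / 3 ≤ h ![0, 1])
    (h11 : 4 / 3 ≤ h ![1, 1]) (h1m : 4 / 3 ≤ h ![1, -1])
    (r1 : h ![0, 1] ≤ h ![1, 1]) (r2 : h ![0, 1] ≤ h ![1, -1])
    (r3 : h ![1, 0] ≤ h ![1, 1]) (r4 : h ![1, 0] ≤ h ![1, -1]) :
    ∃ w : Fin 2 → ℝ, (w = ![0, 1] ∨ w = ![1, 0] ∨ w = ![1, -1] ∨ w = ![1, 1]) ∧
      ∀ y, w ⬝ᵥ y ≤ h y := by
  by_contra hcon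
  push Not at hcon
  have hnn : ∀ y, 0 ≤ h y := by
    intro y
    obtain ⟨r, hr, hr'⟩ := hh.pos
    exact le_trans (mul_nonneg hr.le (Finset.sum_nonneg fun i _ => abs_nonneg _)) (hr' y)
  let N : ℝ → ℝ → ℝ := fun a b => h ![a, b]
  have add : ∀ a b c d, N (a + c) (b + d) ≤ N a b + N c d := by
    intro a b c d
    have := hh.add ![a, b] ![c, d]
    have e : (![a, b] : Fin 2 → ℝ) + ![c, d] = ![a + c, b + d] := by
      ext i; fin_cases i <;> rfl
    rw [e] at this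
    exact this
  have smul : ∀ c a b, N (c * a) (c * b) = |c| * N a b := by
    intro c a b
    have := hh.smul c ![a, b]
    have e : c • (![a, b] : Fin 2 → ℝ) = ![c * a, c * b] := by
      ext i; fin_cases i <;> rfl
    rw [e] at this
    exact this
  have scale : ∀ w : Fin 2 → ℝ, (∃ y, h y < w ⬝ᵥ y) →
      ∃ a b : ℝ, w 0 * a + w 1 * b = 1 ∧ N a b < 1 := by
    rintro w ⟨y, hy⟩
    have h1 : 0 < w ⬝ᵥ y := lt_of_le_of_lt (hnn y) hy
    refine ⟨(w ⬝ᵥ y)⁻¹ * y 0, (w ⬝ᵥ y)⁻¹ * y 1, ?_, ?_⟩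
    · have e : w ⬝ᵥ y = w 0 * y 0 + w 1 * y 1 := by
        simp [dotProduct, Fin.sum_univ_two]
      field_simp
      rw [e]
    · rw [smul, abs_of_pos (inv_pos.2 h1)]
      have e : N (y 0) (y 1) = h y := by
        change h ![y 0, y 1] = h y
        congr 1
        ext i; fin_cases i <;> rfl
      rw [e, inv_mul_lt_iff₀ h1, mul_one]
      exact hy
  obtain ⟨s, b1, e1, n1⟩ := scale _ (hcon ![0, 1] (by simp))
  obtain ⟨a2, s', e2, n2⟩ := scale _ (hcon ![1, 0] (by simp))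
  obtain ⟨x, b3, e3, n3⟩ := scale _ (hcon ![1, -1] (by simp))
  obtain ⟨x', b4, e4, n4⟩ := scale _ (hcon ![1, 1] (by simp))
  simp only [Matrix.cons_val_zero, Matrix.cons_val_one, Matrix.cons_val_fin_one] at e1 e2 e3 e4
  have f1 : b1 = 1 := by linarith
  have f2 : a2 = 1 := by linarith
  have f3 : b3 = x - 1 := by linarith
  have f4 : b4 = 1 - x' := by linarith
  subst f1 f2 f3 f4
  exact pc_main N add smul h10 h01 h11 h1m r1 r2 r3 r4 s s' x x' n1 n2 n3 n4

end Helper15.NL
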