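import Pool.Agent.Helper15.NL.SuppFn
import Pool.Agent.Helper15.NL.PlaneCore

/-!
NL-3. The planar transference inequality with constant `4/3`.

Proof. Among the integer matrices `Z` of determinant `±1` choose one with `h (Z 0) + h (Z 1)` least
(`NormD.finite`). Then `h (Z 0), h (Z 1) ≤ h (Z 0 ± Z 1)`. Apply `plane_core` to
`h' a = h (a 0 • Z 0 + a 1 • Z 1)`; the `w` found there gives the integer functional `Z⁻¹ w`.
-/

namespace Helper15.NL

open Matrix Set Helper31.Ewald

/-- the determinant of a pair of integer vectors -/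
private def dt (u v : Fin 2 → ℤ) : ℤ := u 0 * v 1 - u 1 * v 0

private theorem exists_min_pair (h : (Fin 2 → ℝ) → ℝ) (hh : NormD h) :
    ∃ u v : Fin 2 → ℤ, dt u v * dt u v = 1 ∧
      ∀ u' v' : Fin 2 → ℤ, dt u' v' * dt u' v' = 1 → h (toR u) + h (toR v) ≤
        h (toR u') + h (toR v') := by
  let R : ℝ := h (toR ![1, 0]) + h (toR ![0, 1])
  let S : Set ((Fin 2 → ℤ) × (Fin 2 → ℤ)) :=
    {p | dt p.1 p.2 * dt p.1 p.2 = 1 ∧ h (toR p.1) + h (toR p.2) ≤ R}
  have hS : S.Finite := by
    apply ((hh.finite R).prod (hh.finite R)).subset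
    intro p hp
    have h1 := hh.nonneg (toR p.1)
    have h2 := hh.nonneg (toR p.2)
    have h3 := hp.2
    exact ⟨by change h (toR p.1) ≤ R; linarith, by change h (toR p.2) ≤ R; linarith⟩
  have hne : S.Nonempty := ⟨(![1, 0], ![0, 1]), by simp [dt], le_refl R⟩
  obtain ⟨p, hp, hmin⟩ := Set.exists_min_image S (fun p => h (toR p.1) + h (toR p.2)) hS hne
  refine ⟨p.1, p.2, hp.1, fun u' v' hd => ?_⟩
  by_cases hR : h (toR u') + h (toR v') ≤ R
  · exact hmin (u', v') ⟨hd, hR⟩
  · have h3 := hp.2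
    linarith

theorem plane (h : (Fin 2 → ℝ) → ℝ) (hh : NormD h)
    (h43 : ∀ z : Fin 2 → ℤ, z ≠ 0 → 4 / 3 ≤ h (toR z)) :
    ∃ w : Fin 2 → ℤ, w ≠ 0 ∧ ∀ y, toR w ⬝ᵥ y ≤ h y := by
  obtain ⟨u, v, hd, hmin⟩ := exists_min_pair h hh
  have hd0 : dt u v ≠ 0 := by
    intro h0
    rw [h0] at hd
    simp at hd
  have hdR : ((u 0 : ℝ) * v 1 - u 1 * v 0) * ((u 0 : ℝ) * v 1 - u 1 * v 0) = 1 := by
    have : ((dt u v * dt u v : ℤ) : ℝ) = ((1 : ℤ) : ℝ) := by rw [hd]
    simpa [dt] using this
  -- the transported norm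
  let L : (Fin 2 → ℝ) → (Fin 2 → ℝ) := fun a => a 0 • toR u + a 1 • toR v
  have hL0 : ∀ a, L a 0 = a 0 * u 0 + a 1 * v 0 := fun a => rfl
  have hL1 : ∀ a, L a 1 = a 0 * u 1 + a 1 * v 1 := fun a => rfl
  have hLint : ∀ z : Fin 2 → ℤ, L (toR z) = toR (z 0 • u + z 1 • v) := by
    intro z
    ext i
    simp [L, toR]
  have hN : NormD (fun a => h (L a)) := by
    refine ⟨?_, ?_, ?_⟩
    · intro a b
      have e : L (a + b) = L a + L b := by
        ext i
        simp only [L, Pi.add_apply, Pi.smul_apply, smul_eq_mul]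
        ring
      change h (L (a + b)) ≤ h (L a) + h (L b)
      rw [e]
      exact hh.add _ _
    · intro c a
      have e : L (c • a) = c • L a := by
        ext i
        simp only [L, Pi.add_apply, Pi.smul_apply, smul_eq_mul]
        ring
      change h (L (c • a)) = |c| * h (L a)
      rw [e]
      exact hh.smul _ _
    · obtain ⟨r, hr, hra⟩ := hh.pos
      let M : ℝ := |(u 0 : ℝ)| + |(u 1 : ℝ)| + |(v 0 : ℝ)| + |(v 1 : ℝ)|
      have hM0 : 0 ≤ M := by positivity
      have hMne : M ≠ 0 := by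
        intro hM
        have h1 := abs_nonneg (u 0 : ℝ)
        have h2 := abs_nonneg (u 1 : ℝ)
        have h3 := abs_nonneg (v 0 : ℝ)
        have h4 := abs_nonneg (v 1 : ℝ)
        have e1 : (u 0 : ℝ) = 0 := abs_eq_zero.1 (by simp only [M] at hM; linarith)
        have e2 : (u 1 : ℝ) = 0 := abs_eq_zero.1 (by simp only [M] at hM; linarith)
        rw [e1, e2] at hdR
        simp at hdR
      have hM : 0 < M := lt_of_le_of_ne hM0 (Ne.symm hMne)
      refine ⟨r / (M + M), by positivity, fun a => ?_⟩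
      change r / (M + M) * ∑ i, |a i| ≤ h (L a)
      refine le_trans ?_ (hra (L a))
      rw [Fin.sum_univ_two, Fin.sum_univ_two]
      let D : ℝ := (u 0 : ℝ) * v 1 - u 1 * v 0
      have hD : |D| = 1 := by
        have : |D| * |D| = 1 := by rw [← abs_mul, hdR, abs_one]
        nlinarith [abs_nonneg D]
      have ea0 : D * a 0 = L a 0 * v 1 - L a 1 * v 0 := by
        rw [hL0, hL1]; ring
      have ea1 : D * a 1 = L a 1 * u 0 - L a 0 * u 1 := by
        rw [hL0, hL1]; ring
      have hb : 0 ≤ |L a 0| + |L a 1| := by positivity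
      have hv0 : |(v 0 : ℝ)| ≤ M := by
        have h1 := abs_nonneg (u 0 : ℝ)
        have h2 := abs_nonneg (u 1 : ℝ)
        have h4 := abs_nonneg (v 1 : ℝ)
        simp only [M]; linarith
      have hv1 : |(v 1 : ℝ)| ≤ M := by
        have h1 := abs_nonneg (u 0 : ℝ)
        have h2 := abs_nonneg (u 1 : ℝ)
        have h4 := abs_nonneg (v 0 : ℝ)
        simp only [M]; linarith
      have hu0 : |(u 0 : ℝ)| ≤ M := by
        have h1 := abs_nonneg (v 0 : ℝ)
        have h2 := abs_nonneg (u 1 : ℝ)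
        have h4 := abs_nonneg (v 1 : ℝ)
        simp only [M]; linarith
      have hu1 : |(u 1 : ℝ)| ≤ M := by
        have h1 := abs_nonneg (u 0 : ℝ)
        have h2 := abs_nonneg (v 0 : ℝ)
        have h4 := abs_nonneg (v 1 : ℝ)
        simp only [M]; linarith
      have b0 : |a 0| ≤ M * (|L a 0| + |L a 1|) := by
        have : |a 0| = |D * a 0| := by rw [abs_mul, hD, one_mul]
        rw [this, ea0]
        refine le_trans (abs_sub _ _) ?_
        rw [abs_mul, abs_mul]
        have i1 := mul_le_mul_of_nonneg_left hv1 (abs_nonneg (L a 0))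
        have i2 := mul_le_mul_of_nonneg_left hv0 (abs_nonneg (L a 1))
        linarith
      have b1 : |a 1| ≤ M * (|L a 0| + |L a 1|) := by
        have : |a 1| = |D * a 1| := by rw [abs_mul, hD, one_mul]
        rw [this, ea1]
        refine le_trans (abs_sub _ _) ?_
        rw [abs_mul, abs_mul]
        have i1 := mul_le_mul_of_nonneg_left hu1 (abs_nonneg (L a 0))
        have i2 := mul_le_mul_of_nonneg_left hu0 (abs_nonneg (L a 1))
        linarith
      have hs : |a 0| + |a 1| ≤ (M + M) * (|L a 0| + |L a 1|) := by linarith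
      calc r / (M + M) * (|a 0| + |a 1|)
          ≤ r / (M + M) * ((M + M) * (|L a 0| + |L a 1|)) :=
            mul_le_mul_of_nonneg_left hs (by positivity)
        _ = r * (|L a 0| + |L a 1|) := by
            field_simp
  have e10 : L ![1, 0] = toR u := by
    ext i; simp [L]
  have e01 : L ![0, 1] = toR v := by
    ext i; simp [L]
  have e11 : L ![1, 1] = toR (u + v) := by
    ext i; simp [L, toR]
  have e1m : L ![1, -1] = toR (u - v) := by
    ext i; simp [L, toR]; ring
  have hu : u ≠ 0 := by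
    rintro rfl
    apply hd0
    simp [dt]
  have hv : v ≠ 0 := by
    rintro rfl
    apply hd0
    simp [dt]
  have huv : u + v ≠ 0 := by
    intro h0
    apply hd0
    have h1 : v = -u := (neg_eq_of_add_eq_zero_right h0).symm
    rw [h1]
    simp only [dt, Pi.neg_apply]
    ring
  have huv' : u - v ≠ 0 := by
    intro h0
    apply hd0
    have h1 : v = u := (sub_eq_zero.1 h0).symm
    rw [h1]
    simp only [dt]
    ring
  have m1 := hmin u (u + v) (by rw [← hd]; simp only [dt, Pi.add_apply]; ring)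
  have m2 := hmin u (u - v) (by rw [← hd]; simp only [dt, Pi.sub_apply]; ring)
  have m3 := hmin (u + v) v (by rw [← hd]; simp only [dt, Pi.add_apply]; ring)
  have m4 := hmin (u - v) v (by rw [← hd]; simp only [dt, Pi.sub_apply]; ring)
  obtain ⟨w, hw, hwy⟩ := plane_core (fun a => h (L a)) hN
    (by simp only [e10]; exact h43 u hu) (by simp only [e01]; exact h43 v hv)
    (by simp only [e11]; exact h43 _ huv) (by simp only [e1m]; exact h43 _ huv')
    (by simp only [e01, e11]; linarith) (by simp only [e01, e1m]; linarith)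
    (by simp only [e10, e11]; linarith) (by simp only [e10, e1m]; linarith)
  -- the integer functional
  have hwz : ∃ c : Fin 2 → ℤ, c ≠ 0 ∧ toR c = w := by
    rcases hw with rfl | rfl | rfl | rfl
    · refine ⟨![0, 1], fun h0 => ?_, ?_⟩
      · have := congrFun h0 1
        simp at this
      · ext i; fin_cases i <;> simp [toR]
    · refine ⟨![1, 0], fun h0 => ?_, ?_⟩
      · have := congrFun h0 0
        simp at this
      · ext i; fin_cases i <;> simp [toR]
    · refine ⟨![1, -1], fun h0 => ?_, ?_⟩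
      · have := congrFun h0 0
        simp at this
      · ext i; fin_cases i <;> simp [toR]
    · refine ⟨![1, 1], fun h0 => ?_, ?_⟩
      · have := congrFun h0 0
        simp at this
      · ext i; fin_cases i <;> simp [toR]
  obtain ⟨c, hc0, hcw⟩ := hwz
  let D : ℤ := dt u v
  have hDD : D * D = 1 := hd
  let w' : Fin 2 → ℤ := ![D * (c 0 * v 1 - c 1 * u 1), D * (c 1 * u 0 - c 0 * v 0)]
  have hw'0 : w' 0 = D * (c 0 * v 1 - c 1 * u 1) := rfl
  have hw'1 : w' 1 = D * (c 1 * u 0 - c 0 * v 0) := rfl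
  refine ⟨w', ?_, ?_⟩
  · intro h0
    apply hc0
    have z0 : w' 0 = 0 := by rw [h0]; rfl
    have z1 : w' 1 = 0 := by rw [h0]; rfl
    have c0 : c 0 = w' 0 * u 0 + w' 1 * u 1 := by
      rw [hw'0, hw'1]
      have : D * (c 0 * v 1 - c 1 * u 1) * u 0 + D * (c 1 * u 0 - c 0 * v 0) * u 1
          = D * (u 0 * v 1 - u 1 * v 0) * c 0 := by ring
      rw [this]
      change c 0 = D * D * c 0
      rw [hDD, one_mul]
    have c1 : c 1 = w' 0 * v 0 + w' 1 * v 1 := by
      rw [hw'0, hw'1]
      have : D * (c 0 * v 1 - c 1 * u 1) * v 0 + D * (c 1 * u 0 - c 0 * v 0) * v 1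
          = D * (u 0 * v 1 - u 1 * v 0) * c 1 := by ring
      rw [this]
      change c 1 = D * D * c 1
      rw [hDD, one_mul]
    ext i
    fin_cases i
    · change c 0 = 0
      rw [c0, z0, z1]; ring
    · change c 1 = 0
      rw [c1, z0, z1]; ring
  · intro y
    let a : Fin 2 → ℝ := ![D * (y 0 * v 1 - y 1 * v 0), D * (u 0 * y 1 - u 1 * y 0)]
    have ha0 : a 0 = D * (y 0 * v 1 - y 1 * v 0) := rfl
    have ha1 : a 1 = D * (u 0 * y 1 - u 1 * y 0) := rfl
    have hDR : (D : ℝ) = u 0 * v 1 - u 1 * v 0 := by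
      simp [D, dt]
    have hLa : L a = y := by
      ext i
      fin_cases i
      · change L a 0 = y 0
        rw [hL0, ha0, ha1, hDR]
        linear_combination (y 0) * hdR
      · change L a 1 = y 1
        rw [hL1, ha0, ha1, hDR]
        linear_combination (y 1) * hdR
    have h1 := hwy a
    rw [hLa] at h1
    refine le_trans (le_of_eq ?_) h1
    rw [← hcw]
    simp only [dotProduct, Fin.sum_univ_two]
    rw [ha0, ha1]
    simp only [toR, hw'0, hw'1]
    push_cast
    ring

end Helper15.NL
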