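import Pool.Agent.Helper15.NL.SuppFn
import Pool.Agent.Helper15.NL.Line

/-!
NL-6. The slice of height one of `K ⊂ ℝ³` in the direction of the functional `e₃`, when `e₃` is
minimal in its class modulo two: its lattice widths.

By separation (compare the proof of `width2` in `Helper31/Ewald/Deep.lean`). The set
`{(x 2, y 2, v ⬝ x - v ⬝ y) : x, y ∈ K}` is compact and convex; if it misses the closed convex set
`{(1, 1, r) : r ≥ ρ}` there are `A, B, C` with `C ≥ 0` and
`A x₃ + B y₃ + C (v⬝x - v⬝y) < A + B + ρ C` on `K × K`; `C = 0` contradicts `W e₃ ≥ 1`; with `C = 1`: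
`W (v + A e₃) + W (-v + B e₃) < A + B + ρ`, i.e. `φ A + φ (-B) - (A + B) < ρ` for
`φ t = W (v + t e₃)`, against `line_lemma` (`Y = W e₃`; `φ k ≥ ρ` because `v + k e₃` is a
nonzero integer vector, `φ (k + 1/2) = W (2 v + (2k+1) e₃) / 2 ≥ Y / 2` by minimality).
-/

namespace Helper15.NL

open Matrix Set Helper31.Ewald

variable {K : Set (Fin 3 → ℝ)} {W : (Fin 3 → ℝ) → ℝ}

theorem slice_width {ρ : ℝ} (hρ : 2 ≤ ρ) (hK : SBody K) (hW : Supp K W)
    (hz : ∀ z : Fin 3 → ℤ, z ≠ 0 → ρ ≤ W (toR z))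
    (hmin : ∀ z : Fin 3 → ℤ, W ![0, 0, 1] ≤ W (![0, 0, 1] + (2 : ℝ) • toR z))
    (v : Fin 2 → ℤ) (hv : v ≠ 0) :
    ∃ x y : Fin 2 → ℝ, ![x 0, x 1, 1] ∈ K ∧ ![y 0, y 1, 1] ∈ K ∧ ρ ≤ toR v ⬝ᵥ (x - y) := by
  have hN := hW.normD hK
  set E : Fin 3 → ℝ := ![0, 0, 1] with hE
  set V : Fin 3 → ℝ := ![(v 0 : ℝ), (v 1 : ℝ), 0] with hV
  have hEx : ∀ x : Fin 3 → ℝ, E ⬝ᵥ x = x 2 := by
    intro x
    simp [hE, dotProduct, Fin.sum_univ_three]
  have hVx : ∀ x : Fin 3 → ℝ, V ⬝ᵥ x = v 0 * x 0 + v 1 * x 1 := by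
    intro x
    simp [hV, dotProduct, Fin.sum_univ_three]
  have hneg : ∀ a : Fin 3 → ℝ, W (-a) = W a := by
    intro a
    have h1 := hN.smul (-1) a
    rw [abs_neg, abs_one, one_mul, neg_one_smul] at h1
    exact h1
  have hY : ρ ≤ W E := by
    have h1 := hz ![0, 0, 1] (by
      intro h
      have := congrFun h 2
      simp at this)
    have h2 : toR (![0, 0, 1] : Fin 3 → ℤ) = E := by
      funext i
      fin_cases i <;> simp [toR, hE]
    rwa [h2] at h1
  have hline := line_lemma (fun t => W (V + t • E)) (W E) ρ hρ hY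
    (fun t => hW.subgrad hK V E t)
    (by
      intro k
      have h1 := hz ![v 0, v 1, k] (by
        intro h
        apply hv
        funext i
        have h0 := congrFun h 0
        have h1 := congrFun h 1
        simp at h0 h1
        fin_cases i
        · exact h0
        · exact h1)
      have h2 : toR (![v 0, v 1, k] : Fin 3 → ℤ) = V + (k : ℝ) • E := by
        funext i
        fin_cases i <;> simp [toR, hE, hV]
      rwa [h2] at h1)
    (by
      intro k
      have h1 := hmin ![v 0, v 1, k]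
      have h2 : E + (2 : ℝ) • toR (![v 0, v 1, k] : Fin 3 → ℤ) =
          (2 : ℝ) • (V + ((k : ℝ) + 1 / 2) • E) := by
        funext i
        fin_cases i <;> simp [toR, hE, hV]
        ring
      rw [h2, hN.smul, abs_of_pos (by norm_num : (0 : ℝ) < 2)] at h1
      show W E / 2 ≤ W (V + ((k : ℝ) + 1 / 2) • E)
      linarith)
    (by
      intro a b
      have h1 := hN.add (V + a • E) (-(V + b • E))
      have h2 : V + a • E + -(V + b • E) = (a - b) • E := by
        rw [sub_smul]; abel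
      rw [h2, hN.smul, hneg] at h1
      rw [mul_comm]
      exact h1)
  by_contra hcon
  push Not at hcon
  -- the compact convex set
  let g : (Fin 3 → ℝ) × (Fin 3 → ℝ) → ℝ × ℝ × ℝ :=
    fun z => (z.1 2, z.2 2, V ⬝ᵥ z.1 - V ⬝ᵥ z.2)
  have hg : IsLinearMap ℝ g :=
    { map_add := by
        intro a b
        simp only [g, Prod.fst_add, Prod.snd_add, dotProduct_add, Prod.mk_add_mk, Prod.mk.injEq,
          Pi.add_apply, true_and]
        ring
      map_smul := by
        intro c a
        simp only [g, Prod.smul_fst, Prod.smul_snd, dotProduct_smul, Prod.smul_mk, Prod.mk.injEq,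
          Pi.smul_apply, smul_eq_mul, true_and]
        ring }
  have hgc : Continuous g := by
    have h1 : Continuous fun x : Fin 3 → ℝ => V ⬝ᵥ x := by
      unfold dotProduct
      fun_prop
    exact ((continuous_apply 2).comp continuous_fst).prodMk
      (((continuous_apply 2).comp continuous_snd).prodMk
        ((h1.comp continuous_fst).sub (h1.comp continuous_snd)))
  have hMc : IsCompact (g '' (K ×ˢ K)) := (hK.compact.prod hK.compact).image hgc
  have hMconv : Convex ℝ (g '' (K ×ˢ K)) := (hK.convex.prod hK.convex).is_linear_image hg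
  set T : Set (ℝ × ℝ × ℝ) := {1} ×ˢ ({1} ×ˢ Ici ρ) with hT
  have hTconv : Convex ℝ T := (convex_singleton 1).prod ((convex_singleton 1).prod (convex_Ici ρ))
  have hTclosed : IsClosed T := isClosed_singleton.prod (isClosed_singleton.prod isClosed_Ici)
  have hdisj : Disjoint (g '' (K ×ˢ K)) T := by
    rw [Set.disjoint_left]
    rintro _ ⟨⟨x, y⟩, ⟨hx, hy⟩, rfl⟩ hxT
    obtain ⟨h1, h2, h3⟩ := hxT
    simp only [g, mem_singleton_iff, mem_Ici] at h1 h2 h3
    have hx' : ![(![x 0, x 1] : Fin 2 → ℝ) 0, (![x 0, x 1] : Fin 2 → ℝ) 1, 1] ∈ K := by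
      have : ![(![x 0, x 1] : Fin 2 → ℝ) 0, (![x 0, x 1] : Fin 2 → ℝ) 1, 1] = x := by
        funext i
        fin_cases i
        · rfl
        · rfl
        · exact h1.symm
      rw [this]; exact hx
    have hy' : ![(![y 0, y 1] : Fin 2 → ℝ) 0, (![y 0, y 1] : Fin 2 → ℝ) 1, 1] ∈ K := by
      have : ![(![y 0, y 1] : Fin 2 → ℝ) 0, (![y 0, y 1] : Fin 2 → ℝ) 1, 1] = y := by
        funext i
        fin_cases i
        · rfl
        · rfl
        · exact h2.symm
      rw [this]; exact hy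
    have h4 := hcon _ _ hx' hy'
    have h5 : toR v ⬝ᵥ ((![x 0, x 1] : Fin 2 → ℝ) - ![y 0, y 1]) = V ⬝ᵥ x - V ⬝ᵥ y := by
      rw [hVx, hVx]
      simp [toR, dotProduct, Fin.sum_univ_two]
      ring
    rw [h5] at h4
    exact absurd h3 (not_le.2 h4)
  obtain ⟨F, s, s', hs1, hss, hs2⟩ :=
    geometric_hahn_banach_compact_closed hMconv hMc hTconv hTclosed hdisj
  set A : ℝ := F (1, 0, 0) with hA
  set B : ℝ := F (0, 1, 0) with hB
  set C : ℝ := F (0, 0, 1) with hC
  have hF : ∀ a b c : ℝ, F (a, b, c) = A * a + B * b + C * c := by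
    intro a b c
    have h1 : ((a, b, c) : ℝ × ℝ × ℝ) =
        a • ((1, 0, 0) : ℝ × ℝ × ℝ) + b • ((0, 1, 0) : ℝ × ℝ × ℝ) +
          c • ((0, 0, 1) : ℝ × ℝ × ℝ) := by
      simp
    rw [h1, map_add, map_add, map_smul, map_smul, map_smul]
    simp only [smul_eq_mul]
    rw [← hA, ← hB, ← hC]
    ring
  have hTr : ∀ r : ℝ, ρ ≤ r → s' < A + B + C * r := by
    intro r hr
    have h1 := hs2 (1, 1, r) ⟨rfl, rfl, hr⟩
    rw [hF] at h1
    linarith
  have hC0 : 0 ≤ C := by
    by_contra h
    push Not at h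
    have h1 := hTr (max ρ ((s' - A - B) / C)) (le_max_left _ _)
    have h2 : C * max ρ ((s' - A - B) / C) ≤ C * ((s' - A - B) / C) :=
      mul_le_mul_of_nonpos_left (le_max_right _ _) h.le
    rw [mul_div_cancel₀ _ h.ne] at h2
    linarith
  have hkey : W (C • V + A • E) + W (C • V + (-B) • E) < A + B + C * ρ := by
    obtain ⟨x, hx, hxe⟩ := hW.att (C • V + A • E)
    obtain ⟨y, hy, hye⟩ := hW.att (-(C • V + (-B) • E))
    rw [hneg] at hye
    have h1 := hs1 (g (x, y)) ⟨(x, y), ⟨hx, hy⟩, rfl⟩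
    simp only [g] at h1
    rw [hF] at h1
    have h2 := hTr ρ le_rfl
    rw [← hxe, ← hye]
    simp only [add_dotProduct, smul_dotProduct, neg_dotProduct, smul_eq_mul, hEx]
    linarith
  rcases hC0.eq_or_lt with h0 | hpos
  · rw [← h0, zero_smul, zero_add, zero_add, hN.smul, hN.smul, zero_mul, abs_neg] at hkey
    have h1 : A ≤ |A| * W E := by
      nlinarith [le_abs_self A, abs_nonneg A,
        mul_nonneg (abs_nonneg A) (by linarith : (0 : ℝ) ≤ W E - 1)]
    have h2 : B ≤ |B| * W E := by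
      nlinarith [le_abs_self B, abs_nonneg B,
        mul_nonneg (abs_nonneg B) (by linarith : (0 : ℝ) ≤ W E - 1)]
    linarith
  · have hsc : ∀ t : ℝ, W (C • V + t • E) = C * W (V + (t / C) • E) := by
      intro t
      have h1 : C • V + t • E = C • (V + (t / C) • E) := by
        rw [smul_add, smul_smul, mul_div_cancel₀ _ hpos.ne']
      rw [h1, hN.smul, abs_of_pos hpos]
    rw [hsc, hsc] at hkey
    have h1 := hline (A / C) (-B / C)
    have h1' : ρ ≤ W (V + (A / C) • E) + W (V + (-B / C) • E) - |A / C - -B / C| := h1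
    have h2 : (A + B) / C ≤ |A / C - -B / C| := by
      have : A / C - -B / C = (A + B) / C := by ring
      rw [this]
      exact le_abs_self _
    have h3 : C * (W (V + (A / C) • E) + W (V + (-B / C) • E)) < C * ((A + B) / C + ρ) := by
      rw [mul_add, mul_add, mul_div_cancel₀ _ hpos.ne']
      linarith
    have h4 := lt_of_mul_lt_mul_left h3 hpos.le
    linarith

end Helper15.NL
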