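import Pool.Agent.Helper15.NL.Flat
import Pool.Agent.Helper15.NL.SliceW

/-!
NL-7. A lattice point in the slice of height one.

The slice `S = {s : Fin 2 → ℝ | ![s 0, s 1, 1] ∈ K}` is convex, compact, has interior points
(`K ∈ nhds 0` and a point of height `W e₃ > 1`: a point `q` of `K` of height exactly `1` which is
`c p` with `p ∈ K`, `0 < c < 1`; then `q + (1 - c) · (ball in K)` is in `K`), apply `flat` with
`slice_width`.
-/

namespace Helper15.NL

open Matrix Set Helper31.Ewald

theorem slice_point : SliceProp (7 / 3) := by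
  intro K W hK hW hz hmin
  let f : (Fin 2 → ℝ) → (Fin 3 → ℝ) := fun s => ![s 0, s 1, 1]
  have hfc : Continuous f := by
    refine continuous_pi fun i => ?_
    fin_cases i
    · exact continuous_apply 0
    · exact continuous_apply 1
    · exact continuous_const
  -- compactness
  have hcomp : IsCompact (f ⁻¹' K) := by
    have h1 : IsClosed {x : Fin 3 → ℝ | x 2 = 1} :=
      isClosed_eq (continuous_apply 2) continuous_const
    have h2 : IsCompact (K ∩ {x : Fin 3 → ℝ | x 2 = 1}) := hK.compact.inter_right h1
    let g : (Fin 3 → ℝ) → (Fin 2 → ℝ) := fun x => ![x 0, x 1]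
    have hgc : Continuous g := by
      refine continuous_pi fun i => ?_
      fin_cases i
      · exact continuous_apply 0
      · exact continuous_apply 1
    have h3 : f ⁻¹' K = g '' (K ∩ {x : Fin 3 → ℝ | x 2 = 1}) := by
      ext s
      constructor
      · intro hs
        refine ⟨f s, ⟨hs, rfl⟩, ?_⟩
        funext i
        fin_cases i <;> rfl
      · rintro ⟨x, ⟨hx, hx1⟩, rfl⟩
        have h4 : f (g x) = x := by
          funext i
          fin_cases i
          · rfl
          · rfl
          · exact hx1.symm
        change f (g x) ∈ K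
        rw [h4]
        exact hx
    rw [h3]
    exact h2.image hgc
  -- convexity
  have hconv : Convex ℝ (f ⁻¹' K) := by
    intro a ha b hb t u ht hu htu
    change f (t • a + u • b) ∈ K
    have h1 : f (t • a + u • b) = t • f a + u • f b := by
      funext i
      fin_cases i
      · rfl
      · rfl
      · change (1 : ℝ) = t * 1 + u * 1
        rw [mul_one, mul_one, htu]
    rw [h1]
    exact hK.convex ha hb ht hu htu
  -- interior
  have hint : (interior (f ⁻¹' K)).Nonempty := by
    obtain ⟨p, hp, hpe⟩ := hW.att ![0, 0, 1]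
    have hp2 : p 2 = W ![0, 0, 1] := by
      rw [← hpe]
      simp [dotProduct, Fin.sum_univ_three]
    have h1 := hz ![0, 0, 1] (by
      intro h
      have := congrFun h 2
      simp at this)
    have h2 : toR (![0, 0, 1] : Fin 3 → ℤ) = ![0, 0, 1] := by
      funext i
      fin_cases i <;> simp [toR]
    rw [h2, ← hp2] at h1
    have hppos : 0 < p 2 := by linarith
    set c : ℝ := (p 2)⁻¹ with hc
    have hc0 : 0 < c := inv_pos.2 hppos
    have hcp : c * p 2 = 1 := inv_mul_cancel₀ hppos.ne'
    have hc1 : c < 1 := by nlinarith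
    have hd : 0 < 1 - c := by linarith
    have hcont : Continuous fun s : Fin 2 → ℝ => (1 - c)⁻¹ • (f s - c • p) := by
      fun_prop
    have h3 : (1 - c)⁻¹ • (f ![c * p 0, c * p 1] - c • p) = 0 := by
      have h4 : f ![c * p 0, c * p 1] = c • p := by
        funext i
        fin_cases i
        · rfl
        · rfl
        · exact hcp.symm
      rw [h4, sub_self, smul_zero]
    have h4 := hcont.tendsto ![c * p 0, c * p 1]
    rw [h3] at h4
    refine ⟨![c * p 0, c * p 1], mem_interior_iff_mem_nhds.2 ?_⟩
    refine Filter.mem_of_superset (h4 hK.nhds0) ?_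
    intro s hs
    have h5 := hK.convex hp hs hc0.le hd.le (by ring)
    have h6 : c • p + (1 - c) • ((1 - c)⁻¹ • (f s - c • p)) = f s := by
      rw [smul_smul, mul_inv_cancel₀ hd.ne', one_smul, add_sub_cancel]
    rw [h6] at h5
    exact h5
  obtain ⟨z, hzK⟩ := flat (f ⁻¹' K) hconv hcomp hint (by
    intro v hv
    obtain ⟨x, y, hx, hy, hxy⟩ := slice_width (by norm_num) hK hW hz hmin v hv
    exact ⟨x, hx, y, hy, hxy⟩)
  refine ⟨![z 0, z 1, 1], ?_, rfl⟩
  have h1 : toR (![z 0, z 1, 1] : Fin 3 → ℤ) = f (toR z) := by
    funext i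
    fin_cases i
    · rfl
    · rfl
    · simp [toR, f]
  rw [h1]
  exact hzK

end Helper15.NL
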