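import Pool.Agent.Helper15.NL.Defs

/-!
NL-1. The support function of a symmetric convex body.
-/

namespace Helper15.NL

open Matrix Set Helper31.Ewald

variable {n : ℕ} {K : Set (Fin n → ℝ)} {W : (Fin n → ℝ) → ℝ}

theorem SBody.exists_supp (hK : SBody K) : ∃ W, Supp K W := by
  have hne : K.Nonempty := ⟨0, mem_of_mem_nhds hK.nhds0⟩
  have h : ∀ y : Fin n → ℝ, ∃ x ∈ K, ∀ x' ∈ K, y ⬝ᵥ x' ≤ y ⬝ᵥ x := by
    intro y
    have hc : ContinuousOn (fun x : Fin n → ℝ => y ⬝ᵥ x) K := by
      apply Continuous.continuousOn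
      unfold dotProduct
      fun_prop
    obtain ⟨x, hx, hmax⟩ := hK.compact.exists_isMaxOn hne hc
    exact ⟨x, hx, fun x' hx' => hmax hx'⟩
  choose X hX hX' using h
  exact ⟨fun y => y ⬝ᵥ X y, ⟨fun y x hx => hX' y x hx, fun y => ⟨X y, hX y, rfl⟩⟩⟩

theorem Supp.abs_dot_le (hW : Supp K W) (hK : SBody K) (y : Fin n → ℝ) {x : Fin n → ℝ} (hx : x ∈ K) :
    |y ⬝ᵥ x| ≤ W y := by
  rw [abs_le]
  have h1 := hW.le y x hx
  have h2 := hW.le y (-x) (hK.symm x hx)
  rw [dotProduct_neg] at h2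
  constructor <;> linarith

theorem Supp.normD (hW : Supp K W) (hK : SBody K) : NormD W := by
  refine ⟨?_, ?_, ?_⟩
  · intro a b
    obtain ⟨x, hx, hxe⟩ := hW.att (a + b)
    rw [← hxe, add_dotProduct]
    exact add_le_add (hW.le a x hx) (hW.le b x hx)
  · intro c a
    apply le_antisymm
    · obtain ⟨x, hx, hxe⟩ := hW.att (c • a)
      rw [← hxe, smul_dotProduct, smul_eq_mul]
      calc c * (a ⬝ᵥ x) ≤ |c * (a ⬝ᵥ x)| := le_abs_self _
        _ = |c| * |a ⬝ᵥ x| := abs_mul _ _
        _ ≤ |c| * W a := mul_le_mul_of_nonneg_left (hW.abs_dot_le hK a hx) (abs_nonneg c)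
    · obtain ⟨x, hx, hxe⟩ := hW.att a
      rcases le_total 0 c with hc | hc
      · have h1 := hW.le (c • a) x hx
        rw [smul_dotProduct, smul_eq_mul, hxe] at h1
        rwa [abs_of_nonneg hc]
      · have h1 := hW.le (c • a) (-x) (hK.symm x hx)
        rw [smul_dotProduct, smul_eq_mul, dotProduct_neg, hxe] at h1
        rw [abs_of_nonpos hc]
        linarith
  · obtain ⟨ε, hε, hball⟩ := Metric.mem_nhds_iff.1 hK.nhds0
    refine ⟨ε / 2, by positivity, fun a => ?_⟩
    have hx : (fun i => (ε / 2) * SignType.sign (a i) : Fin n → ℝ) ∈ K := by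
      apply hball
      rw [mem_ball_zero_iff]
      apply lt_of_le_of_lt _ (half_lt_self hε)
      rw [pi_norm_le_iff_of_nonneg (by positivity)]
      intro i
      rw [Real.norm_eq_abs, abs_mul, abs_of_pos (by positivity : 0 < ε / 2)]
      have h1 : |((SignType.sign (a i) : SignType) : ℝ)| ≤ 1 := by
        rcases lt_trichotomy (a i) 0 with h | h | h
        · simp [sign_neg h]
        · simp [h]
        · simp [sign_pos h]
      calc ε / 2 * |((SignType.sign (a i) : SignType) : ℝ)| ≤ ε / 2 * 1 :=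
            mul_le_mul_of_nonneg_left h1 (by positivity)
        _ = ε / 2 := mul_one _
    have h1 := hW.le a _ hx
    have h2 : a ⬝ᵥ (fun i => (ε / 2) * SignType.sign (a i) : Fin n → ℝ)
        = ε / 2 * ∑ i, |a i| := by
      unfold dotProduct
      rw [Finset.mul_sum]
      apply Finset.sum_congr rfl
      intro i _
      beta_reduce
      rcases lt_trichotomy (a i) 0 with h | h | h
      · rw [sign_neg h, abs_of_neg h]
        simp only [SignType.coe_neg, SignType.coe_one]
        ring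
      · simp [h]
      · rw [sign_pos h, abs_of_pos h]
        simp only [SignType.coe_one]
        ring
    rw [← h2]
    exact h1

theorem NormD.nonneg {h : (Fin n → ℝ) → ℝ} (hh : NormD h) (a : Fin n → ℝ) : 0 ≤ h a := by
  obtain ⟨r, hr, hra⟩ := hh.pos
  exact le_trans (mul_nonneg hr.le (Finset.sum_nonneg fun i _ => abs_nonneg _)) (hra a)

/-- Points satisfying all the support inequalities are in `K`. -/
theorem Supp.mem (hW : Supp K W) (hK : SBody K) {x : Fin n → ℝ} (hx : ∀ y, y ⬝ᵥ x ≤ W y) :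
    x ∈ K := by
  by_contra hxK
  obtain ⟨f, u, hu, hux⟩ := geometric_hahn_banach_closed_point hK.convex hK.compact.isClosed hxK
  have hf : ∀ v : Fin n → ℝ, f v = (fun i => f (Pi.single i 1)) ⬝ᵥ v := by
    intro v
    conv_lhs => rw [← Finset.univ_sum_single v]
    rw [map_sum]
    unfold dotProduct
    apply Finset.sum_congr rfl
    intro i _
    have h1 : (Pi.single i (v i) : Fin n → ℝ) = v i • Pi.single i (1 : ℝ) := by
      rw [← Pi.single_smul, smul_eq_mul, mul_one]
    rw [h1, map_smul, smul_eq_mul, mul_comm]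
  obtain ⟨a, ha, hae⟩ := hW.att (fun i => f (Pi.single i 1))
  have h1 := hu a ha
  have h2 := hx (fun i => f (Pi.single i 1))
  rw [← hf] at h2
  rw [← hf] at hae
  linarith

/-- Subgradients along a line. -/
theorem Supp.subgrad (hW : Supp K W) (hK : SBody K) (z u : Fin n → ℝ) (t : ℝ) :
    ∃ κ : ℝ, |κ| ≤ W u ∧ ∀ t' : ℝ, W (z + t • u) + κ * (t' - t) ≤ W (z + t' • u) := by
  obtain ⟨x, hx, hxe⟩ := hW.att (z + t • u)
  refine ⟨u ⬝ᵥ x, hW.abs_dot_le hK u hx, fun t' => ?_⟩
  have h1 := hW.le (z + t' • u) x hx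
  rw [← hxe]
  simp only [add_dotProduct, smul_dotProduct, smul_eq_mul] at h1 ⊢
  linarith

/-- Only finitely many integer vectors have bounded norm. -/
theorem NormD.finite {h : (Fin n → ℝ) → ℝ} (hh : NormD h) (R : ℝ) :
    {z : Fin n → ℤ | h (toR z) ≤ R}.Finite := by
  obtain ⟨r, hr, hra⟩ := hh.pos
  apply (Set.finite_Icc (fun _ => -⌈R / r⌉ : Fin n → ℤ) (fun _ => ⌈R / r⌉)).subset
  intro z hz
  have h1 : r * ∑ i, |toR z i| ≤ R := le_trans (hra _) hz
  have h2 : ∀ i, |z i| ≤ ⌈R / r⌉ := by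
    intro i
    have h3 : |toR z i| ≤ ∑ i, |toR z i| :=
      Finset.single_le_sum (f := fun i => |toR z i|) (fun i _ => abs_nonneg _) (Finset.mem_univ i)
    have h4 : |toR z i| ≤ R / r := by
      rw [le_div_iff₀ hr]
      calc |toR z i| * r = r * |toR z i| := mul_comm _ _
        _ ≤ r * ∑ i, |toR z i| := mul_le_mul_of_nonneg_left h3 hr.le
        _ ≤ R := h1
    have h5 : ((|z i| : ℤ) : ℝ) ≤ (⌈R / r⌉ : ℤ) := by
      rw [Int.cast_abs]
      exact le_trans h4 (Int.le_ceil _)
    exact_mod_cast h5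
  rw [Set.mem_Icc]
  constructor
  · intro i
    exact (abs_le.1 (h2 i)).1
  · intro i
    exact (abs_le.1 (h2 i)).2

end Helper15.NL
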